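import Pool.Agent.H87.PF.CutR
import Pool.Agent.H87.PF.SFin
import Pool.Agent.H87.PE.Tra

/-!
# Module ErrR: the renormalised part

Copy the proof of `err_ren` in H87/PE/Ren.lean (`er_gau`, `hmain`, the last step) with `ren_cut` in place of `er_cut`, and, in place of `XS_reg`: `XN(G) ≤ XN(g) + η'` (`XN_reg`), `SS(G) ≤ K₃ (Dn + XN(g)) + η'` (`sing_G` with `V = 1`):
`A[(1/e₀ + K₂) Pc + e₀ K₂ (XN(G) + SS(G))] ≤ A[(1/e₀ + K₂ + e₀K₂K₃)(Dn + η') + e₀ K₂ (1+K₃) XN(g) + 2 e₀ K₂ η' …]`; `K = K₂ (1 + K₃)` and `Dn ≥ -η'` (first part of `Pc_lim`) to replace `e₀ K₂ K₃ ≤ K₂ K₃`.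
`ψ` is only measurable. `tra` with the constant `2 A₁`. Last: `|∫ Q(g) (bet' G - bet' g) ψ| ≤ A₁ (2δ/C₀) ∫ |Q(g)|` as there.
-/

set_option autoImplicit false

open MeasureTheory Set Filter Topology Pool.Agent.H25.Kin Pool.Agent.H48.PL
open Pool.Agent.H82.CM
open Pool.Agent.H15.AV (gau UNice)
open Pool.Agent.H48.PI (om Dn bet')
open Pool.Agent.H48.PW (sP Cusp CuspB)
open Pool.Agent.H87.PE

namespace Pool.Agent.H87.PF

variable {d : ℕ} {s a β C Ca cb : ℝ} {b : ℝ → ℝ}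

private lemma err_PG {φ : Vec d → ℝ} {A : ℝ} (h : ∀ v, |φ v| ≤ A) : PG φ := by
  refine ⟨0, A, fun v => ?_⟩
  rw [pow_zero, mul_one, Real.norm_eq_abs]
  exact h v

private lemma err_gau (v : Vec d) : 0 < gau v ∧ gau v ≤ 1 := by
  refine ⟨Real.exp_pos _, ?_⟩
  unfold gau
  rw [← Real.exp_zero]
  exact Real.exp_le_exp.2 (by linarith [sq_nonneg' v])

theorem err_r (HL : HypL d (1 + a) s b C Ca cb) (E : EP s a β) :
    ∃ K : ℝ, 0 ≤ K ∧ ∀ e₀ : ℝ, 0 < e₀ → e₀ ≤ 1 → ∀ (A₁ C₀ : ℝ) (Cl : ℕ → ℝ), 0 < C₀ →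
      ∀ η : ℝ, 0 < η → ∃ δ₀ > 0, ∀ δ ∈ Ioc (0 : ℝ) δ₀, ∀ g : Vec d → ℝ, UNice Cl g →
      ∀ (v₀ : Vec d) (A : ℝ), 0 ≤ A → A ≤ A₁ → ∀ ψ : Vec d → ℝ, CuspB s a v₀ A ψ →
      |∫ w, bet' C₀ (g w) * boltzQ (1 + a) b g w * ψ w| ≤
        A * ((1 / e₀ + K) * Dn (1 + a) b δ g + e₀ * K * XN a β 1 g) + η := by
  have H := HL.H
  obtain ⟨K₂, hK₂, hcut⟩ := ren_cut H E
  obtain ⟨K₃, hK₃, hsing⟩ := sing_G HL E
  set K : ℝ := K₂ * (1 + K₃) with hKdef
  have hK : 0 ≤ K := by positivity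
  refine ⟨K, hK, fun e₀ he₀ he₁ A₁ C₀ Cl hC₀ η hη => ?_⟩
  obtain ⟨D, hD, hdec⟩ := Pool.Agent.H15.AV.boltzCut_decay_unif H Cl (d + 1)
  have hI0 : 0 ≤ ∫ z, wt d z := integral_nonneg fun z => wt_nonneg z
  set M : ℝ := 1 / e₀ + K₂ + 2 * (e₀ * K₂) + K₂ * K₃ with hM
  have hM0 : 0 ≤ M := by positivity
  set B : ℝ := |A₁| * M + 2 with hB
  have hB0 : 0 < B := by positivity
  set η' : ℝ := η / B with hη'
  have hη'0 : 0 < η' := div_pos hη hB0
  have hηB : B * η' = η := by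
    rw [hη']
    field_simp
  obtain ⟨δa, hδa, hδah, htra⟩ := tra H Cl (2 * A₁) hη'0
  obtain ⟨δb, hδb, hδbh, hPc⟩ := Pc_lim H Cl hη'0
  obtain ⟨δc, hδc, hXN⟩ := XN_reg (d := d) E Cl hη'0
  obtain ⟨δs, hδs, hSS⟩ := hsing Cl η' hη'0
  set Z : ℝ := 2 / C₀ * |A₁| * D * (∫ z, wt d z) with hZ
  have hZ0 : 0 ≤ Z := by positivity
  refine ⟨min (min δa (min δb δs)) (min δc (η' / (Z + 1))),
    lt_min (lt_min hδa (lt_min hδb hδs)) (lt_min hδc (by positivity)), ?_⟩
  intro δ hδ g hg v₀ A hA hAA ψ hψ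
  have hψA := hψ.h0
  have hψm := hψ.meas
  have hd0 : 0 < δ := hδ.1
  have hda : δ ≤ δa := hδ.2.trans ((min_le_left _ _).trans (min_le_left _ _))
  have hdb : δ ≤ δb := hδ.2.trans ((min_le_left _ _).trans ((min_le_right _ _).trans (min_le_left _ _)))
  have hds : δ ≤ δs := hδ.2.trans ((min_le_left _ _).trans ((min_le_right _ _).trans (min_le_right _ _)))
  have hdc : δ ≤ δc := hδ.2.trans ((min_le_right _ _).trans (min_le_left _ _))
  have hde : δ ≤ η' / (Z + 1) := hδ.2.trans ((min_le_right _ _).trans (min_le_right _ _))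
  have hdZ : δ * Z ≤ η' := by
    rw [le_div_iff₀ (by linarith)] at hde
    nlinarith
  have hd1 : δ ≤ 1 := by linarith
  have hA1 : 0 ≤ A₁ := hA.trans hAA
  have hG := gd_reg hg hd0 hd1
  have hG0 : ∀ v, 0 ≤ g v + δ * gau v := fun v => (hG.pos v).le
  have hbm : ∀ f : Vec d → ℝ, Measurable f → Measurable fun v => bet' C₀ (f v) := by
    intro f hf
    unfold bet'
    exact ((measurable_const.div (hf.const_add C₀))).pow_const 2
  set L : Vec d → ℝ := fun v => bet' C₀ (g v + δ * gau v) * ψ v with hL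
  have hLm : Measurable L := (hbm _ hG.cont.measurable).mul hψm
  have hLA : ∀ v, |L v| ≤ A := by
    intro v
    simp only [hL]
    rw [abs_mul, abs_of_nonneg (bet_nonneg _ _)]
    calc bet' C₀ (g v + δ * gau v) * |ψ v| ≤ 1 * A :=
          mul_le_mul (bet_le_one hC₀ (hG0 v)) (hψA v) (abs_nonneg _) zero_le_one
      _ = A := one_mul A
  have hLP : PG L := err_PG hLA
  have hlin : ∀ v, |L v - L 0| ≤ 2 * A₁ * (1 + ‖v‖) := by
    intro v
    have q1 := abs_le.1 (hLA v)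
    have q2 := abs_le.1 (hLA 0)
    have q3 : |L v - L 0| ≤ 2 * A := by
      rw [abs_le]
      constructor <;> linarith
    have q4 : 2 * A₁ * 1 ≤ 2 * A₁ * (1 + ‖v‖) :=
      mul_le_mul_of_nonneg_left (one_le_w v) (by positivity)
    linarith
  obtain ⟨hDn, hev⟩ := hPc δ ⟨hd0, hdb⟩ g hg
  have hx1 := hXN δ ⟨hd0, hdc⟩ g hg 1 le_rfl
  have hx2 := hSS δ ⟨hd0, hds⟩ g hg 1 le_rfl v₀
  have hlim := (boltz_weak_tendsto H hg.nice hLP hLm).abs
  -- the estimate with the regularized renormalization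
  have hmain : |∫ v, boltzQ (1 + a) b g v * L v| ≤
      A * ((1 / e₀ + K) * Dn (1 + a) b δ g + e₀ * K * XN a β 1 g) + (|A₁| * M * η' + η') := by
    refine le_of_tendsto hlim ?_
    filter_upwards [hev, self_mem_nhdsWithin] with ε hPε hε
    have hε0 : 0 < ε := hε
    have t1 := htra δ ⟨hd0, hda⟩ g hg L hLm hlin ε hε0
    have t2 := hcut e₀ he₀ he₁ C₀ hC₀ _ hG ε hε0 A hA v₀ ψ hψ
    have hAa : A ≤ |A₁| := hAA.trans (le_abs_self _)
    have s1 : (1 / e₀ + K₂) * Pc (1 + a) b ε (fun v => g v + δ * gau v) ≤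
        (1 / e₀ + K₂) * Dn (1 + a) b δ g + (1 / e₀ + K₂) * η' := by
      have := mul_le_mul_of_nonneg_left hPε (by positivity : (0 : ℝ) ≤ 1 / e₀ + K₂)
      linarith
    have s2 : e₀ * K₂ * (XN a β 1 (fun v => g v + δ * gau v) +
        SS s a β 1 v₀ (fun v => g v + δ * gau v)) ≤
        e₀ * K₂ * ((XN a β 1 g + η') + (K₃ * (Dn (1 + a) b δ g + XN a β 1 g) + η')) :=
      mul_le_mul_of_nonneg_left (add_le_add hx1 hx2) (by positivity)
    have s5 : 0 ≤ K₂ * K₃ * (1 - e₀) * (Dn (1 + a) b δ g + η') :=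
      mul_nonneg (mul_nonneg (mul_nonneg hK₂ hK₃) (by linarith)) (by linarith)
    have s6 : 0 ≤ e₀ * (K₂ * K₃) * η' := by positivity
    have s3 : A * ((1 / e₀ + K₂) * Pc (1 + a) b ε (fun v => g v + δ * gau v) +
        e₀ * K₂ * (XN a β 1 (fun v => g v + δ * gau v) +
          SS s a β 1 v₀ (fun v => g v + δ * gau v))) ≤
        A * ((1 / e₀ + K) * Dn (1 + a) b δ g + e₀ * K * XN a β 1 g) + A * (M * η') := by
      rw [← mul_add]
      refine mul_le_mul_of_nonneg_left ?_ hA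
      rw [hKdef, hM]
      nlinarith [s1, s2, s5, s6]
    have s4 : A * (M * η') ≤ |A₁| * M * η' := by
      have := mul_le_mul_of_nonneg_right hAa (mul_nonneg hM0 hη'0.le)
      calc _ ≤ |A₁| * (M * η') := this
        _ = _ := by ring
    linarith
  -- back to `bet' (g)`
  have hQd : ∀ v, |boltzQ (1 + a) b g v| ≤ D * wt d v := by
    intro v
    refine le_of_tendsto (boltz_tendsto H hg.nice v).abs ?_
    filter_upwards [self_mem_nhdsWithin] with ε hε
    exact hdec g hg ε hε v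
  have hQm : Measurable fun v => boltzQ (1 + a) b g v := by
    refine measurable_of_tendsto_metrizable' (𝓝[>] (0 : ℝ)) (f := fun ε v => boltzCut (1 + a) b ε g v)
      (fun ε => (boltzCut_meas H.bm hg.nice.cont ε).measurable) ?_
    rw [tendsto_pi_nhds]
    exact fun v => boltz_tendsto H hg.nice v
  have iQ : ∀ F : Vec d → ℝ, Measurable F → (∀ v, |F v| ≤ A) →
      Integrable fun v => boltzQ (1 + a) b g v * F v := by
    intro F hF hFA
    refine (integrable_wt.const_mul (D * A)).mono' (hQm.mul hF).aestronglyMeasurable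
      (Eventually.of_forall fun v => ?_)
    rw [norm_mul, Real.norm_eq_abs, Real.norm_eq_abs]
    calc |boltzQ (1 + a) b g v| * |F v| ≤ (D * wt d v) * A :=
          mul_le_mul (hQd v) (hFA v) (abs_nonneg _) (mul_nonneg hD (wt_nonneg v))
      _ = D * A * wt d v := by ring
  set L' : Vec d → ℝ := fun v => bet' C₀ (g v) * ψ v with hL'
  have hLm' : Measurable L' := (hbm _ hg.nice.cont.measurable).mul hψm
  have hLA' : ∀ v, |L' v| ≤ A := by
    intro v
    simp only [hL']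
    rw [abs_mul, abs_of_nonneg (bet_nonneg _ _)]
    calc bet' C₀ (g v) * |ψ v| ≤ 1 * A :=
          mul_le_mul (bet_le_one hC₀ (hg.nonneg v)) (hψA v) (abs_nonneg _) zero_le_one
      _ = A := one_mul A
  have hdiff : |(∫ v, boltzQ (1 + a) b g v * L' v) - ∫ v, boltzQ (1 + a) b g v * L v| ≤ η' := by
    rw [← integral_sub (iQ L' hLm' hLA') (iQ L hLm hLA), ← Real.norm_eq_abs]
    have hb : ∀ v, ‖boltzQ (1 + a) b g v * L' v - boltzQ (1 + a) b g v * L v‖ ≤
        (δ * (2 / C₀ * |A₁| * D)) * wt d v := by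
      intro v
      obtain ⟨g0, g1⟩ := err_gau v
      have q0 : 0 ≤ δ * gau v := mul_nonneg hd0.le g0.le
      have q1 := bet_lip hC₀ (hg.nonneg v) (hG0 v)
      have q2 : |g v - (g v + δ * gau v)| ≤ δ := by
        have : g v - (g v + δ * gau v) = -(δ * gau v) := by ring
        rw [this, abs_neg, abs_of_nonneg q0]
        exact mul_le_of_le_one_right hd0.le g1
      have q3 : |L' v - L v| ≤ 2 / C₀ * δ * |A₁| := by
        have e : L' v - L v = (bet' C₀ (g v) - bet' C₀ (g v + δ * gau v)) * ψ v := by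
          simp only [hL, hL']
          ring
        rw [e, abs_mul]
        have q4 : |bet' C₀ (g v) - bet' C₀ (g v + δ * gau v)| ≤ 2 / C₀ * δ :=
          q1.trans (mul_le_mul_of_nonneg_left q2 (by positivity))
        exact mul_le_mul q4 ((hψA v).trans (hAA.trans (le_abs_self _))) (abs_nonneg _)
          (by positivity)
      have e2 : boltzQ (1 + a) b g v * L' v - boltzQ (1 + a) b g v * L v =
          boltzQ (1 + a) b g v * (L' v - L v) := by ring
      rw [e2, norm_mul, Real.norm_eq_abs, Real.norm_eq_abs]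
      calc |boltzQ (1 + a) b g v| * |L' v - L v| ≤ (D * wt d v) * (2 / C₀ * δ * |A₁|) :=
            mul_le_mul (hQd v) q3 (abs_nonneg _) (mul_nonneg hD (wt_nonneg v))
        _ = _ := by ring
    refine (norm_integral_le_of_norm_le (integrable_wt.const_mul _)
      (Eventually.of_forall hb)).trans ?_
    rw [integral_const_mul]
    calc δ * (2 / C₀ * |A₁| * D) * ∫ z, wt d z = δ * Z := by rw [hZ]; ring
      _ ≤ η' := hdZ
  have efin : ∫ w, bet' C₀ (g w) * boltzQ (1 + a) b g w * ψ w =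
      ∫ v, boltzQ (1 + a) b g v * L' v := by
    refine integral_congr_ae (Eventually.of_forall fun v => ?_)
    simp only [hL']
    ring
  rw [efin]
  have k1 : |∫ v, boltzQ (1 + a) b g v * L' v| ≤
      |(∫ v, boltzQ (1 + a) b g v * L' v) - ∫ v, boltzQ (1 + a) b g v * L v| +
        |∫ v, boltzQ (1 + a) b g v * L v| := by
    have := abs_add_le ((∫ v, boltzQ (1 + a) b g v * L' v) - ∫ v, boltzQ (1 + a) b g v * L v)
      (∫ v, boltzQ (1 + a) b g v * L v)
    rwa [sub_add_cancel] at this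
  have k2 : B * η' = |A₁| * M * η' + 2 * η' := by
    rw [hB]
    ring
  linarith

end Pool.Agent.H87.PF
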