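import Pool.Agent.H87.PF.ErrC
import Pool.Agent.H87.PF.ErrR
import Pool.Agent.H87.PF.XTc

/-!
# Module Fin: the interfaces of blocks S, H, R (complete, given the other modules)
-/

set_option autoImplicit false

open MeasureTheory Set Filter Topology Pool.Agent.H25.Kin Pool.Agent.H48.PL
open Pool.Agent.H82.CM
open Pool.Agent.H15.AV (gau UNice)
open Pool.Agent.H48.PI (om Dn bet')
open Pool.Agent.H48.PW (WP sP Cusp CuspB XT)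
open Pool.Agent.H87.PE

namespace Pool.Agent.H87.PF

variable {d : ℕ} {s a β m C Ca cb : ℝ} {b : ℝ → ℝ}

lemma EP.of (W : WP s a β m) : EP s a m :=
  ⟨W.hs, W.ha, by linarith [W.hβ, W.hβm], W.ham, W.hm⟩

private lemma gau_nn (v : Vec d) : 0 ≤ gau v := (Real.exp_pos _).le

/-- block S -/
theorem sing_S (HL : HypL d (1 + a) s b C Ca cb) (W : WP s a β m) :
    ∃ K : ℝ, 0 ≤ K ∧ ∀ (Cl : ℕ → ℝ), ∀ η > 0, ∃ δ₀ > 0, ∀ δ ∈ Ioc (0 : ℝ) δ₀, ∀ g : Vec d → ℝ,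
      UNice Cl g → ∀ V : ℝ, 1 ≤ V → ∀ v₀ : Vec d,
      ∫ p : Vec d × Vec d, g p.1 * g p.2 * (len (p.1 - p.2) ^ (1 + a + 2 * s) *
        len (p.1 - v₀) ^ (2 * (a - sP s a)) * om m V (RR p.1 p.2)) ≤
        K * (Dn (1 + a) b δ g + XT a m V g) + η := by
  have E := EP.of W
  obtain ⟨K, hK, hS⟩ := sing_G HL E
  refine ⟨4 * K, by positivity, fun Cl η hη => ?_⟩
  set η' : ℝ := η / (3 * K + 1) with hη'
  have hd' : 0 < 3 * K + 1 := by positivity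
  have hη'0 : 0 < η' := div_pos hη hd'
  have hηe : η' * (3 * K + 1) = η := div_mul_cancel₀ _ hd'.ne'
  obtain ⟨δa, hδa, hSa⟩ := hS Cl η' hη'0
  obtain ⟨δb, hδb, hDb⟩ := Dn_ge HL.H Cl hη'0
  refine ⟨min (min δa δb) 1, lt_min (lt_min hδa hδb) one_pos, fun δ hδ g hg V hV v₀ => ?_⟩
  have hda : δ ≤ δa := hδ.2.trans ((min_le_left _ _).trans (min_le_left _ _))
  have hdb : δ ≤ δb := hδ.2.trans ((min_le_left _ _).trans (min_le_right _ _))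
  have hd1 : δ ≤ 1 := hδ.2.trans (min_le_right _ _)
  have hG := gd_reg hg hδ.1 hd1
  have h1 := hSa δ ⟨hδ.1, hda⟩ g hg V hV v₀
  have h2 := hDb δ ⟨hδ.1, hdb⟩ g hg
  have h3 := SS_mono (s := s) (a := a) (β := m) HL.H.hd E hg.nice.rd hg.nice.cont hG.rd hG.cont
    hg.nonneg (fun v => by
      have := mul_nonneg hδ.1.le (gau_nn v)
      linarith : ∀ v, g v ≤ g v + δ * gau v) hV v₀
  have h4 := XN_le_XT (β := m) E hg.nice.rd hg.nice.cont hg.nonneg hV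
  have h5 : ∫ p : Vec d × Vec d, g p.1 * g p.2 * (len (p.1 - p.2) ^ (1 + a + 2 * s) *
      len (p.1 - v₀) ^ (2 * (a - sP s a)) * om m V (RR p.1 p.2)) = SS s a m V v₀ g := rfl
  rw [h5]
  have h6 := mul_le_mul_of_nonneg_left h4 hK
  have h7 := mul_le_mul_of_nonneg_left h2 (by positivity : 0 ≤ 3 * K)
  nlinarith

/-- block H -/
theorem err_cusp (HL : HypL d (1 + a) s b C Ca cb) (W : WP s a β m) (A₁ : ℝ) (hA₁ : 0 ≤ A₁) :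
    ∃ K : ℝ, 0 ≤ K ∧ ∀ R₁ : ℝ, 1 ≤ R₁ → ∃ K₁ : ℝ, 0 ≤ K₁ ∧ ∀ ε : ℝ, 0 < ε → ε ≤ 1 →
      ∀ (Cl : ℕ → ℝ), ∀ η > 0, ∃ δ₀ > 0, ∀ δ ∈ Ioc (0 : ℝ) δ₀, ∀ g : Vec d → ℝ, UNice Cl g →
      ∀ (v₀ : Vec d) (V₁ : ℝ), 1 ≤ V₁ → ∀ ψ : Vec d → ℝ, Cusp s a m v₀ V₁ A₁ ψ →
      |∫ w, boltzQ (1 + a) b g w * ψ w| ≤ K₁ / ε * Dn (1 + a) b δ g +
        ε * K₁ * om m V₁ R₁ * XT a m 1 g + K * XT a m (max V₁ R₁) g + η := by
  have E := EP.of W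
  obtain ⟨K, hK, hC⟩ := err_c HL E A₁ hA₁
  refine ⟨4 * K, by positivity, fun R₁ hR₁ => ?_⟩
  obtain ⟨K₁, hK₁, hC1⟩ := hC R₁ hR₁
  refine ⟨4 * K₁, by positivity, fun ε hε hε1 Cl η hη => ?_⟩
  set η' : ℝ := η / (3 * K₁ / ε + 1) with hη'
  have hd' : 0 < 3 * K₁ / ε + 1 := by positivity
  have hη'0 : 0 < η' := div_pos hη hd'
  have hηe : η' * (3 * K₁ / ε + 1) = η := div_mul_cancel₀ _ hd'.ne'
  obtain ⟨δa, hδa, hCa⟩ := hC1 ε hε hε1 Cl η' hη'0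
  obtain ⟨δb, hδb, hDb⟩ := Dn_ge HL.H Cl hη'0
  refine ⟨min δa δb, lt_min hδa hδb, fun δ hδ g hg v₀ V₁ hV₁ ψ hψ => ?_⟩
  have h1 := hCa δ ⟨hδ.1, hδ.2.trans (min_le_left _ _)⟩ g hg v₀ V₁ hV₁ ψ hψ
  have h2 := hDb δ ⟨hδ.1, hδ.2.trans (min_le_right _ _)⟩ g hg
  have h3 := XN_le_XT (β := m) E hg.nice.rd hg.nice.cont hg.nonneg le_rfl
  have h4 := XN_le_XT (β := m) E hg.nice.rd hg.nice.cont hg.nonneg (hV₁.trans (le_max_left V₁ R₁))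
  have ho := om_nn (β := m) hV₁ (by linarith : 0 ≤ R₁)
  have h5 := mul_le_mul_of_nonneg_left h3 (by positivity : 0 ≤ ε * K₁ * om m V₁ R₁)
  have h6 := mul_le_mul_of_nonneg_left h4 hK
  have h7 := mul_le_mul_of_nonneg_left h2 (by positivity : 0 ≤ 3 * K₁ / ε)
  have e1 : 4 * K₁ / ε * Dn (1 + a) b δ g =
      K₁ / ε * Dn (1 + a) b δ g + 3 * K₁ / ε * Dn (1 + a) b δ g := by ring
  rw [e1]
  nlinarith

/-- block R -/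
theorem err_renc (HL : HypL d (1 + a) s b C Ca cb) (W : WP s a β m) :
    ∃ K : ℝ, 0 ≤ K ∧ ∀ ε : ℝ, 0 < ε → ε ≤ 1 → ∀ (A₁ C₀ : ℝ) (Cl : ℕ → ℝ), 0 < C₀ → ∀ η > 0,
      ∃ δ₀ > 0, ∀ δ ∈ Ioc (0 : ℝ) δ₀, ∀ g : Vec d → ℝ, UNice Cl g →
      ∀ (v₀ : Vec d) (A : ℝ), 0 ≤ A → A ≤ A₁ → ∀ ψ : Vec d → ℝ, CuspB s a v₀ A ψ →
      |∫ w, bet' C₀ (g w) * boltzQ (1 + a) b g w * ψ w| ≤
        A * ((1 / ε + K) * Dn (1 + a) b δ g + ε * K * XT a m 1 g) + η := by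
  have E := EP.of W
  obtain ⟨K, hK, hR⟩ := err_r HL E
  refine ⟨4 * K, by positivity, fun ε hε hε1 A₁ C₀ Cl hC₀ η hη => ?_⟩
  set η' : ℝ := η / (3 * K * |A₁| + 1) with hη'
  have hd' : 0 < 3 * K * |A₁| + 1 := by positivity
  have hη'0 : 0 < η' := div_pos hη hd'
  have hηe : η' * (3 * K * |A₁| + 1) = η := div_mul_cancel₀ _ hd'.ne'
  obtain ⟨δa, hδa, hRa⟩ := hR ε hε hε1 A₁ C₀ Cl hC₀ η' hη'0
  obtain ⟨δb, hδb, hDb⟩ := Dn_ge HL.H Cl hη'0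
  refine ⟨min δa δb, lt_min hδa hδb, fun δ hδ g hg v₀ A hA hAA ψ hψ => ?_⟩
  have h1 := hRa δ ⟨hδ.1, hδ.2.trans (min_le_left _ _)⟩ g hg v₀ A hA hAA ψ hψ
  have h2 := hDb δ ⟨hδ.1, hδ.2.trans (min_le_right _ _)⟩ g hg
  have h3 := XN_le_XT (β := m) E hg.nice.rd hg.nice.cont hg.nonneg le_rfl
  have hAa : A ≤ |A₁| := hAA.trans (le_abs_self _)
  have h5 := mul_le_mul_of_nonneg_left h3 (by positivity : 0 ≤ A * (ε * K))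
  have h7 := mul_le_mul_of_nonneg_left h2 (by positivity : 0 ≤ 3 * K * A)
  have h8 : 3 * K * A * η' ≤ 3 * K * |A₁| * η' := by gcongr
  have e1 : A * ((1 / ε + 4 * K) * Dn (1 + a) b δ g + ε * (4 * K) * XT a m 1 g) =
      A * ((1 / ε + K) * Dn (1 + a) b δ g) + 3 * K * A * Dn (1 + a) b δ g +
        A * (ε * K) * (4 * XT a m 1 g) := by ring
  rw [e1]
  nlinarith

end Pool.Agent.H87.PF
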