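import Pool.Agent.H87.PF.KerA

/-!
# Module AngC: angular integrals of the increments of a cusp function

`y = 1 - cosTh v w σ ∈ [0,2]`, `N = nsq (v-w) > 0`, `L = len (v-w)`, `ρ = len (v-v₀) > 0`, `ρ₂ = len (w-v₀) > 0`, `s' = sP s a` (`s < s' < 1`, `a ≤ s'`: `EP.s_lt`, `EP.sP_lt`), `-b' = 2(a-s') ∈ (-1,0]`, `o = om β V₁ (RR v w)` (`om_mono'`: `om (max (jb v) (jb v')) ≤ o`, `jb_post_le`, `jb_post'_le`, `jb_le_RR_left/right`).
`len (v-v')² = N y/2` (`nsq_post_sub`, `nsq_sub_comm`-type symmetry; also for `w'`, `w`), so `len (v-v')^s' = (N y/2)^(s'/2) ≤ (N y)^(s'/2)`, `len (v-v')^a ≤ (N y)^(a/2)`. `dX ψ = (ψ v' - ψ v) + (ψ w' - ψ w)`.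
Second bound (`h2` with `w := v ≠ v₀`, resp. `w ≠ v₀`): `|ψ v - ψ v'| ≤ A o (N y)^(s'/2) (1 + ρ^(a-s'))`, `(1 + ρ^(a-s'))² ≤ 2 (1 + ρ^(-b'))` (`(ρ^(a-s'))² = ρ^(2(a-s'))`), so
`dX² ≤ 2·2 A² o² (N y)^s' (2 + ρ^(-b') + ρ₂^(-b')) ≤ 8 A² o² (N y)^s' P`, `P = 1 + ρ^(-b') + ρ₂^(-b')`.
* `ang_near`: `(N y)^s' = L^(2s') y^s'`, `ker_full` with `τ = s'`: `≤ 8 K A² o² L^(1+a) L^(2s') P`, and `L^(1+a) L^(2s') = L^(1+a+2s) L^(2(s'-s))` (`L > 0`).
* `ang_mid`: on `{N y < 1}`: `(N y)^s' = min (N y) 1 ^ s'`, extend the integral to all `σ` (nonnegative), `ker_min` with `τ = s'`: `≤ 8 K A² o² L^(1+a+2s) P`.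
* `ang_dir`: first bound: `|dX| ≤ 2 A o (N y)^(a/2) ≤ 2 A o (N y)^(β/2)` on `{1 ≤ N y}`; extend to all `σ`; `ker_full` with `τ = β/2 > s`: `≤ 2 K A o L^(1+a) L^β = 2 K A o L^(1+a+β)`.
* `ang_cb`: `|ψ v' - ψ v| ≤ 2A` and `≤ A (N y)^(s'/2) (1 + ρ^(a-s'))`, so the square is `≤ 4 A² (1 + ρ^(-b')) min (N y) 1 ^ s'`; `ker_min`.
* `ang_ng`: `ker_large` with `u = 1`, as `ang_neg` in H87/PE/AngH.lean.
Integrals of products: `integral_mono_of_nonneg` (as in H87/PE/AngH.lean), so no integrability of the left side is needed; set integrals over a measurable set of a nonnegative function are `≤` the integral of the majorant: `integral_indicator` first.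
-/

set_option autoImplicit false

open MeasureTheory Set Filter Topology Pool.Agent.H25.Kin Pool.Agent.H48.PL
open Pool.Agent.H48.PI (om)
open Pool.Agent.H48.PW (sP Cusp CuspB)
open Pool.Agent.H87.PE

namespace Pool.Agent.H87.PF

variable {d : ℕ} {s a β C Ca : ℝ} {b : ℝ → ℝ}

/-! ### auxiliary lemmas -/

private lemma sP_eq (has : a ≤ 2 * s) : sP s a = s + a / 2 := by
  unfold sP
  exact max_eq_right (by linarith)

private lemma len_rpow_le {x y : Vec d} {t p : ℝ} (ht : 0 ≤ t) (hp : 0 ≤ p)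
    (h : nsq x = nsq y * (t / 2)) : len x ^ p ≤ (nsq y * t) ^ (p / 2) := by
  have hy : 0 ≤ nsq y := sq_nonneg' y
  have h1 : len x ^ p = (nsq y * (t / 2)) ^ (p / 2) := by
    rw [← h, ← len_sq, ← Real.rpow_natCast, ← Real.rpow_mul (len_nonneg x)]
    congr 1
    push_cast
    ring
  rw [h1]
  refine Real.rpow_le_rpow (mul_nonneg hy (by linarith)) ?_ (by linarith)
  exact mul_le_mul_of_nonneg_left (by linarith) hy

private lemma nsq_rpow (x : Vec d) (p : ℝ) : nsq x ^ p = len x ^ (2 * p) := by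
  rw [← len_sq, ← Real.rpow_natCast, ← Real.rpow_mul (len_nonneg x)]
  congr 1

private lemma nsq_symm (x y : Vec d) : nsq (x - y) = nsq (y - x) := by
  rw [← len_sq, ← len_sq]
  have h : len (x - y) = len (y - x) := by
    have e : x - y = -(y - x) := by abel
    rw [e, len_neg]
  rw [h]

private lemma sq_one_add {ρ : ℝ} (hρ : 0 ≤ ρ) :
    (1 + ρ ^ (a - sP s a)) ^ 2 ≤ 2 * (1 + ρ ^ (2 * (a - sP s a))) := by
  have h1 : (ρ ^ (a - sP s a)) ^ 2 = ρ ^ (2 * (a - sP s a)) := by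
    rw [← Real.rpow_natCast, ← Real.rpow_mul hρ]
    congr 1
    push_cast
    ring
  rw [← h1]
  nlinarith [sq_nonneg (1 - ρ ^ (a - sP s a))]

private lemma mul_bd {x A o X Y : ℝ} (hx : |x| ≤ A * (o * (X * Y))) :
    x ^ 2 ≤ A ^ 2 * o ^ 2 * (X ^ 2 * Y ^ 2) := by
  calc x ^ 2 = |x| ^ 2 := (sq_abs x).symm
    _ ≤ (A * (o * (X * Y))) ^ 2 := pow_le_pow_left₀ (abs_nonneg _) hx 2
    _ = _ := by ring

private lemma half_sq {z p : ℝ} (hz : 0 ≤ z) : (z ^ (p / 2)) ^ 2 = z ^ p := by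
  rw [← Real.rpow_natCast, ← Real.rpow_mul hz]
  congr 1
  push_cast
  ring

/-- first bound of one increment -/
private lemma inc1 (E : EP s a β) {v₀ : Vec d} {V₁ A : ℝ} (hV : 1 ≤ V₁) (hA : 0 ≤ A)
    {ψ : Vec d → ℝ} (h : Cusp s a β v₀ V₁ A ψ) {v w x y : Vec d} {t : ℝ} (ht : 0 ≤ t)
    (hx : jb x ≤ RR v w) (hy : jb y ≤ RR v w) (hn : nsq (x - y) = nsq (v - w) * (t / 2)) :
    |ψ x - ψ y| ≤ A * (om β V₁ (RR v w) * (nsq (v - w) * t) ^ (a / 2)) := by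
  refine (h.h1 x y).trans (mul_le_mul_of_nonneg_left ?_ hA)
  have h4 : om β V₁ (max (jb x) (jb y)) ≤ om β V₁ (RR v w) :=
    om_mono' E.hβ1.le hV (zero_le_one.trans ((one_le_jb x).trans (le_max_left _ _)))
      (max_le hx hy)
  exact mul_le_mul h4 (len_rpow_le ht E.ha.le hn) (Real.rpow_nonneg (len_nonneg _) _)
    (om_nn hV (RR_pos v w).le)

/-- second bound of one increment, squared -/
private lemma inc2 (E : EP s a β) {v₀ : Vec d} {V₁ A : ℝ} (hV : 1 ≤ V₁) (hA : 0 ≤ A)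
    {ψ : Vec d → ℝ} (h : Cusp s a β v₀ V₁ A ψ) {v w x y : Vec d} {t : ℝ} (ht : 0 ≤ t)
    (hx : jb x ≤ RR v w) (hy : jb y ≤ RR v w) (hn : nsq (x - y) = nsq (v - w) * (t / 2))
    (hx0 : x ≠ v₀) :
    (ψ x - ψ y) ^ 2 ≤ 2 * A ^ 2 * om β V₁ (RR v w) ^ 2 * ((nsq (v - w) * t) ^ sP s a *
      (1 + len (x - v₀) ^ (2 * (a - sP s a)))) := by
  have hs0 : 0 ≤ sP s a := by linarith [E.s_lt, E.hs]
  have hN : 0 ≤ nsq (v - w) * t := mul_nonneg (sq_nonneg' _) ht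
  have hr : 0 ≤ len (x - v₀) ^ (a - sP s a) := Real.rpow_nonneg (len_nonneg _) _
  have h4 : om β V₁ (max (jb x) (jb y)) ≤ om β V₁ (RR v w) :=
    om_mono' E.hβ1.le hV (zero_le_one.trans ((one_le_jb x).trans (le_max_left _ _)))
      (max_le hx hy)
  have h5 : |ψ x - ψ y| ≤ A * (om β V₁ (RR v w) * ((nsq (v - w) * t) ^ (sP s a / 2) *
      (1 + len (x - v₀) ^ (a - sP s a)))) := by
    refine (h.h2 x y hx0).trans (mul_le_mul_of_nonneg_left ?_ hA)
    refine mul_le_mul h4 ?_ (mul_nonneg (Real.rpow_nonneg (len_nonneg _) _) (by linarith))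
      (om_nn hV (RR_pos v w).le)
    exact mul_le_mul_of_nonneg_right (len_rpow_le ht hs0 hn) (by linarith)
  have h6 := mul_bd h5
  rw [half_sq hN] at h6
  refine h6.trans ?_
  have h7 := sq_one_add (s := s) (a := a) (len_nonneg (x - v₀))
  calc A ^ 2 * om β V₁ (RR v w) ^ 2 * ((nsq (v - w) * t) ^ sP s a *
        (1 + len (x - v₀) ^ (a - sP s a)) ^ 2)
      ≤ A ^ 2 * om β V₁ (RR v w) ^ 2 * ((nsq (v - w) * t) ^ sP s a *
        (2 * (1 + len (x - v₀) ^ (2 * (a - sP s a))))) := by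
        refine mul_le_mul_of_nonneg_left ?_ (by positivity)
        exact mul_le_mul_of_nonneg_left h7 (Real.rpow_nonneg hN _)
    _ = _ := by ring

private lemma pst (v w σ : Vec d) (hvw : v ≠ w) (hσ : nsq σ = 1) :
    nsq (v - post v w σ) = nsq (v - w) * ((1 - cosTh v w σ) / 2) := by
  rw [nsq_symm]
  exact nsq_post_sub hvw hσ

private lemma pst' (v w σ : Vec d) (hvw : v ≠ w) (hσ : nsq σ = 1) :
    nsq (w - post' v w σ) = nsq (v - w) * ((1 - cosTh v w σ) / 2) := by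
  rw [nsq_symm]
  exact nsq_post'_sub hvw hσ

private lemma dX_sq (E : EP s a β) {v₀ : Vec d} {V₁ A : ℝ} (hV : 1 ≤ V₁) (hA : 0 ≤ A)
    {ψ : Vec d → ℝ} (h : Cusp s a β v₀ V₁ A ψ) {v w σ : Vec d} (hvw : v ≠ w)
    (hσ : nsq σ = 1) (hv : v ≠ v₀) (hw : w ≠ v₀) :
    dX ψ (v, w, σ) ^ 2 ≤ 8 * A ^ 2 * om β V₁ (RR v w) ^ 2 *
      (1 + len (v - v₀) ^ (2 * (a - sP s a)) + len (w - v₀) ^ (2 * (a - sP s a))) *
      (nsq (v - w) * (1 - cosTh v w σ)) ^ sP s a := by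
  have hy := one_sub_cosTh_nonneg (v := v) (w := w) hσ
  have e1 := inc2 E hV hA h hy (jb_le_RR_left v w) (jb_post_le (v := v) (w := w) hσ)
    (pst v w σ hvw hσ) hv
  have e2 := inc2 E hV hA h hy (jb_le_RR_right v w) (jb_post'_le (v := v) (w := w) hσ)
    (pst' v w σ hvw hσ) hw
  have hN : 0 ≤ (nsq (v - w) * (1 - cosTh v w σ)) ^ sP s a :=
    Real.rpow_nonneg (mul_nonneg (sq_nonneg' _) hy) _
  have hr : 0 ≤ len (v - v₀) ^ (2 * (a - sP s a)) := Real.rpow_nonneg (len_nonneg _) _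
  have hr2 : 0 ≤ len (w - v₀) ^ (2 * (a - sP s a)) := Real.rpow_nonneg (len_nonneg _) _
  have e3 : dX ψ (v, w, σ) ^ 2 ≤ 2 * (ψ v - ψ (post v w σ)) ^ 2 +
      2 * (ψ w - ψ (post' v w σ)) ^ 2 := by
    have : dX ψ (v, w, σ) = -((ψ v - ψ (post v w σ)) + (ψ w - ψ (post' v w σ))) := by
      unfold dX
      ring
    rw [this]
    nlinarith [sq_nonneg ((ψ v - ψ (post v w σ)) - (ψ w - ψ (post' v w σ)))]
  refine e3.trans ((add_le_add (mul_le_mul_of_nonneg_left e1 zero_le_two)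
    (mul_le_mul_of_nonneg_left e2 zero_le_two)).trans ?_)
  have hQ : 0 ≤ A ^ 2 * om β V₁ (RR v w) ^ 2 * (nsq (v - w) * (1 - cosTh v w σ)) ^ sP s a :=
    mul_nonneg (by positivity) hN
  nlinarith [mul_nonneg hQ hr, mul_nonneg hQ hr2]

private lemma dX_abs (E : EP s a β) {v₀ : Vec d} {V₁ A : ℝ} (hV : 1 ≤ V₁) (hA : 0 ≤ A)
    {ψ : Vec d → ℝ} (h : Cusp s a β v₀ V₁ A ψ) {v w σ : Vec d} (hvw : v ≠ w)
    (hσ : nsq σ = 1) :
    |dX ψ (v, w, σ)| ≤ 2 * A * om β V₁ (RR v w) *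
      (nsq (v - w) * (1 - cosTh v w σ)) ^ (a / 2) := by
  have hy := one_sub_cosTh_nonneg (v := v) (w := w) hσ
  have e1 := inc1 E hV hA h hy (jb_le_RR_left v w) (jb_post_le (v := v) (w := w) hσ)
    (pst v w σ hvw hσ)
  have e2 := inc1 E hV hA h hy (jb_le_RR_right v w) (jb_post'_le (v := v) (w := w) hσ)
    (pst' v w σ hvw hσ)
  have e3 : |dX ψ (v, w, σ)| ≤ |ψ v - ψ (post v w σ)| + |ψ w - ψ (post' v w σ)| := by
    have : dX ψ (v, w, σ) = -((ψ v - ψ (post v w σ)) + (ψ w - ψ (post' v w σ))) := by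
      unfold dX
      ring
    rw [this, abs_neg]
    exact abs_add_le _ _
  refine e3.trans ((add_le_add e1 e2).trans (le_of_eq (by ring)))

private lemma sP_gt (E : EP s a β) : s < sP s a := E.s_lt

private lemma sP_le (E : EP s a β) : sP s a ≤ 1 := E.sP_lt.le

private lemma sP_nn (E : EP s a β) : 0 ≤ sP s a := by
  linarith [sP_gt E, E.hs]

private lemma mSet1 (v w : Vec d) :
    MeasurableSet {σ : Vec d | nsq (v - w) * (1 - cosTh v w σ) < 1} :=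
  measurableSet_lt (measurable_const.mul (measurable_const.sub (measurable_cosTh' v w)))
    measurable_const

private lemma mSet2 (v w : Vec d) :
    MeasurableSet {σ : Vec d | 1 ≤ nsq (v - w) * (1 - cosTh v w σ)} :=
  measurableSet_le measurable_const
    (measurable_const.mul (measurable_const.sub (measurable_cosTh' v w)))

theorem ang_near (H : Hyp d (1 + a) s b C Ca) (E : EP s a β) : ∃ K : ℝ, 0 ≤ K ∧
    ∀ (v₀ : Vec d) (V₁ : ℝ), 1 ≤ V₁ → ∀ A : ℝ, 0 ≤ A → ∀ ψ : Vec d → ℝ, Cusp s a β v₀ V₁ A ψ →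
    ∀ ε : ℝ, 0 < ε → ∀ v w : Vec d, v ≠ w → v ≠ v₀ → w ≠ v₀ →
    ∫ σ, kerB (1 + a) b ε v w σ * dX ψ (v, w, σ) ^ 2 ∂(surf d) ≤
      K * A ^ 2 * om β V₁ (RR v w) ^ 2 * (len (v - w) ^ (1 + a + 2 * s) * len (v - w) ^ (2 * (sP s a - s)) *
        (1 + len (v - v₀) ^ (2 * (a - sP s a)) + len (w - v₀) ^ (2 * (a - sP s a)))) := by
  obtain ⟨K, hK, hk⟩ := ker_full H (sP_gt E) (sP_le E)
  refine ⟨8 * K, by positivity, fun v₀ V₁ hV A hA ψ hψ ε hε v w hvw hv hw => ?_⟩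
  obtain ⟨hi, hb⟩ := hk ε hε v w hvw
  have hL : 0 < len (v - w) := len_sub_pos.2 hvw
  have hr : 0 ≤ len (v - v₀) ^ (2 * (a - sP s a)) := Real.rpow_nonneg (len_nonneg _) _
  have hr2 : 0 ≤ len (w - v₀) ^ (2 * (a - sP s a)) := Real.rpow_nonneg (len_nonneg _) _
  set M : ℝ := 8 * A ^ 2 * om β V₁ (RR v w) ^ 2 *
      (1 + len (v - v₀) ^ (2 * (a - sP s a)) + len (w - v₀) ^ (2 * (a - sP s a))) with hM
  have hM0 : 0 ≤ M := by rw [hM]; positivity
  have hle : ∫ σ, kerB (1 + a) b ε v w σ * dX ψ (v, w, σ) ^ 2 ∂(surf d) ≤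
      ∫ σ, (M * nsq (v - w) ^ sP s a) *
        (kerB (1 + a) b ε v w σ * (1 - cosTh v w σ) ^ sP s a) ∂(surf d) := by
    refine integral_mono_of_nonneg ?_ (hi.const_mul _) ?_
    · filter_upwards [surf_ae] with σ hσ
      exact mul_nonneg (kerB_nonneg (γ := 1 + a) H.bd hε (v := v) (w := w) hσ) (sq_nonneg _)
    · filter_upwards [surf_ae] with σ hσ
      have hk0 := kerB_nonneg (γ := 1 + a) H.bd hε (v := v) (w := w) hσ
      have hy := one_sub_cosTh_nonneg (v := v) (w := w) hσ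
      have h5 := dX_sq E hV hA hψ hvw hσ hv hw
      rw [Real.mul_rpow (sq_nonneg' _) hy, ← hM] at h5
      calc kerB (1 + a) b ε v w σ * dX ψ (v, w, σ) ^ 2
          ≤ kerB (1 + a) b ε v w σ * (M * (nsq (v - w) ^ sP s a * (1 - cosTh v w σ) ^ sP s a)) :=
            mul_le_mul_of_nonneg_left h5 hk0
        _ = _ := by ring
  rw [integral_const_mul] at hle
  refine hle.trans ((mul_le_mul_of_nonneg_left hb
    (mul_nonneg hM0 (Real.rpow_nonneg (sq_nonneg' _) _))).trans (le_of_eq ?_))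
  have e : nsq (v - w) ^ sP s a * len (v - w) ^ (1 + a) =
      len (v - w) ^ (1 + a + 2 * s) * len (v - w) ^ (2 * (sP s a - s)) := by
    rw [nsq_rpow, ← Real.rpow_add hL, ← Real.rpow_add hL]
    congr 1
    ring
  calc M * nsq (v - w) ^ sP s a * (K * len (v - w) ^ (1 + a))
      = M * K * (nsq (v - w) ^ sP s a * len (v - w) ^ (1 + a)) := by ring
    _ = _ := by rw [e, hM]; ring

theorem ang_mid (H : Hyp d (1 + a) s b C Ca) (E : EP s a β) : ∃ K : ℝ, 0 ≤ K ∧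
    ∀ (v₀ : Vec d) (V₁ : ℝ), 1 ≤ V₁ → ∀ A : ℝ, 0 ≤ A → ∀ ψ : Vec d → ℝ, Cusp s a β v₀ V₁ A ψ →
    ∀ ε : ℝ, 0 < ε → ∀ v w : Vec d, v ≠ w → v ≠ v₀ → w ≠ v₀ →
    ∫ σ in {σ : Vec d | nsq (v - w) * (1 - cosTh v w σ) < 1},
        kerB (1 + a) b ε v w σ * dX ψ (v, w, σ) ^ 2 ∂(surf d) ≤
      K * A ^ 2 * om β V₁ (RR v w) ^ 2 * (len (v - w) ^ (1 + a + 2 * s) *
        (1 + len (v - v₀) ^ (2 * (a - sP s a)) + len (w - v₀) ^ (2 * (a - sP s a)))) := by
  obtain ⟨K, hK, hk⟩ := ker_min H (sP_gt E) (sP_le E)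
  refine ⟨8 * K, by positivity, fun v₀ V₁ hV A hA ψ hψ ε hε v w hvw hv hw => ?_⟩
  obtain ⟨hi, hb⟩ := hk ε hε v w hvw
  have hr : 0 ≤ len (v - v₀) ^ (2 * (a - sP s a)) := Real.rpow_nonneg (len_nonneg _) _
  have hr2 : 0 ≤ len (w - v₀) ^ (2 * (a - sP s a)) := Real.rpow_nonneg (len_nonneg _) _
  set M : ℝ := 8 * A ^ 2 * om β V₁ (RR v w) ^ 2 *
      (1 + len (v - v₀) ^ (2 * (a - sP s a)) + len (w - v₀) ^ (2 * (a - sP s a))) with hM
  have hM0 : 0 ≤ M := by rw [hM]; positivity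
  have hnn : ∀ᵐ σ ∂(surf d), 0 ≤ M * (kerB (1 + a) b ε v w σ *
      min (nsq (v - w) * (1 - cosTh v w σ)) 1 ^ sP s a) := by
    filter_upwards [surf_ae] with σ hσ
    have hk0 := kerB_nonneg (γ := 1 + a) H.bd hε (v := v) (w := w) hσ
    have hy := one_sub_cosTh_nonneg (v := v) (w := w) hσ
    exact mul_nonneg hM0 (mul_nonneg hk0 (Real.rpow_nonneg (le_min
      (mul_nonneg (sq_nonneg' _) hy) zero_le_one) _))
  have hle : ∫ σ in {σ : Vec d | nsq (v - w) * (1 - cosTh v w σ) < 1},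
      kerB (1 + a) b ε v w σ * dX ψ (v, w, σ) ^ 2 ∂(surf d) ≤
      ∫ σ in {σ : Vec d | nsq (v - w) * (1 - cosTh v w σ) < 1}, M *
        (kerB (1 + a) b ε v w σ *
          min (nsq (v - w) * (1 - cosTh v w σ)) 1 ^ sP s a) ∂(surf d) := by
    refine integral_mono_of_nonneg ?_ (hi.const_mul _).integrableOn ?_
    · refine ae_restrict_of_ae ?_
      filter_upwards [surf_ae] with σ hσ
      exact mul_nonneg (kerB_nonneg (γ := 1 + a) H.bd hε (v := v) (w := w) hσ) (sq_nonneg _)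
    · refine (ae_restrict_iff' (mSet1 v w)).2 ?_
      filter_upwards [surf_ae] with σ hσ hm
      have hm1 : nsq (v - w) * (1 - cosTh v w σ) < 1 := hm
      have hk0 := kerB_nonneg (γ := 1 + a) H.bd hε (v := v) (w := w) hσ
      have h5 := dX_sq E hV hA hψ hvw hσ hv hw
      rw [← hM] at h5
      show kerB (1 + a) b ε v w σ * dX ψ (v, w, σ) ^ 2 ≤ M * (kerB (1 + a) b ε v w σ *
          min (nsq (v - w) * (1 - cosTh v w σ)) 1 ^ sP s a)
      rw [min_eq_left hm1.le]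
      calc kerB (1 + a) b ε v w σ * dX ψ (v, w, σ) ^ 2
          ≤ kerB (1 + a) b ε v w σ * (M * (nsq (v - w) * (1 - cosTh v w σ)) ^ sP s a) :=
            mul_le_mul_of_nonneg_left h5 hk0
        _ = _ := by ring
  have hle2 := hle.trans (setIntegral_le_integral (hi.const_mul M) hnn)
  rw [integral_const_mul] at hle2
  refine hle2.trans ((mul_le_mul_of_nonneg_left hb hM0).trans (le_of_eq ?_))
  rw [hM]
  ring

theorem ang_dir (H : Hyp d (1 + a) s b C Ca) (E : EP s a β) : ∃ K : ℝ, 0 ≤ K ∧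
    ∀ (v₀ : Vec d) (V₁ : ℝ), 1 ≤ V₁ → ∀ A : ℝ, 0 ≤ A → ∀ ψ : Vec d → ℝ, Cusp s a β v₀ V₁ A ψ →
    ∀ ε : ℝ, 0 < ε → ∀ v w : Vec d, v ≠ w →
    ∫ σ in {σ : Vec d | 1 ≤ nsq (v - w) * (1 - cosTh v w σ)},
        kerB (1 + a) b ε v w σ * |dX ψ (v, w, σ)| ∂(surf d) ≤
      K * A * om β V₁ (RR v w) * len (v - w) ^ (1 + a + β) := by
  obtain ⟨K, hK, hk⟩ := ker_full H (τ := β / 2) (by linarith [E.hβ]) (by linarith [E.hβ1])
  refine ⟨2 * K, by positivity, fun v₀ V₁ hV A hA ψ hψ ε hε v w hvw => ?_⟩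
  obtain ⟨hi, hb⟩ := hk ε hε v w hvw
  have hL : 0 < len (v - w) := len_sub_pos.2 hvw
  have ho : 0 ≤ om β V₁ (RR v w) := om_nn hV (RR_pos v w).le
  set M : ℝ := 2 * A * om β V₁ (RR v w) * nsq (v - w) ^ (β / 2) with hM
  have hN0 : 0 ≤ nsq (v - w) ^ (β / 2) := Real.rpow_nonneg (sq_nonneg' _) _
  have hM0 : 0 ≤ M := by rw [hM]; positivity
  have hnn : ∀ᵐ σ ∂(surf d), 0 ≤ M * (kerB (1 + a) b ε v w σ *
      (1 - cosTh v w σ) ^ (β / 2)) := by
    filter_upwards [surf_ae] with σ hσ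
    have hk0 := kerB_nonneg (γ := 1 + a) H.bd hε (v := v) (w := w) hσ
    have hy := one_sub_cosTh_nonneg (v := v) (w := w) hσ
    exact mul_nonneg hM0 (mul_nonneg hk0 (Real.rpow_nonneg hy _))
  have hle : ∫ σ in {σ : Vec d | 1 ≤ nsq (v - w) * (1 - cosTh v w σ)},
      kerB (1 + a) b ε v w σ * |dX ψ (v, w, σ)| ∂(surf d) ≤
      ∫ σ in {σ : Vec d | 1 ≤ nsq (v - w) * (1 - cosTh v w σ)}, M *
        (kerB (1 + a) b ε v w σ * (1 - cosTh v w σ) ^ (β / 2)) ∂(surf d) := by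
    refine integral_mono_of_nonneg ?_ (hi.const_mul _).integrableOn ?_
    · refine ae_restrict_of_ae ?_
      filter_upwards [surf_ae] with σ hσ
      exact mul_nonneg (kerB_nonneg (γ := 1 + a) H.bd hε (v := v) (w := w) hσ) (abs_nonneg _)
    · refine (ae_restrict_iff' (mSet2 v w)).2 ?_
      filter_upwards [surf_ae] with σ hσ hm
      have hm1 : 1 ≤ nsq (v - w) * (1 - cosTh v w σ) := hm
      have hk0 := kerB_nonneg (γ := 1 + a) H.bd hε (v := v) (w := w) hσ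
      have hy := one_sub_cosTh_nonneg (v := v) (w := w) hσ
      have h5 := dX_abs E hV hA hψ hvw hσ
      have h6 : (nsq (v - w) * (1 - cosTh v w σ)) ^ (a / 2) ≤
          (nsq (v - w) * (1 - cosTh v w σ)) ^ (β / 2) :=
        Real.rpow_le_rpow_of_exponent_le hm1 (by linarith [E.haβ])
      have h7 : |dX ψ (v, w, σ)| ≤ M * (1 - cosTh v w σ) ^ (β / 2) := by
        refine h5.trans ((mul_le_mul_of_nonneg_left h6 (by positivity)).trans (le_of_eq ?_))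
        rw [Real.mul_rpow (sq_nonneg' _) hy, hM]
        ring
      show kerB (1 + a) b ε v w σ * |dX ψ (v, w, σ)| ≤ M * (kerB (1 + a) b ε v w σ *
          (1 - cosTh v w σ) ^ (β / 2))
      calc kerB (1 + a) b ε v w σ * |dX ψ (v, w, σ)|
          ≤ kerB (1 + a) b ε v w σ * (M * (1 - cosTh v w σ) ^ (β / 2)) :=
            mul_le_mul_of_nonneg_left h7 hk0
        _ = _ := by ring
  have hle2 := hle.trans (setIntegral_le_integral (hi.const_mul M) hnn)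
  rw [integral_const_mul] at hle2
  refine hle2.trans ((mul_le_mul_of_nonneg_left hb hM0).trans (le_of_eq ?_))
  have e : nsq (v - w) ^ (β / 2) * len (v - w) ^ (1 + a) = len (v - w) ^ (1 + a + β) := by
    rw [nsq_rpow, ← Real.rpow_add hL]
    congr 1
    ring
  calc M * (K * len (v - w) ^ (1 + a))
      = 2 * A * om β V₁ (RR v w) * K * (nsq (v - w) ^ (β / 2) * len (v - w) ^ (1 + a)) := by
        rw [hM]; ring
    _ = _ := by rw [e]; ring

theorem ang_cb (H : Hyp d (1 + a) s b C Ca) (E : EP s a β) : ∃ K : ℝ, 0 ≤ K ∧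
    ∀ (v₀ : Vec d) (A : ℝ), 0 ≤ A → ∀ ψ : Vec d → ℝ, CuspB s a v₀ A ψ →
    ∀ ε : ℝ, 0 < ε → ∀ v w : Vec d, v ≠ w → v ≠ v₀ →
    ∫ σ, kerB (1 + a) b ε v w σ * (ψ (post v w σ) - ψ v) ^ 2 ∂(surf d) ≤
      K * A ^ 2 * (len (v - w) ^ (1 + a + 2 * s) * (1 + len (v - v₀) ^ (2 * (a - sP s a)))) := by
  obtain ⟨K, hK, hk⟩ := ker_min H (sP_gt E) (sP_le E)
  refine ⟨4 * K, by positivity, fun v₀ A hA ψ hψ ε hε v w hvw hv => ?_⟩
  obtain ⟨hi, hb⟩ := hk ε hε v w hvw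
  have hr : 0 ≤ len (v - v₀) ^ (2 * (a - sP s a)) := Real.rpow_nonneg (len_nonneg _) _
  have hr1 : 0 ≤ len (v - v₀) ^ (a - sP s a) := Real.rpow_nonneg (len_nonneg _) _
  set M : ℝ := 4 * A ^ 2 * (1 + len (v - v₀) ^ (2 * (a - sP s a))) with hM
  have hM0 : 0 ≤ M := by rw [hM]; positivity
  have hle : ∫ σ, kerB (1 + a) b ε v w σ * (ψ (post v w σ) - ψ v) ^ 2 ∂(surf d) ≤
      ∫ σ, M * (kerB (1 + a) b ε v w σ *
          min (nsq (v - w) * (1 - cosTh v w σ)) 1 ^ sP s a) ∂(surf d) := by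
    refine integral_mono_of_nonneg ?_ (hi.const_mul _) ?_
    · filter_upwards [surf_ae] with σ hσ
      exact mul_nonneg (kerB_nonneg (γ := 1 + a) H.bd hε (v := v) (w := w) hσ) (sq_nonneg _)
    · filter_upwards [surf_ae] with σ hσ
      have hk0 := kerB_nonneg (γ := 1 + a) H.bd hε (v := v) (w := w) hσ
      have hy := one_sub_cosTh_nonneg (v := v) (w := w) hσ
      have hN : 0 ≤ nsq (v - w) * (1 - cosTh v w σ) := mul_nonneg (sq_nonneg' _) hy
      have e1 : |ψ v - ψ (post v w σ)| ≤ A * (1 * ((nsq (v - w) * (1 - cosTh v w σ)) ^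
          (sP s a / 2) * (1 + len (v - v₀) ^ (a - sP s a)))) := by
        refine (hψ.h2 v (post v w σ) hv).trans (mul_le_mul_of_nonneg_left ?_ hA)
        rw [one_mul]
        exact mul_le_mul_of_nonneg_right
          (len_rpow_le hy (sP_nn E) (pst v w σ hvw hσ)) (by linarith)
      have e2 := mul_bd e1
      rw [half_sq hN] at e2
      have e3 := sq_one_add (s := s) (a := a) (len_nonneg (v - v₀))
      have e4 : |ψ v - ψ (post v w σ)| ≤ 2 * A := by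
        have h5 := abs_sub (ψ v) (ψ (post v w σ))
        have h6 := hψ.h0 (post v w σ)
        have h7 := hψ.h0 v
        linarith
      have e5 : (ψ v - ψ (post v w σ)) ^ 2 ≤
          M * min (nsq (v - w) * (1 - cosTh v w σ)) 1 ^ sP s a := by
        rcases le_total (nsq (v - w) * (1 - cosTh v w σ)) 1 with h1 | h1
        · rw [min_eq_left h1]
          have hX : 0 ≤ (nsq (v - w) * (1 - cosTh v w σ)) ^ sP s a := Real.rpow_nonneg hN _
          have hAX : 0 ≤ A ^ 2 * (nsq (v - w) * (1 - cosTh v w σ)) ^ sP s a := by positivity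
          calc (ψ v - ψ (post v w σ)) ^ 2
              ≤ A ^ 2 * 1 ^ 2 * ((nsq (v - w) * (1 - cosTh v w σ)) ^ sP s a *
                (1 + len (v - v₀) ^ (a - sP s a)) ^ 2) := e2
            _ = A ^ 2 * (nsq (v - w) * (1 - cosTh v w σ)) ^ sP s a *
                (1 + len (v - v₀) ^ (a - sP s a)) ^ 2 := by ring
            _ ≤ A ^ 2 * (nsq (v - w) * (1 - cosTh v w σ)) ^ sP s a *
                (2 * (1 + len (v - v₀) ^ (2 * (a - sP s a)))) :=
                mul_le_mul_of_nonneg_left e3 hAX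
            _ ≤ A ^ 2 * (nsq (v - w) * (1 - cosTh v w σ)) ^ sP s a *
                (4 * (1 + len (v - v₀) ^ (2 * (a - sP s a)))) :=
                mul_le_mul_of_nonneg_left (by linarith) hAX
            _ = _ := by rw [hM]; ring
        · rw [min_eq_right h1, Real.one_rpow, mul_one, hM]
          calc (ψ v - ψ (post v w σ)) ^ 2 = |ψ v - ψ (post v w σ)| ^ 2 := (sq_abs _).symm
            _ ≤ (2 * A) ^ 2 := pow_le_pow_left₀ (abs_nonneg _) e4 2
            _ = 4 * A ^ 2 * 1 := by ring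
            _ ≤ _ := mul_le_mul_of_nonneg_left (by linarith) (by positivity)
      have e6 : (ψ (post v w σ) - ψ v) ^ 2 = (ψ v - ψ (post v w σ)) ^ 2 := by ring
      show kerB (1 + a) b ε v w σ * (ψ (post v w σ) - ψ v) ^ 2 ≤ M *
          (kerB (1 + a) b ε v w σ * min (nsq (v - w) * (1 - cosTh v w σ)) 1 ^ sP s a)
      rw [e6]
      calc kerB (1 + a) b ε v w σ * (ψ v - ψ (post v w σ)) ^ 2
          ≤ kerB (1 + a) b ε v w σ *
            (M * min (nsq (v - w) * (1 - cosTh v w σ)) 1 ^ sP s a) :=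
            mul_le_mul_of_nonneg_left e5 hk0
        _ = _ := by ring
  rw [integral_const_mul] at hle
  refine hle.trans ((mul_le_mul_of_nonneg_left hb hM0).trans (le_of_eq ?_))
  rw [hM]
  ring

theorem ang_ng (H : Hyp d (1 + a) s b C Ca) : ∃ K : ℝ, 0 ≤ K ∧
    ∀ ε : ℝ, 0 < ε → ∀ v w : Vec d, v ≠ w →
    ∫ σ in {σ : Vec d | cosTh v w σ < 0}, kerB (1 + a) b ε v w σ ∂(surf d) ≤
      K * len (v - w) ^ (1 + a) := by
  obtain ⟨A, hA, hk⟩ := ker_large H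
  refine ⟨A, hA, fun ε hε v w hvw => ?_⟩
  obtain ⟨hi, hb⟩ := hk ε hε v w hvw 1 one_pos
  have hsub : {σ : Vec d | cosTh v w σ < 0} ⊆ {σ : Vec d | 1 ≤ 1 - cosTh v w σ} := by
    intro σ hσ
    have h5 : cosTh v w σ < 0 := hσ
    show 1 ≤ 1 - cosTh v w σ
    linarith
  have h6 : ∫ σ in {σ : Vec d | cosTh v w σ < 0}, kerB (1 + a) b ε v w σ ∂(surf d) ≤
      ∫ σ in {σ : Vec d | 1 ≤ 1 - cosTh v w σ}, kerB (1 + a) b ε v w σ ∂(surf d) := by
    refine setIntegral_mono_set hi ?_ (Eventually.of_forall hsub)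
    have h7 : ∀ᵐ σ ∂(surf d), 0 ≤ kerB (1 + a) b ε v w σ := by
      filter_upwards [surf_ae] with σ hσ
      exact kerB_nonneg (γ := 1 + a) H.bd hε (v := v) (w := w) hσ
    exact ae_restrict_of_ae h7
  rw [Real.one_rpow, mul_one] at hb
  exact h6.trans hb

end Pool.Agent.H87.PF
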