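import Pool.Agent.H87.PF.Defs

/-!
# Module Base: lemmas used by all modules (complete)
-/

set_option autoImplicit false

open MeasureTheory Set Filter Topology Pool.Agent.H25.Kin Pool.Agent.H48.PL
open Pool.Agent.H48.PI (om)
open Pool.Agent.H48.PW (sP Cusp CuspB)
open Pool.Agent.H87.PE

namespace Pool.Agent.H87.PF

variable {d : ℕ} {s a β C Ca : ℝ} {b : ℝ → ℝ}

/-! ### exponents -/

lemma EP.β0 (E : EP s a β) : 0 < β := by linarith [E.hs, E.hβ]
lemma EP.a1 (E : EP s a β) : a < 1 := by linarith [E.haβ, E.hβ1]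

/-- `s' = s + a/2` if `a ≤ 2s` -/
lemma sP_small (h : a ≤ 2 * s) : sP s a = s + a / 2 := max_eq_right (by linarith)

/-- the exponent of the cusp if `a ≤ 2s` -/
lemma sP_exp (h : a ≤ 2 * s) : 2 * (a - sP s a) = -(2 * s - a) := by
  rw [sP_small h]; ring

/-- `s' = a` if `2s ≤ a` -/
lemma sP_large (h : 2 * s ≤ a) : sP s a = a := max_eq_left (by linarith)

lemma a_le_sP (s a : ℝ) : a ≤ sP s a := le_max_left _ _

lemma EP.s_lt (E : EP s a β) : s < sP s a := by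
  have h : s + a / 2 ≤ sP s a := le_max_right _ _
  linarith [E.ha]

lemma EP.sP_lt (E : EP s a β) : sP s a < 1 :=
  max_lt E.a1 (by linarith [E.hβ, E.haβ, E.hβ1])

/-- `-1 < -b' ≤ 0` -/
lemma EP.b0 (E : EP s a β) : 2 * (a - sP s a) ≤ 0 := by linarith [a_le_sP s a]
lemma EP.b1 (E : EP s a β) : -1 < 2 * (a - sP s a) := by
  rcases le_total a (2 * s) with h | h
  · rw [sP_exp h]; linarith [E.ha, E.hβ, E.hβ1]
  · rw [sP_large h]; linarith

/-- `0 ≤ 2(s'-s) ≤ 2` -/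
lemma EP.d0 (E : EP s a β) : 0 ≤ 2 * (sP s a - s) := by linarith [E.s_lt]
lemma EP.d2 (E : EP s a β) : 2 * (sP s a - s) ≤ 2 := by linarith [E.sP_lt, E.hs]

/-! ### the weight `om` -/

lemma om_nn {V R : ℝ} (hV : 1 ≤ V) (hR : 0 ≤ R) : 0 ≤ om β V R :=
  Real.rpow_nonneg (le_min zero_le_one (div_nonneg hR (by linarith))) _

lemma om_le1 (hβ : β ≤ 1) {V R : ℝ} (hV : 1 ≤ V) (hR : 0 ≤ R) : om β V R ≤ 1 :=
  Real.rpow_le_one (le_min zero_le_one (div_nonneg hR (by linarith))) (min_le_left _ _)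
    (by linarith)

lemma om_mono' (hβ : β ≤ 1) {V : ℝ} (hV : 1 ≤ V) {x y : ℝ} (hx : 0 ≤ x) (hxy : x ≤ y) :
    om β V x ≤ om β V y := by
  unfold om
  refine Real.rpow_le_rpow (le_min zero_le_one (div_nonneg hx (by linarith))) ?_ (by linarith)
  exact min_le_min le_rfl (div_le_div_of_nonneg_right hxy (by linarith))

/-- `om_V(R) ≤ om_{max(V,R₁)}(R)` for `R > R₁` -/
lemma om_max' (hβ : β ≤ 1) {V R₁ R : ℝ} (hV : 1 ≤ V) (hR₁ : 1 ≤ R₁) (hR : R₁ < R) :
    om β V R ≤ om β (max V R₁) R := by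
  rcases le_total R₁ V with h | h
  · rw [max_eq_left h]
  · rw [max_eq_right h]
    have h1 : om β R₁ R = 1 := by
      unfold om
      rw [min_eq_left ((one_le_div (by linarith)).2 hR.le), Real.one_rpow]
    rw [h1]
    exact om_le1 hβ hV (by linarith)

lemma om_cont' (hβ : β ≤ 1) (V : ℝ) : Continuous fun R : ℝ => om β V R := by
  unfold om
  exact (continuous_const.min (continuous_id.div_const V)).rpow_const fun _ => Or.inr (by linarith)

/-- `om_1(R) = 1` for `R ≥ 1` -/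
lemma om_one {R : ℝ} (hR : 1 ≤ R) : om β 1 R = 1 := by
  unfold om
  rw [div_one, min_eq_left hR, Real.one_rpow]

lemma om_RR (hβ : β ≤ 1) {V : ℝ} (hV : 1 ≤ V) (v w : Vec d) :
    0 ≤ om β V (RR v w) ∧ om β V (RR v w) ≤ 1 :=
  ⟨om_nn hV (RR_pos v w).le, om_le1 hβ hV (RR_pos v w).le⟩

/-! ### lengths -/

lemma len_pos' {x : Vec d} : 0 < len x ↔ x ≠ 0 := by
  refine ⟨fun h h0 => ?_, len_pos⟩
  rw [h0, len_zero] at h
  exact lt_irrefl _ h

lemma len_sub_pos {x y : Vec d} : 0 < len (x - y) ↔ x ≠ y := by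
  rw [len_pos', sub_ne_zero]

lemma len_le_two (v w : Vec d) : len (v - w) ≤ 2 * RR v w := len_le_RR v w

/-! ### measurability -/

lemma m_len (v₀ : Vec d) : Measurable fun p : Vec d × Vec d × Vec d => len (p.1 - v₀) :=
  (continuous_len.comp (by fun_prop : Continuous fun p : Vec d × Vec d × Vec d =>
    p.1 - v₀)).measurable

lemma m_nsq0 (v₀ : Vec d) : Measurable fun p : Vec d × Vec d × Vec d => nsq (p.1 - v₀) :=
  (continuous_sq.comp (by fun_prop : Continuous fun p : Vec d × Vec d × Vec d =>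
    p.1 - v₀)).measurable

lemma m_lenV : Measurable fun p : Vec d × Vec d × Vec d => len (p.1 - p.2.1) :=
  (continuous_len.comp (by fun_prop : Continuous fun p : Vec d × Vec d × Vec d =>
    p.1 - p.2.1)).measurable

lemma m_nsqV : Measurable fun p : Vec d × Vec d × Vec d => nsq (p.1 - p.2.1) :=
  (continuous_sq.comp (by fun_prop : Continuous fun p : Vec d × Vec d × Vec d =>
    p.1 - p.2.1)).measurable

lemma m_RR : Measurable fun p : Vec d × Vec d × Vec d => RR p.1 p.2.1 :=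
  (RR_cont.comp (by fun_prop : Continuous fun p : Vec d × Vec d × Vec d =>
    ((p.1, p.2.1) : Vec d × Vec d))).measurable

lemma m_ang : Measurable fun p : Vec d × Vec d × Vec d =>
    nsq (p.1 - p.2.1) * (1 - cosTh p.1 p.2.1 p.2.2) :=
  m_nsqV.mul (measurable_const.sub measurable_cosTh)

lemma m_len2 (v₀ : Vec d) : Measurable fun q : Vec d × Vec d => len (q.1 - v₀) :=
  (continuous_len.comp (by fun_prop : Continuous fun q : Vec d × Vec d => q.1 - v₀)).measurable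

lemma m_nsq2 (v₀ : Vec d) : Measurable fun q : Vec d × Vec d => nsq (q.1 - v₀) :=
  (continuous_sq.comp (by fun_prop : Continuous fun q : Vec d × Vec d => q.1 - v₀)).measurable

lemma m_lenV2 : Measurable fun q : Vec d × Vec d => len (q.1 - q.2) :=
  (continuous_len.comp (by fun_prop : Continuous fun q : Vec d × Vec d => q.1 - q.2)).measurable

lemma m_nsqV2 : Measurable fun q : Vec d × Vec d => nsq (q.1 - q.2) :=
  (continuous_sq.comp (by fun_prop : Continuous fun q : Vec d × Vec d => q.1 - q.2)).measurable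

lemma wN_meas (hβ : β ≤ 1) (a V : ℝ) : Measurable fun q : Vec d × Vec d => wN a β V q := by
  unfold wN
  exact ((m_lenV2.pow_const _).mul (measurable_const.add (m_lenV2.pow_const _))).mul
    ((om_cont' hβ V).comp RR_cont).measurable

lemma wS_meas (hβ : β ≤ 1) (s a V : ℝ) (v₀ : Vec d) :
    Measurable fun q : Vec d × Vec d => wS s a β V v₀ q := by
  unfold wS
  exact ((m_lenV2.pow_const _).mul ((m_len2 v₀).pow_const _)).mul
    ((om_cont' hβ V).comp RR_cont).measurable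

lemma WA_meas (hβ : β ≤ 1) (a V : ℝ) (v₀ : Vec d) : Measurable (WA (d := d) a β V v₀) := by
  unfold WA
  exact ((m_len v₀).pow_const _).mul ((om_cont' hβ V).measurable.comp m_RR)

lemma AnnS_meas (Λ t : ℝ) (v₀ : Vec d) : MeasurableSet (AnnS Λ t v₀) := by
  have h1 : MeasurableSet {p : Vec d × Vec d × Vec d | 0 < len (p.1 - v₀)} :=
    measurableSet_lt measurable_const (m_len v₀)
  have h2 : MeasurableSet {p : Vec d × Vec d × Vec d | len (p.1 - v₀) ≤ 1} :=
    measurableSet_le (m_len v₀) measurable_const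
  have h3 : MeasurableSet {p : Vec d × Vec d × Vec d |
      12 * Λ * len (p.1 - v₀) ≤ len (p.1 - p.2.1)} :=
    measurableSet_le ((m_len v₀).const_mul _) m_lenV
  have h4 : MeasurableSet {p : Vec d × Vec d × Vec d |
      t * nsq (p.1 - p.2.1) ≤ 2 * Λ ^ 2 * nsq (p.1 - v₀)} :=
    measurableSet_le (m_nsqV.const_mul _) ((m_nsq0 v₀).const_mul _)
  have h5 : MeasurableSet {p : Vec d × Vec d × Vec d |
      2 * Λ ^ 2 * nsq (p.1 - v₀) ≤ nsq (p.1 - p.2.1) * (1 - cosTh p.1 p.2.1 p.2.2)} :=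
    measurableSet_le ((m_nsq0 v₀).const_mul _) m_ang
  have h6 : MeasurableSet {p : Vec d × Vec d × Vec d |
      nsq (p.1 - p.2.1) * (1 - cosTh p.1 p.2.1 p.2.2) ≤ 32 * (2 * Λ ^ 2 * nsq (p.1 - v₀))} :=
    measurableSet_le m_ang (((m_nsq0 v₀).const_mul _).const_mul _)
  exact h1.inter (h2.inter (h3.inter (h4.inter (h5.inter h6))))

lemma PrN_meas (Λ t : ℝ) (v₀ : Vec d) : MeasurableSet (PrN Λ t v₀) := by
  have h1 : MeasurableSet {q : Vec d × Vec d | 0 < len (q.1 - v₀)} :=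
    measurableSet_lt measurable_const (m_len2 v₀)
  have h2 : MeasurableSet {q : Vec d × Vec d | len (q.1 - v₀) ≤ 1} :=
    measurableSet_le (m_len2 v₀) measurable_const
  have h3 : MeasurableSet {q : Vec d × Vec d | 12 * Λ * len (q.1 - v₀) ≤ len (q.1 - q.2)} :=
    measurableSet_le ((m_len2 v₀).const_mul _) m_lenV2
  have h4 : MeasurableSet {q : Vec d × Vec d |
      t * nsq (q.1 - q.2) ≤ 2 * Λ ^ 2 * nsq (q.1 - v₀)} :=
    measurableSet_le (m_nsqV2.const_mul _) ((m_nsq2 v₀).const_mul _)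
  exact h1.inter (h2.inter (h3.inter h4))

lemma PrS_meas (Λ t : ℝ) (v₀ : Vec d) : MeasurableSet (PrS Λ t v₀) := by
  have h1 : MeasurableSet {q : Vec d × Vec d | 0 < len (q.1 - v₀)} :=
    measurableSet_lt measurable_const (m_len2 v₀)
  have h4 : MeasurableSet {q : Vec d × Vec d |
      t * nsq (q.1 - q.2) ≤ 2 * Λ ^ 2 * nsq (q.1 - v₀)} :=
    measurableSet_le (m_nsqV2.const_mul _) ((m_nsq2 v₀).const_mul _)
  exact h1.inter h4

lemma Sn_meas (R₁ : ℝ) : MeasurableSet (Sn d R₁) := measurableSet_le m_RR measurable_const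

lemma Sm_meas (R₁ : ℝ) : MeasurableSet (Sm d R₁) :=
  (measurableSet_lt measurable_const m_RR).inter (measurableSet_lt m_ang measurable_const)

lemma Sd_meas (R₁ : ℝ) : MeasurableSet (Sd d R₁) :=
  (measurableSet_lt measurable_const m_RR).inter (measurableSet_le measurable_const m_ang)

/-! ### collisions -/

lemma RR_coll {v w σ : Vec d} (hσ : nsq σ = 1) :
    RR (coll (v, w, σ)).1 (coll (v, w, σ)).2.1 = RR v w := RR_post hσ

lemma nsq_coll {v w σ : Vec d} (hσ : nsq σ = 1) :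
    nsq ((coll (v, w, σ)).1 - (coll (v, w, σ)).2.1) = nsq (v - w) := by
  have h := len_post (v := v) (w := w) hσ
  show nsq (post v w σ - post' v w σ) = nsq (v - w)
  rw [← len_sq, ← len_sq, h]

lemma cosTh_coll {v w σ : Vec d} (h : v ≠ w) (hσ : nsq σ = 1) :
    cosTh (coll (v, w, σ)).1 (coll (v, w, σ)).2.1 (coll (v, w, σ)).2.2 = cosTh v w σ :=
  cosTh_post h hσ

lemma coll_coll {v w σ : Vec d} (h : v ≠ w) (hσ : nsq σ = 1) :
    coll (coll (v, w, σ)) = (v, w, σ) := by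
  show (post (post v w σ) (post' v w σ) (dirk v w), post' (post v w σ) (post' v w σ) (dirk v w),
    dirk (post v w σ) (post' v w σ)) = (v, w, σ)
  rw [post_post h hσ, post'_post h hσ, dirk_post h hσ]

lemma Sn_coll (R₁ : ℝ) {v w σ : Vec d} (_ : v ≠ w) (hσ : nsq σ = 1) :
    coll (v, w, σ) ∈ Sn d R₁ ↔ (v, w, σ) ∈ Sn d R₁ := by
  show RR (coll (v, w, σ)).1 (coll (v, w, σ)).2.1 ≤ R₁ ↔ RR v w ≤ R₁
  rw [RR_coll hσ]

lemma Sm_coll (R₁ : ℝ) {v w σ : Vec d} (h : v ≠ w) (hσ : nsq σ = 1) :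
    coll (v, w, σ) ∈ Sm d R₁ ↔ (v, w, σ) ∈ Sm d R₁ := by
  show (R₁ < RR (coll (v, w, σ)).1 (coll (v, w, σ)).2.1 ∧
    nsq ((coll (v, w, σ)).1 - (coll (v, w, σ)).2.1) *
      (1 - cosTh (coll (v, w, σ)).1 (coll (v, w, σ)).2.1 (coll (v, w, σ)).2.2) < 1) ↔
    (R₁ < RR v w ∧ nsq (v - w) * (1 - cosTh v w σ) < 1)
  rw [RR_coll hσ, nsq_coll hσ, cosTh_coll h hσ]

/-- the three sets cover the collisions -/
lemma S_split {R₁ : ℝ} {F : Vec d × Vec d × Vec d → ℝ} (hF : Integrable F (mu3 d)) :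
    ∫ p, F p ∂(mu3 d) = (∫ p in Sn d R₁, F p ∂(mu3 d)) + (∫ p in Sm d R₁, F p ∂(mu3 d)) +
      ∫ p in Sd d R₁, F p ∂(mu3 d) := by
  have h1 : (Sn d R₁)ᶜ = Sm d R₁ ∪ Sd d R₁ := by
    ext p
    simp only [Sn, Sm, Sd, mem_compl_iff, mem_ofPred_eq, mem_union, not_le]
    constructor
    · intro h
      rcases lt_or_ge (nsq (p.1 - p.2.1) * (1 - cosTh p.1 p.2.1 p.2.2)) 1 with h2 | h2
      · exact Or.inl ⟨h, h2⟩
      · exact Or.inr ⟨h, h2⟩
    · rintro (h | h) <;> exact h.1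
  have h2 : Disjoint (Sm d R₁) (Sd d R₁) := by
    rw [Set.disjoint_left]
    intro p hp hq
    exact absurd hp.2 (not_lt.2 hq.2)
  rw [← integral_add_compl (Sn_meas R₁) hF, h1,
    setIntegral_union h2 (Sd_meas R₁) hF.integrableOn hF.integrableOn, add_assoc]

/-! ### Fubini -/

lemma fub (H : Hyp d (1 + a) s b C Ca) {ε : ℝ} (hε : 0 < ε) {G : Vec d → ℝ} (hG : RD G)
    (hGc : Continuous G) {X : Vec d × Vec d × Vec d → ℝ} (hX : Measurable X) (hB : PB X)
    {S : Set (Vec d × Vec d × Vec d)} (hS : MeasurableSet S) :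
    Integrable (fun q : Vec d × Vec d => G q.1 * G q.2 *
      ∫ σ in {σ : Vec d | (q.1, q.2, σ) ∈ S},
        kerB (1 + a) b ε q.1 q.2 σ * X (q.1, q.2, σ) ∂(surf d)) ∧
    ∫ p in S, kx (1 + a) b ε G p * X p ∂(mu3 d) =
      ∫ q : Vec d × Vec d, G q.1 * G q.2 *
        ∫ σ in {σ : Vec d | (q.1, q.2, σ) ∈ S}, kerB (1 + a) b ε q.1 q.2 σ * X (q.1, q.2, σ)
          ∂(surf d) := by
  have i := (kx_int H hε hG hGc hX hB).indicator hS
  have h3 : MeasurePreserving (MeasurableEquiv.prodAssoc (α := Vec d) (β := Vec d) (γ := Vec d))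
      (((volume : Measure (Vec d)).prod volume).prod (surf d)) (mu3 d) :=
    measurePreserving_prodAssoc _ _ _
  have i2 := h3.integrable_comp_of_integrable i
  have e0 := h3.integral_comp' (S.indicator fun p : Vec d × Vec d × Vec d =>
    kx (1 + a) b ε G p * X p)
  have ei : (fun q : Vec d × Vec d => ∫ σ, ((S.indicator fun p : Vec d × Vec d × Vec d =>
      kx (1 + a) b ε G p * X p) ∘
      (MeasurableEquiv.prodAssoc (α := Vec d) (β := Vec d) (γ := Vec d))) (q, σ) ∂(surf d)) =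
      fun q : Vec d × Vec d => G q.1 * G q.2 *
        ∫ σ in {σ : Vec d | (q.1, q.2, σ) ∈ S}, kerB (1 + a) b ε q.1 q.2 σ * X (q.1, q.2, σ)
          ∂(surf d) := by
    funext q
    have hSq : MeasurableSet {σ : Vec d | (q.1, q.2, σ) ∈ S} :=
      (measurable_const.prodMk (measurable_const.prodMk measurable_id)) hS
    rw [← integral_const_mul, ← integral_indicator hSq]
    refine integral_congr_ae (Eventually.of_forall fun σ => ?_)
    change S.indicator (fun p : Vec d × Vec d × Vec d => kx (1 + a) b ε G p * X p)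
      (q.1, q.2, σ) = {σ : Vec d | (q.1, q.2, σ) ∈ S}.indicator
        (fun σ => G q.1 * G q.2 * (kerB (1 + a) b ε q.1 q.2 σ * X (q.1, q.2, σ))) σ
    by_cases hm : (q.1, q.2, σ) ∈ S
    · rw [indicator_of_mem hm, indicator_of_mem (show σ ∈ {σ : Vec d | (q.1, q.2, σ) ∈ S} from hm)]
      unfold kx
      ring
    · rw [indicator_of_notMem hm,
        indicator_of_notMem (show σ ∉ {σ : Vec d | (q.1, q.2, σ) ∈ S} from hm)]
  have i3 := i2.integral_prod_left
  have e2 := integral_prod _ i2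
  rw [ei] at i3 e2
  refine ⟨i3, ?_⟩
  rw [← integral_indicator hS]
  exact e0.symm.trans e2

/-- almost every pair has `v ≠ w`, `v ≠ v₀`, `w ≠ v₀` -/
lemma ae_off (hd : 1 ≤ d) (v₀ : Vec d) : ∀ᵐ q ∂(volume : Measure (Vec d × Vec d)),
    q.1 ≠ q.2 ∧ q.1 ≠ v₀ ∧ q.2 ≠ v₀ := by
  have hne : Nonempty (Fin d) := ⟨⟨0, by omega⟩⟩
  have hs : MeasurableSet {q : Vec d × Vec d | q.1 ≠ q.2 ∧ q.1 ≠ v₀ ∧ q.2 ≠ v₀} :=
    (isClosed_eq continuous_fst continuous_snd).measurableSet.compl.inter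
      ((isClosed_eq continuous_fst continuous_const).measurableSet.compl.inter
        (isClosed_eq continuous_snd continuous_const).measurableSet.compl)
  have h0 : (volume : Measure (Vec d)) {v₀} = 0 := measure_singleton v₀
  refine (Measure.ae_prod_iff_ae_ae hs).2 ?_
  filter_upwards [compl_mem_ae_iff.2 h0] with v hv
  have : (volume : Measure (Vec d)) {v} = 0 := measure_singleton v
  filter_upwards [compl_mem_ae_iff.2 this, compl_mem_ae_iff.2 h0] with w hw hw0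
  exact ⟨fun h => hw h.symm, fun h => hv h, fun h => hw0 h⟩

/-- an upper bound of a collision integral by an integral over the pairs -/
lemma maj (H : Hyp d (1 + a) s b C Ca) {ε : ℝ} (hε : 0 < ε) {G : Vec d → ℝ} (hG : RD G)
    (hGc : Continuous G) {X : Vec d × Vec d × Vec d → ℝ} (hX : Measurable X) (hB : PB X)
    {S : Set (Vec d × Vec d × Vec d)} (hS : MeasurableSet S) (v₀ : Vec d) {M : Vec d × Vec d → ℝ}
    (hM : Integrable M) (hle : ∀ v w : Vec d, v ≠ w → v ≠ v₀ → w ≠ v₀ → G v * G w *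
      ∫ σ in {σ : Vec d | (v, w, σ) ∈ S}, kerB (1 + a) b ε v w σ * X (v, w, σ) ∂(surf d) ≤
        M (v, w)) :
    ∫ p in S, kx (1 + a) b ε G p * X p ∂(mu3 d) ≤ ∫ q, M q := by
  obtain ⟨i1, e1⟩ := fub H hε hG hGc hX hB hS
  rw [e1]
  refine integral_mono_ae i1 hM ?_
  filter_upwards [ae_off H.hd1 v₀] with q hq
  exact hle q.1 q.2 hq.1 hq.2.1 hq.2.2

/-! ### test functions -/

lemma cu_hol {v₀ : Vec d} {V₁ A : ℝ} {ψ : Vec d → ℝ} (h : Cusp s a β v₀ V₁ A ψ) :
    Hol a (om β V₁) A ψ := h.h1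

lemma cu_cont (E : EP s a β) {v₀ : Vec d} {V₁ A : ℝ} (hV : 1 ≤ V₁) (hA : 0 ≤ A) {ψ : Vec d → ℝ}
    (h : Cusp s a β v₀ V₁ A ψ) : Continuous ψ :=
  hol_cont E.ha (fun _ hx => om_le1 E.hβ1.le hV (by linarith)) hA (cu_hol h)

lemma cu_PG (E : EP s a β) {v₀ : Vec d} {V₁ A : ℝ} (hV : 1 ≤ V₁) (hA : 0 ≤ A) {ψ : Vec d → ℝ}
    (h : Cusp s a β v₀ V₁ A ψ) : PG ψ :=
  hol_PG E.ha E.a1.le (fun _ hx => om_le1 E.hβ1.le hV (by linarith)) hA (cu_hol h)

lemma cu_lin (E : EP s a β) {v₀ : Vec d} {V₁ A : ℝ} (hV : 1 ≤ V₁) (hA : 0 ≤ A) {ψ : Vec d → ℝ}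
    (h : Cusp s a β v₀ V₁ A ψ) (v : Vec d) :
    |ψ v - ψ 0| ≤ A * ((d : ℝ) + 1) * (1 + ‖v‖) :=
  hol_lin E.ha E.a1.le (fun _ hx => om_le1 E.hβ1.le hV (by linarith)) hA (cu_hol h) v

/-- the weak form at the cut-off level -/
lemma weak_c (H : Hyp d (1 + a) s b C Ca) {ε : ℝ} (hε : 0 < ε) {G : Vec d → ℝ} (hG : RD G)
    (hGc : Continuous G) {φ : Vec d → ℝ} (hφ : PG φ) (hφm : Measurable φ) :
    ∫ v, boltzCut (1 + a) b ε G v * φ v =
      (1 / 2) * ∫ p, kx (1 + a) b ε G p * dX φ p ∂(mu3 d) :=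
  weak_cut H.hd H.g1 H.g2 H.bm H.bd H.β0 hε hG hGc hφ hφm

end Pool.Agent.H87.PF
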