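import Pool.Agent.H87.PF.IntC

/-!
# Module CutC: a cusp test function at the cut-off level

As `eh_cut` in H87/PE/Hold.lean. `2 ∫ Q_ε(G) ψ = ∫ kx dX ψ` (`weak_c`; `cu_cont`, `cu_PG`), integrable (`kx_int`, `dX_meas`, `dX_PB`), `= ∫_{Sn} + ∫_{Sm} + ∫_{Sd}` (`S_split`).
`Sn`: `cs_cut` with `lam`: `≤ (1/lam) Pc + (lam/4) ∫_{Sn} kx dX²`, `int_nr`. `Sm`: `cs_cut` with `1`: `≤ Pc + (1/4) ∫_{Sm} kx dX²`, `int_md`. `Sd`: `int_dr`. Invariance of the sets: `Sn_coll`, `Sm_coll`. `K` = sum of the three constants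
(`XN, SS, Pc ≥ 0`: `XN_nonneg`, `SS_nonneg`, `Pc_nonneg`).
-/

set_option autoImplicit false

open MeasureTheory Set Filter Topology Pool.Agent.H25.Kin Pool.Agent.H48.PL
open Pool.Agent.H48.PI (om)
open Pool.Agent.H48.PW (sP Cusp CuspB)
open Pool.Agent.H87.PE

namespace Pool.Agent.H87.PF

variable {d : ℕ} {s a β C Ca : ℝ} {b : ℝ → ℝ}

theorem cusp_cut (H : Hyp d (1 + a) s b C Ca) (E : EP s a β) : ∃ K : ℝ, 0 ≤ K ∧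
    ∀ R₁ : ℝ, 1 ≤ R₁ → ∀ lam : ℝ, 0 < lam → ∀ G : Vec d → ℝ, Gd G → ∀ ε : ℝ, 0 < ε →
    ∀ V₁ : ℝ, 1 ≤ V₁ → ∀ A : ℝ, 0 ≤ A → ∀ (v₀ : Vec d) (ψ : Vec d → ℝ), Cusp s a β v₀ V₁ A ψ →
    2 * |∫ v, boltzCut (1 + a) b ε G v * ψ v| ≤ (1 / lam + 1) * Pc (1 + a) b ε G +
      lam * K * A ^ 2 * (R₁ ^ 2 * om β V₁ R₁ ^ 2) * (XN a β 1 G + SS s a β 1 v₀ G) +
      K * (A + A ^ 2) * (XN a β (max V₁ R₁) G + SS s a β (max V₁ R₁) v₀ G) := by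
  obtain ⟨K₁, hK₁, hnr⟩ := int_nr H E
  obtain ⟨K₂, hK₂, hmd⟩ := int_md H E
  obtain ⟨K₃, hK₃, hdr⟩ := int_dr H E
  refine ⟨K₁ + K₂ + K₃, by positivity, ?_⟩
  intro R₁ hR₁ lam hl G hG ε hε V₁ hV₁ A hA v₀ ψ hψ
  have hG0 : ∀ v, 0 ≤ G v := fun v => (hG.pos v).le
  have hPG := cu_PG E hV₁ hA hψ
  have hm := hψ.meas
  have hi : Integrable (fun p => kx (1 + a) b ε G p * dX ψ p) (mu3 d) :=
    kx_int H hε hG.rd hG.cont (dX_meas hm) (dX_PB hPG)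
  have hw := weak_c H hε hG.rd hG.cont hPG hm
  rw [S_split (R₁ := R₁) hi] at hw
  have a1 := cs_cut H hε hG hPG hm (Sn_meas R₁) (fun v w σ h hσ => Sn_coll R₁ h hσ) hl
  have a2 := cs_cut H hε hG hPG hm (Sm_meas R₁) (fun v w σ h hσ => Sm_coll R₁ h hσ) one_pos
  have a3 := hdr G hG.rd hG.cont hG0 ε hε V₁ hV₁ R₁ hR₁ A hA v₀ ψ hψ
  have c1 := hnr G hG.rd hG.cont hG0 ε hε V₁ hV₁ R₁ hR₁ A hA v₀ ψ hψ
  have c2 := hmd G hG.rd hG.cont hG0 ε hε V₁ hV₁ R₁ hR₁ A hA v₀ ψ hψ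
  have hmx : 1 ≤ max V₁ R₁ := hV₁.trans (le_max_left _ _)
  have n1 : 0 ≤ XN a β 1 G + SS s a β 1 v₀ G :=
    add_nonneg (XN_nonneg hG0 le_rfl) (SS_nonneg hG0 le_rfl v₀)
  have n2 := XN_nonneg (a := a) (β := β) hG0 hmx
  have n3 := SS_nonneg (s := s) (a := a) (β := β) hG0 hmx v₀
  generalize XN a β 1 G + SS s a β 1 v₀ G = X₁ at c1 n1 ⊢
  generalize XN a β (max V₁ R₁) G = Y at a3 c2 n2 ⊢
  generalize SS s a β (max V₁ R₁) v₀ G = Z at c2 n3 ⊢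
  have hT : 0 ≤ R₁ ^ 2 * om β V₁ R₁ ^ 2 := by positivity
  generalize R₁ ^ 2 * om β V₁ R₁ ^ 2 = T at c1 hT ⊢
  have b1 : (lam / 4) * (K₁ * A ^ 2 * T * X₁) ≤ lam * (K₁ + K₂ + K₃) * A ^ 2 * T * X₁ := by
    have e1 : (lam / 4) * (K₁ * A ^ 2 * T * X₁) = (lam * K₁ / 4) * (A ^ 2 * T * X₁) := by ring
    have e2 : lam * (K₁ + K₂ + K₃) * A ^ 2 * T * X₁ =
        (lam * K₁ + lam * K₂ + lam * K₃) * (A ^ 2 * T * X₁) := by ring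
    rw [e1, e2]
    refine mul_le_mul_of_nonneg_right ?_ (by positivity)
    have f1 : 0 ≤ lam * K₁ := by positivity
    have f2 : 0 ≤ lam * K₂ := by positivity
    have f3 : 0 ≤ lam * K₃ := by positivity
    linarith
  have b2 : (1 / 4) * (K₂ * A ^ 2 * (Y + Z)) + K₃ * A * Y ≤
      (K₁ + K₂ + K₃) * (A + A ^ 2) * (Y + Z) := by
    have f1 : 0 ≤ K₁ * (A + A ^ 2) * (Y + Z) := by positivity
    have f2 : 0 ≤ K₂ * A * (Y + Z) := by positivity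
    have f3 : 0 ≤ K₂ * A ^ 2 * (Y + Z) := by positivity
    have f4 : 0 ≤ K₃ * A ^ 2 * (Y + Z) := by positivity
    have f5 : 0 ≤ K₃ * A * Z := by positivity
    have e1 : (K₁ + K₂ + K₃) * (A + A ^ 2) * (Y + Z) = K₁ * (A + A ^ 2) * (Y + Z) +
        K₂ * A * (Y + Z) + K₂ * A ^ 2 * (Y + Z) + K₃ * A ^ 2 * (Y + Z) + K₃ * A * Y +
        K₃ * A * Z := by ring
    rw [e1]
    linarith
  have b3 := mul_le_mul_of_nonneg_left c1 (by positivity : (0 : ℝ) ≤ lam / 4)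
  have b4 := mul_le_mul_of_nonneg_left c2 (by norm_num : (0 : ℝ) ≤ 1 / 4)
  have b5 : 2 * |∫ v, boltzCut (1 + a) b ε G v * ψ v| ≤
      |∫ p in Sn d R₁, kx (1 + a) b ε G p * dX ψ p ∂(mu3 d)| +
      |∫ p in Sm d R₁, kx (1 + a) b ε G p * dX ψ p ∂(mu3 d)| +
      |∫ p in Sd d R₁, kx (1 + a) b ε G p * dX ψ p ∂(mu3 d)| := by
    rw [hw, abs_mul, abs_of_pos (by norm_num : (0 : ℝ) < 1 / 2)]
    have := abs_add_three (∫ p in Sn d R₁, kx (1 + a) b ε G p * dX ψ p ∂(mu3 d))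
      (∫ p in Sm d R₁, kx (1 + a) b ε G p * dX ψ p ∂(mu3 d))
      (∫ p in Sd d R₁, kx (1 + a) b ε G p * dX ψ p ∂(mu3 d))
    linarith
  rw [one_div_one, one_mul] at a2
  have e1 : (1 / lam + 1) * Pc (1 + a) b ε G = (1 / lam) * Pc (1 + a) b ε G + Pc (1 + a) b ε G := by
    ring
  rw [e1]
  linarith

end Pool.Agent.H87.PF
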