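import Pool.Agent.H87.PF.IntC
import Pool.Agent.H87.PE.Coe
import Pool.Agent.H87.PE.Cs

/-!
# Module CutR: the renormalised part at the cut-off level

Copy `er_sq`, `er_inc`, `er_cut` of H87/PE/Ren.lean with `XS a G univ` replaced by `Y = XN a β 1 G + SS s a β 1 v₀ G`, `int_inc` by `int_cb`, `int_neg` by `int_ng`, `GG_le` by `GG_le'` (`SS ≥ 0`: `SS_nonneg`). `ψ` is measurable and bounded by `A` (`CuspB`), it need not be continuous.
`∫ kx (bet' G' ψ' - bet' G ψ)² ≤ 2A² ∫ kx (bet' G' - bet' G)² + 2 ∫ kx (ψ' - ψ)²`, first part: `Hf`: `9 (Pc + K₂ GG)` (`bet_sq`, `coer`), `Hfᶜ`: `int_ng`.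
-/

set_option autoImplicit false

open MeasureTheory Set Filter Topology Pool.Agent.H25.Kin Pool.Agent.H48.PL
open Pool.Agent.H48.PI (om bet')
open Pool.Agent.H48.PW (sP Cusp CuspB)
open Pool.Agent.H87.PE

namespace Pool.Agent.H87.PF

variable {d : ℕ} {s a β C Ca : ℝ} {b : ℝ → ℝ}

private lemma er_PG {φ : Vec d → ℝ} {A : ℝ} (h : ∀ v, |φ v| ≤ A) : PG φ := by
  refine ⟨0, A, fun v => ?_⟩
  rw [pow_zero, mul_one, Real.norm_eq_abs]
  exact h v

private lemma er_PB {X : Vec d × Vec d × Vec d → ℝ} {A : ℝ} (hA : 0 ≤ A) (h : ∀ p, |X p| ≤ A) :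
    PB X := ⟨0, A, hA, fun v w σ _ => by rw [pow_zero, mul_one]; exact h _⟩

/-- the square of the increment of a bounded function -/
private lemma er_sq {γ : ℝ} (H : Hyp d γ s b C Ca) {ε : ℝ} (hε : 0 < ε) {G : Vec d → ℝ} (hG : RD G)
    (hGc : Continuous G) (hG0 : ∀ v, 0 ≤ G v) {L : Vec d → ℝ} {A : ℝ} (hL : ∀ v, |L v| ≤ A)
    (hLm : Measurable L) :
    ∫ p, kx γ b ε G p * dX L p ^ 2 ∂(mu3 d) ≤
      4 * ∫ p, kx γ b ε G p * (L (post p.1 p.2.1 p.2.2) - L p.1) ^ 2 ∂(mu3 d) := by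
  have hA : 0 ≤ A := (abs_nonneg _).trans (hL 0)
  have mpost := (continuous_post (d := d)).measurable
  have mpost' := (continuous_post' (d := d)).measurable
  have mv : Measurable fun p : Vec d × Vec d × Vec d => p.1 := measurable_fst
  have mw : Measurable fun p : Vec d × Vec d × Vec d => p.2.1 := measurable_fst.comp measurable_snd
  have m1 : Measurable fun p : Vec d × Vec d × Vec d => (L (post p.1 p.2.1 p.2.2) - L p.1) ^ 2 :=
    ((hLm.comp mpost).sub (hLm.comp mv)).pow_const 2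
  have m2 : Measurable fun p : Vec d × Vec d × Vec d => (L (post' p.1 p.2.1 p.2.2) - L p.2.1) ^ 2 :=
    ((hLm.comp mpost').sub (hLm.comp mw)).pow_const 2
  have hsq : ∀ x y : Vec d, (L x - L y) ^ 2 ≤ (2 * A) ^ 2 := by
    intro x y
    have h1 := abs_le.1 (hL x)
    have h2 := abs_le.1 (hL y)
    have h3 : |L x - L y| ≤ 2 * A := by
      rw [abs_le]
      constructor <;> linarith
    calc (L x - L y) ^ 2 = |L x - L y| ^ 2 := (sq_abs _).symm
      _ ≤ (2 * A) ^ 2 := pow_le_pow_left₀ (abs_nonneg _) h3 2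
  have B1 : PB fun p : Vec d × Vec d × Vec d => (L (post p.1 p.2.1 p.2.2) - L p.1) ^ 2 :=
    er_PB (A := (2 * A) ^ 2) (by positivity) fun p => by
      rw [abs_of_nonneg (sq_nonneg _)]; exact hsq _ _
  have B2 : PB fun p : Vec d × Vec d × Vec d => (L (post' p.1 p.2.1 p.2.2) - L p.2.1) ^ 2 :=
    er_PB (A := (2 * A) ^ 2) (by positivity) fun p => by
      rw [abs_of_nonneg (sq_nonneg _)]; exact hsq _ _
  have i1 := kx_int H hε hG hGc m1 B1
  have i2 := kx_int H hε hG hGc m2 B2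
  have e : ∫ p, kx γ b ε G p * (L (post' p.1 p.2.1 p.2.2) - L p.2.1) ^ 2 ∂(mu3 d) =
      ∫ p, kx γ b ε G p * (L (post p.1 p.2.1 p.2.2) - L p.1) ^ 2 ∂(mu3 d) := by
    rw [← exch_sw H ε hGc.measurable m1]
    refine integral_congr_ae (Eventually.of_forall fun p => ?_)
    obtain ⟨v, w, σ⟩ := p
    have hp : post w v (-σ) = post' v w σ := by
      have hl : len (w - v) = len (v - w) := by
        have h : nsq (w - v) = nsq (v - w) := by
          unfold nsq
          exact Finset.sum_congr rfl fun i _ => by simp only [Pi.sub_apply]; ring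
        unfold len
        rw [h]
      unfold post post'
      rw [hl, smul_neg, add_comm w v, ← sub_eq_add_neg]
    simp only [exch]
    rw [hp]
  have hk := kx_nonneg H hε hG0
  have step : ∫ p, kx γ b ε G p * dX L p ^ 2 ∂(mu3 d) ≤
      ∫ p, (2 * (kx γ b ε G p * (L (post p.1 p.2.1 p.2.2) - L p.1) ^ 2) +
        2 * (kx γ b ε G p * (L (post' p.1 p.2.1 p.2.2) - L p.2.1) ^ 2)) ∂(mu3 d) := by
    refine integral_mono_of_nonneg ?_ ((i1.const_mul 2).add (i2.const_mul 2)) ?_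
    · filter_upwards [hk] with p hp
      exact mul_nonneg hp (sq_nonneg _)
    · filter_upwards [hk] with p hp
      have h1 : dX L p ^ 2 ≤ 2 * (L (post p.1 p.2.1 p.2.2) - L p.1) ^ 2 +
          2 * (L (post' p.1 p.2.1 p.2.2) - L p.2.1) ^ 2 := by
        unfold dX
        nlinarith [sq_nonneg ((L (post p.1 p.2.1 p.2.2) - L p.1) -
          (L (post' p.1 p.2.1 p.2.2) - L p.2.1))]
      have h2 := mul_le_mul_of_nonneg_left h1 hp
      linarith
  rw [integral_add (i1.const_mul 2) (i2.const_mul 2), integral_const_mul, integral_const_mul, e] at step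
  linarith

/-- the increments of the renormalization -/
private lemma er_inc (H : Hyp d (1 + a) s b C Ca) (E : EP s a β) : ∃ K : ℝ, 0 ≤ K ∧
    ∀ C₀ : ℝ, 0 < C₀ → ∀ G : Vec d → ℝ, Gd G → ∀ ε : ℝ, 0 < ε → ∀ A : ℝ, 0 ≤ A → ∀ (v₀ : Vec d)
    (ψ : Vec d → ℝ), CuspB s a v₀ A ψ →
    ∫ p, kx (1 + a) b ε G p * (bet' C₀ (G (post p.1 p.2.1 p.2.2)) * ψ (post p.1 p.2.1 p.2.2) -
        bet' C₀ (G p.1) * ψ p.1) ^ 2 ∂(mu3 d) ≤
      A ^ 2 * (18 * Pc (1 + a) b ε G + K * (XN a β 1 G + SS s a β 1 v₀ G)) := by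
  obtain ⟨K₁, hK₁, hinc⟩ := int_cb H E
  obtain ⟨K₂, hK₂, hcoer⟩ := coer H
  obtain ⟨K₃, hK₃, hneg⟩ := int_ng H E
  refine ⟨2 * K₁ + 18 * K₂ + 2 * K₃, by positivity, ?_⟩
  intro C₀ hC₀ G hG ε hε A hA v₀ ψ hψ
  have hψA := hψ.h0
  have hψm := hψ.meas
  have hG0 : ∀ v, 0 ≤ G v := fun v => (hG.pos v).le
  have mpost := (continuous_post (d := d)).measurable
  have mv : Measurable fun p : Vec d × Vec d × Vec d => p.1 := measurable_fst
  have hbm : Measurable fun v => bet' C₀ (G v) := by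
    unfold bet'
    exact ((measurable_const.div (hG.cont.measurable.const_add C₀))).pow_const 2
  have hbc0 : ∀ v, 0 ≤ bet' C₀ (G v) := fun v => bet_nonneg _ _
  have hbc1 : ∀ v, bet' C₀ (G v) ≤ 1 := fun v => bet_le_one hC₀ (hG0 v)
  -- the two pieces
  set X : Vec d × Vec d × Vec d → ℝ := fun p =>
    (bet' C₀ (G (post p.1 p.2.1 p.2.2)) - bet' C₀ (G p.1)) ^ 2 with hX
  set Y : Vec d × Vec d × Vec d → ℝ := fun p => (ψ (post p.1 p.2.1 p.2.2) - ψ p.1) ^ 2 with hY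
  have mX : Measurable X := ((hbm.comp mpost).sub (hbm.comp mv)).pow_const 2
  have mY : Measurable Y := ((hψm.comp mpost).sub (hψm.comp mv)).pow_const 2
  have hX1 : ∀ p, X p ≤ 1 := by
    intro p
    have a1 := hbc0 (post p.1 p.2.1 p.2.2)
    have a2 := hbc1 (post p.1 p.2.1 p.2.2)
    have a3 := hbc0 p.1
    have a4 := hbc1 p.1
    simp only [hX]
    nlinarith
  have hX0 : ∀ p, 0 ≤ X p := fun p => sq_nonneg _
  have hY0 : ∀ p, 0 ≤ Y p := fun p => sq_nonneg _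
  have hY1 : ∀ p, Y p ≤ (2 * A) ^ 2 := by
    intro p
    have h1 := abs_le.1 (hψA (post p.1 p.2.1 p.2.2))
    have h2 := abs_le.1 (hψA p.1)
    have h3 : |ψ (post p.1 p.2.1 p.2.2) - ψ p.1| ≤ 2 * A := by
      rw [abs_le]
      constructor <;> linarith
    calc Y p = |ψ (post p.1 p.2.1 p.2.2) - ψ p.1| ^ 2 := (sq_abs _).symm
      _ ≤ (2 * A) ^ 2 := pow_le_pow_left₀ (abs_nonneg _) h3 2
  have iX : Integrable (fun p => kx (1 + a) b ε G p * X p) (mu3 d) :=
    kx_int H hε hG.rd hG.cont mX (er_PB (A := 1) zero_le_one fun p => by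
      rw [abs_of_nonneg (hX0 p)]; exact hX1 p)
  have iY : Integrable (fun p => kx (1 + a) b ε G p * Y p) (mu3 d) :=
    kx_int H hε hG.rd hG.cont mY (er_PB (A := (2 * A) ^ 2) (by positivity) fun p => by
      rw [abs_of_nonneg (hY0 p)]; exact hY1 p)
  have hk := kx_nonneg H hε hG0
  have step : ∫ p, kx (1 + a) b ε G p * (bet' C₀ (G (post p.1 p.2.1 p.2.2)) *
        ψ (post p.1 p.2.1 p.2.2) - bet' C₀ (G p.1) * ψ p.1) ^ 2 ∂(mu3 d) ≤
      ∫ p, (2 * A ^ 2 * (kx (1 + a) b ε G p * X p) + 2 * (kx (1 + a) b ε G p * Y p)) ∂(mu3 d) := by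
    refine integral_mono_of_nonneg ?_ ((iX.const_mul _).add (iY.const_mul 2)) ?_
    · filter_upwards [hk] with p hp
      exact mul_nonneg hp (sq_nonneg _)
    · filter_upwards [hk] with p hp
      have h1 : (bet' C₀ (G (post p.1 p.2.1 p.2.2)) * ψ (post p.1 p.2.1 p.2.2) -
          bet' C₀ (G p.1) * ψ p.1) ^ 2 ≤ 2 * A ^ 2 * X p + 2 * Y p := by
        have e : bet' C₀ (G (post p.1 p.2.1 p.2.2)) * ψ (post p.1 p.2.1 p.2.2) -
            bet' C₀ (G p.1) * ψ p.1 =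
            (bet' C₀ (G (post p.1 p.2.1 p.2.2)) - bet' C₀ (G p.1)) * ψ (post p.1 p.2.1 p.2.2) +
              bet' C₀ (G p.1) * (ψ (post p.1 p.2.1 p.2.2) - ψ p.1) := by ring
        rw [e]
        set u := bet' C₀ (G (post p.1 p.2.1 p.2.2)) - bet' C₀ (G p.1) with hu
        set z := ψ (post p.1 p.2.1 p.2.2) with hz
        set y := ψ (post p.1 p.2.1 p.2.2) - ψ p.1 with hy
        set c := bet' C₀ (G p.1) with hcd
        have c0 : 0 ≤ c := hbc0 _
        have c1 : c ≤ 1 := hbc1 _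
        have z1 : z ^ 2 ≤ A ^ 2 := by
          rw [← sq_abs]
          exact pow_le_pow_left₀ (abs_nonneg _) (hψA _) 2
        have c2 : c ^ 2 ≤ 1 := pow_le_one₀ c0 c1
        have eX : X p = u ^ 2 := rfl
        have eY : Y p = y ^ 2 := rfl
        rw [eX, eY]
        have q1 : (u * z) ^ 2 ≤ A ^ 2 * u ^ 2 := by
          have := mul_le_mul_of_nonneg_right z1 (sq_nonneg u)
          calc (u * z) ^ 2 = z ^ 2 * u ^ 2 := by ring
            _ ≤ _ := this
        have q2 : (c * y) ^ 2 ≤ y ^ 2 := by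
          have := mul_le_mul_of_nonneg_right c2 (sq_nonneg y)
          calc (c * y) ^ 2 = c ^ 2 * y ^ 2 := by ring
            _ ≤ 1 * y ^ 2 := this
            _ = y ^ 2 := one_mul _
        nlinarith [sq_nonneg (u * z - c * y)]
      have h2 := mul_le_mul_of_nonneg_left h1 hp
      linarith
  rw [integral_add (iX.const_mul _) (iY.const_mul 2), integral_const_mul, integral_const_mul] at step
  have bY : ∫ p, kx (1 + a) b ε G p * Y p ∂(mu3 d) ≤ K₁ * A ^ 2 * (XN a β 1 G + SS s a β 1 v₀ G) :=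
    hinc G hG.rd hG.cont hG0 ε hε A hA v₀ ψ hψ
  have hXN : 0 ≤ XN a β 1 G := XN_nonneg hG0 le_rfl
  have hSS : 0 ≤ SS s a β 1 v₀ G := SS_nonneg hG0 le_rfl v₀
  have hGG : GG (1 + a) G ≤ (XN a β 1 G + SS s a β 1 v₀ G) := by
    have := GG_le' E hG.rd hG.cont hG0
    linarith
  -- the coercive piece
  have bX : ∫ p, kx (1 + a) b ε G p * X p ∂(mu3 d) ≤
      9 * (Pc (1 + a) b ε G + K₂ * (XN a β 1 G + SS s a β 1 v₀ G)) + K₃ * (XN a β 1 G + SS s a β 1 v₀ G) := by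
    rw [← integral_add_compl Hf_meas iX]
    obtain ⟨ic, hc1⟩ := hcoer ε hε G hG
    have p1 : ∫ p in Hf d, kx (1 + a) b ε G p * X p ∂(mu3 d) ≤
        ∫ p in Hf d, 9 * (kerB (1 + a) b ε p.1 p.2.1 p.2.2 *
          (G p.2.1 * (Real.sqrt (G (post p.1 p.2.1 p.2.2)) - Real.sqrt (G p.1)) ^ 2)) ∂(mu3 d) := by
      refine integral_mono_ae iX.integrableOn (ic.const_mul 9) (ae_restrict_of_ae ?_)
      filter_upwards [ae_good H.hd1] with p hp
      obtain ⟨v, w, σ⟩ := p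
      have hkb : 0 ≤ kerB (1 + a) b ε v w σ := kerB_nonneg H.bd hε hp.2
      have h4 := bet_sq hC₀ (hG0 v) (hG0 (post v w σ))
      have h5 := mul_le_mul_of_nonneg_left h4 (mul_nonneg hkb (hG0 w))
      show kerB (1 + a) b ε v w σ * (G w * G v) *
          (bet' C₀ (G (post v w σ)) - bet' C₀ (G v)) ^ 2 ≤
        9 * (kerB (1 + a) b ε v w σ *
          (G w * (Real.sqrt (G (post v w σ)) - Real.sqrt (G v)) ^ 2))
      calc kerB (1 + a) b ε v w σ * (G w * G v) * (bet' C₀ (G (post v w σ)) - bet' C₀ (G v)) ^ 2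
          = kerB (1 + a) b ε v w σ * G w *
            (G v * (bet' C₀ (G (post v w σ)) - bet' C₀ (G v)) ^ 2) := by ring
        _ ≤ _ := h5
        _ = _ := by ring
    rw [integral_const_mul] at p1
    have ik : Integrable (fun p => kx (1 + a) b ε G p) (mu3 d) := by
      have := kx_int H hε hG.rd hG.cont (measurable_const (a := (1 : ℝ)))
        (er_PB (A := 1) zero_le_one fun _ => by simp)
      simpa using this
    have p2 : ∫ p in (Hf d)ᶜ, kx (1 + a) b ε G p * X p ∂(mu3 d) ≤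
        ∫ p in (Hf d)ᶜ, kx (1 + a) b ε G p ∂(mu3 d) := by
      refine integral_mono_ae iX.integrableOn ik.integrableOn (ae_restrict_of_ae ?_)
      filter_upwards [hk] with p hp
      exact mul_le_of_le_one_right hp (hX1 p)
    have p3 : ∫ p in (Hf d)ᶜ, kx (1 + a) b ε G p ∂(mu3 d) ≤
        K₃ * (XN a β 1 G + SS s a β 1 v₀ G) := by
      have q := hneg G hG.rd hG.cont hG0 ε hε
      have q' := mul_le_mul_of_nonneg_left (le_add_of_nonneg_right hSS :
        XN a β 1 G ≤ XN a β 1 G + SS s a β 1 v₀ G) hK₃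
      exact q.trans q'
    have p4 : K₂ * GG (1 + a) G ≤ K₂ * (XN a β 1 G + SS s a β 1 v₀ G) := mul_le_mul_of_nonneg_left hGG hK₂
    linarith
  have f1 := mul_le_mul_of_nonneg_left bX (by positivity : (0 : ℝ) ≤ 2 * A ^ 2)
  have f2 : 2 * A ^ 2 * (9 * (Pc (1 + a) b ε G + K₂ * (XN a β 1 G + SS s a β 1 v₀ G)) + K₃ * (XN a β 1 G + SS s a β 1 v₀ G)) +
      2 * (K₁ * A ^ 2 * (XN a β 1 G + SS s a β 1 v₀ G)) =
      A ^ 2 * (18 * Pc (1 + a) b ε G + (2 * K₁ + 18 * K₂ + 2 * K₃) * (XN a β 1 G + SS s a β 1 v₀ G)) := by ring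
  linarith

theorem ren_cut (H : Hyp d (1 + a) s b C Ca) (E : EP s a β) : ∃ K : ℝ, 0 ≤ K ∧
    ∀ e₀ : ℝ, 0 < e₀ → e₀ ≤ 1 → ∀ C₀ : ℝ, 0 < C₀ → ∀ G : Vec d → ℝ, Gd G → ∀ ε : ℝ, 0 < ε →
    ∀ A : ℝ, 0 ≤ A → ∀ (v₀ : Vec d) (ψ : Vec d → ℝ), CuspB s a v₀ A ψ →
    2 * |∫ v, boltzCut (1 + a) b ε G v * (bet' C₀ (G v) * ψ v)| ≤
      A * ((1 / e₀ + K) * Pc (1 + a) b ε G +
        e₀ * K * (XN a β 1 G + SS s a β 1 v₀ G)) := by
  obtain ⟨K, hK, hinc⟩ := er_inc H E
  refine ⟨K + 18, by positivity, ?_⟩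
  intro e₀ he₀ he₁ C₀ hC₀ G hG ε hε A hA v₀ ψ hψ
  have hψA := hψ.h0
  have hψm := hψ.meas
  have hG0 : ∀ v, 0 ≤ G v := fun v => (hG.pos v).le
  have hPc : 0 ≤ Pc (1 + a) b ε G := by
    have q1 := prd_eq H hε hG
    have q2 : 0 ≤ ∫ p, (kx (1 + a) b ε G p - ky (1 + a) b ε G p) * lg G p ∂(mu3 d) :=
      integral_nonneg_of_ae (prd_nonneg H hε hG)
    linarith
  have hXS : 0 ≤ XN a β 1 G + SS s a β 1 v₀ G :=
    add_nonneg (XN_nonneg hG0 le_rfl) (SS_nonneg hG0 le_rfl v₀)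
  rcases hA.eq_or_lt with hA0 | hA0
  · have hz : ∀ v, ψ v = 0 := fun v => by
      have := hψA v
      rw [← hA0] at this
      exact abs_eq_zero.1 (le_antisymm this (abs_nonneg _))
    have : ∫ v, boltzCut (1 + a) b ε G v * (bet' C₀ (G v) * ψ v) = 0 := by
      simp only [hz, mul_zero, integral_zero]
    rw [this, ← hA0]
    simp
  · have hbm : Measurable fun v => bet' C₀ (G v) := by
      unfold bet'
      exact ((measurable_const.div (hG.cont.measurable.const_add C₀))).pow_const 2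
    set L : Vec d → ℝ := fun v => bet' C₀ (G v) * ψ v with hL
    have hLm : Measurable L := hbm.mul hψm
    have hLA : ∀ v, |L v| ≤ A := by
      intro v
      simp only [hL]
      rw [abs_mul, abs_of_nonneg (bet_nonneg _ _)]
      calc bet' C₀ (G v) * |ψ v| ≤ 1 * A :=
            mul_le_mul (bet_le_one hC₀ (hG0 v)) (hψA v) (abs_nonneg _) zero_le_one
        _ = A := one_mul A
    have hLP : PG L := er_PG hLA
    have hw := weak_c H hε hG.rd hG.cont hLP hLm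
    have a1 := cs_cut H hε hG hLP hLm MeasurableSet.univ (fun _ _ _ _ _ => by simp)
      (lam := e₀ / A) (by positivity)
    simp only [Measure.restrict_univ] at a1
    have a2 := er_sq H hε hG.rd hG.cont hG0 hLA hLm
    have a3 := hinc C₀ hC₀ G hG ε hε A hA v₀ ψ hψ
    have a4 : 2 * |∫ v, boltzCut (1 + a) b ε G v * L v| =
        |∫ p, kx (1 + a) b ε G p * dX L p ∂(mu3 d)| := by
      rw [hw, abs_mul, abs_of_pos (by norm_num : (0 : ℝ) < 1 / 2)]
      ring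
    rw [a4]
    have a5 : ∫ p, kx (1 + a) b ε G p * dX L p ^ 2 ∂(mu3 d) ≤
        4 * (A ^ 2 * (18 * Pc (1 + a) b ε G + K * (XN a β 1 G + SS s a β 1 v₀ G))) := by
      refine a2.trans (mul_le_mul_of_nonneg_left a3 (by norm_num))
    have a6 := mul_le_mul_of_nonneg_left a5 (by positivity : (0 : ℝ) ≤ e₀ / A / 4)
    have a7 : e₀ / A / 4 * (4 * (A ^ 2 * (18 * Pc (1 + a) b ε G + K * (XN a β 1 G + SS s a β 1 v₀ G)))) =
        A * (e₀ * 18 * Pc (1 + a) b ε G + e₀ * K * (XN a β 1 G + SS s a β 1 v₀ G)) := by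
      field_simp
    have a8 : 1 / (e₀ / A) * Pc (1 + a) b ε G = A * (1 / e₀ * Pc (1 + a) b ε G) := by
      field_simp
    have a9 : A * (e₀ * 18 * Pc (1 + a) b ε G + e₀ * K * (XN a β 1 G + SS s a β 1 v₀ G)) +
        A * (1 / e₀ * Pc (1 + a) b ε G) ≤
        A * ((1 / e₀ + (K + 18)) * Pc (1 + a) b ε G + e₀ * (K + 18) * (XN a β 1 G + SS s a β 1 v₀ G)) := by
      rw [← mul_add]
      refine mul_le_mul_of_nonneg_left ?_ hA
      have q1 : e₀ * 18 * Pc (1 + a) b ε G ≤ (K + 18) * Pc (1 + a) b ε G := by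
        refine mul_le_mul_of_nonneg_right ?_ hPc
        linarith
      have q2 : e₀ * K * (XN a β 1 G + SS s a β 1 v₀ G) ≤ e₀ * (K + 18) * (XN a β 1 G + SS s a β 1 v₀ G) := by
        refine mul_le_mul_of_nonneg_right ?_ hXS
        have := mul_le_mul_of_nonneg_left (by linarith : K ≤ K + 18) he₀.le
        exact this
      linarith
    rw [a8] at a1
    rw [a7] at a6
    linarith

end Pool.Agent.H87.PF
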