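import Pool.Agent.H48.PW.Defs
import Pool.Agent.H82.CM.LowK
import Pool.Agent.H87.PE.Hold
import Pool.Agent.H87.PE.Bet

/-!
# Cusp test functions (MP_c15324_an, plane symmetric solutions, `1 < γ`): definitions

Blocks S, H, R of /team-store/h48_pwide_paper.md. A collision is `p = (v, w, σ)`, `v' = post v w σ`, `w' = post' v w σ`, `V = v - w`, `ρ = |v - v₀|`.
Everything is proved with the weight `|V|^(1+a) (1 + |V|^β) om(R)` (functional `XN`), which is at most a multiple of each version of `X`.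
`β` (here) is the exponent of the density (`m` in H48/PW). `s' = sP s a = max(a, s + a/2)`, the exponent of the cusp is `b' = 2(s'-a) = max(0, 2s-a) ∈ [0,1)`.
-/

set_option autoImplicit false

open MeasureTheory Set Filter Topology Pool.Agent.H25.Kin Pool.Agent.H48.PL
open Pool.Agent.H48.PI (om)
open Pool.Agent.H48.PW (sP)
open Pool.Agent.H87.PE

namespace Pool.Agent.H87.PF

variable {d : ℕ}

/-- the conditions on the exponents -/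
structure EP (s a β : ℝ) : Prop where
  hs : 0 < s
  ha : 0 < a
  hβ : 2 * s < β
  haβ : a ≤ β
  hβ1 : β < 1

/-- the weight `|V|^(1+a) (1 + |V|^β) om(R)` -/
noncomputable def wN (a β V : ℝ) (q : Vec d × Vec d) : ℝ :=
  len (q.1 - q.2) ^ (1 + a) * (1 + len (q.1 - q.2) ^ β) * om β V (RR q.1 q.2)

/-- `∫∫ G G_* |V|^(1+a) (1 + |V|^β) om(R)` -/
noncomputable def XN (a β V : ℝ) (G : Vec d → ℝ) : ℝ := ∫ q, G q.1 * G q.2 * wN a β V q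

/-- the weight `|V|^(1+a+2s) |v-v₀|^(-b') om(R)`, `b' = 2(s'-a) = max(0,2s-a)` -/
noncomputable def wS (s a β V : ℝ) (v₀ : Vec d) (q : Vec d × Vec d) : ℝ :=
  len (q.1 - q.2) ^ (1 + a + 2 * s) * len (q.1 - v₀) ^ (2 * (a - sP s a)) * om β V (RR q.1 q.2)

/-- `∫∫ G G_* |V|^(1+a+2s) |v-v₀|^(-b') om(R)` -/
noncomputable def SS (s a β V : ℝ) (v₀ : Vec d) (G : Vec d → ℝ) : ℝ :=
  ∫ q, G q.1 * G q.2 * wS s a β V v₀ q

/-- the collisions with `Λρ ≤ |v'-v| ≤ 6Λρ`, for `ρ ≤ 1`, `12Λρ ≤ |V|`, `t|V|² ≤ 2Λ²ρ²` -/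
def AnnS (Λ t : ℝ) (v₀ : Vec d) : Set (Vec d × Vec d × Vec d) :=
  {p | 0 < len (p.1 - v₀) ∧ len (p.1 - v₀) ≤ 1 ∧ 12 * Λ * len (p.1 - v₀) ≤ len (p.1 - p.2.1) ∧
    t * nsq (p.1 - p.2.1) ≤ 2 * Λ ^ 2 * nsq (p.1 - v₀) ∧
    2 * Λ ^ 2 * nsq (p.1 - v₀) ≤ nsq (p.1 - p.2.1) * (1 - cosTh p.1 p.2.1 p.2.2) ∧
    nsq (p.1 - p.2.1) * (1 - cosTh p.1 p.2.1 p.2.2) ≤ 32 * (2 * Λ ^ 2 * nsq (p.1 - v₀))}

/-- the pairs of `AnnS` -/
def PrN (Λ t : ℝ) (v₀ : Vec d) : Set (Vec d × Vec d) :=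
  {q | 0 < len (q.1 - v₀) ∧ len (q.1 - v₀) ≤ 1 ∧ 12 * Λ * len (q.1 - v₀) ≤ len (q.1 - q.2) ∧
    t * nsq (q.1 - q.2) ≤ 2 * Λ ^ 2 * nsq (q.1 - v₀)}

/-- the pairs with `0 < ρ`, `t|V|² ≤ 2Λ²ρ²` -/
def PrS (Λ t : ℝ) (v₀ : Vec d) : Set (Vec d × Vec d) :=
  {q | 0 < len (q.1 - v₀) ∧ t * nsq (q.1 - q.2) ≤ 2 * Λ ^ 2 * nsq (q.1 - v₀)}

/-- the weight `ρ^a om(R)` of the entropy inequality -/
noncomputable def WA (a β V : ℝ) (v₀ : Vec d) (p : Vec d × Vec d × Vec d) : ℝ :=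
  len (p.1 - v₀) ^ a * om β V (RR p.1 p.2.1)

/-- the collisions with `R ≤ R₁` -/
def Sn (d : ℕ) (R₁ : ℝ) : Set (Vec d × Vec d × Vec d) := {p | RR p.1 p.2.1 ≤ R₁}

/-- the collisions with `R₁ < R` and `|V|² (1 - cos θ) < 1` -/
def Sm (d : ℕ) (R₁ : ℝ) : Set (Vec d × Vec d × Vec d) :=
  {p | R₁ < RR p.1 p.2.1 ∧ nsq (p.1 - p.2.1) * (1 - cosTh p.1 p.2.1 p.2.2) < 1}

/-- the collisions with `R₁ < R` and `1 ≤ |V|² (1 - cos θ)` -/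
def Sd (d : ℕ) (R₁ : ℝ) : Set (Vec d × Vec d × Vec d) :=
  {p | R₁ < RR p.1 p.2.1 ∧ 1 ≤ nsq (p.1 - p.2.1) * (1 - cosTh p.1 p.2.1 p.2.2)}

end Pool.Agent.H87.PF
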