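import Pool.Agent.H87.PF.Base

/-!
# Module EntI: the entropy inequality with a weight

Scalar: `x ≤ 4y + (x-y)(log x - log y)` for `x, y > 0`: the product is `≥ 0`, so trivial for `x ≤ 4y`; for `x > 4y`: `x - y ≥ (3/4)x`, `log x - log y ≥ log 4 ≥ 4/3` (`Real.log_two_gt_d9`), product `≥ x`.
With `k = kerB ≥ 0`, `x = G w * G v`, `y = G v' * G w'`, `0 ≤ W ≤ 1`: `kx W ≤ 4 ky W + (kx - ky) lg` a.e. (`lg = log x - log y`). Integrate (`kx_int`, `ky_int` with `PB W`: `W` bounded; `prd_int`): `prd_eq`: `∫ (kx-ky) lg = 4 Pc`.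
`∫ ky W = ∫ kx (W ∘ coll)`: `coll_sw` with `F = W ∘ coll`, `coll (coll p) = p` for good `p` (`coll_coll`, `ae_good`).
-/

set_option autoImplicit false

open MeasureTheory Set Filter Topology Pool.Agent.H25.Kin Pool.Agent.H48.PL
open Pool.Agent.H87.PE

namespace Pool.Agent.H87.PF

variable {d : ℕ} {γ s C Ca : ℝ} {b : ℝ → ℝ}

private lemma scal_nn {x y : ℝ} (hx : 0 < x) (hy : 0 < y) : 0 ≤ (x - y) * (Real.log x - Real.log y) := by
  rcases le_total x y with h | h
  · exact mul_nonneg_of_nonpos_of_nonpos (sub_nonpos.2 h) (sub_nonpos.2 (Real.log_le_log hx h))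
  · exact mul_nonneg (sub_nonneg.2 h) (sub_nonneg.2 (Real.log_le_log hy h))

private lemma scal {x y : ℝ} (hx : 0 < x) (hy : 0 < y) : x ≤ 4 * y + (x - y) * (Real.log x - Real.log y) := by
  rcases le_total x (4 * y) with h | h
  · have := scal_nn hx hy
    linarith
  · have h1 : Real.log (4 * y) ≤ Real.log x := Real.log_le_log (by positivity) h
    rw [Real.log_mul (by norm_num) hy.ne', show (4 : ℝ) = 2 ^ 2 by norm_num, Real.log_pow] at h1
    have h2 := Real.log_two_gt_d9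
    have h3 : 4 / 3 ≤ Real.log x - Real.log y := by
      push_cast at h1
      linarith
    have h4 : 3 / 4 * x ≤ x - y := by linarith
    have h5 : 3 / 4 * x * (4 / 3) ≤ (x - y) * (Real.log x - Real.log y) :=
      mul_le_mul h4 h3 (by norm_num) (by linarith)
    linarith

private lemma point {k x y W : ℝ} (hk : 0 ≤ k) (hx : 0 < x) (hy : 0 < y) (h0 : 0 ≤ W) (h1 : W ≤ 1) :
    k * x * W ≤ 4 * (k * y * W) + (k * x - k * y) * (Real.log x - Real.log y) := by
  have e1 := scal hx hy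
  have e2 := scal_nn hx hy
  have e3 : k * W * x ≤ k * W * (4 * y + (x - y) * (Real.log x - Real.log y)) :=
    mul_le_mul_of_nonneg_left e1 (mul_nonneg hk h0)
  have e4 : k * W * ((x - y) * (Real.log x - Real.log y)) ≤ k * 1 * ((x - y) * (Real.log x - Real.log y)) :=
    mul_le_mul_of_nonneg_right (mul_le_mul_of_nonneg_left h1 hk) e2
  nlinarith

theorem ent_ineq (H : Hyp d γ s b C Ca) {ε : ℝ} (hε : 0 < ε) {G : Vec d → ℝ} (hG : Gd G)
    {W : Vec d × Vec d × Vec d → ℝ} (hW : Measurable W) (h0 : ∀ p, 0 ≤ W p) (h1 : ∀ p, W p ≤ 1) :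
    ∫ p, kx γ b ε G p * W p ∂(mu3 d) ≤
      4 * (∫ p, kx γ b ε G p * W (coll p) ∂(mu3 d)) + 4 * Pc γ b ε G := by
  have hPB : PB W := by
    refine ⟨0, 1, zero_le_one, fun v w σ _ => ?_⟩
    rw [pow_zero, mul_one, abs_of_nonneg (h0 _)]
    exact h1 _
  have mc : Measurable (coll : Vec d × Vec d × Vec d → Vec d × Vec d × Vec d) :=
    (coll_preserving H.hd1).measurable
  have i1 := kx_int H hε hG.rd hG.cont hW hPB
  have i2 := ky_int H hε hG.rd hG.cont hW hPB
  have i3 := prd_int H hε hG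
  have e1 : ∫ p, ky γ b ε G p * W p ∂(mu3 d) = ∫ p, kx γ b ε G p * W (coll p) ∂(mu3 d) := by
    rw [← coll_sw H ε hG.cont.measurable (F := fun p => W (coll p)) (hW.comp mc)]
    refine integral_congr_ae ?_
    filter_upwards [ae_good H.hd1] with p hp
    obtain ⟨v, w, σ⟩ := p
    have hp1 : v ≠ w := hp.1
    have hp2 : nsq σ = 1 := hp.2
    show ky γ b ε G (v, w, σ) * W (v, w, σ) = ky γ b ε G (v, w, σ) * W (coll (coll (v, w, σ)))
    rw [coll_coll hp1 hp2]
  rw [← e1, ← prd_eq H hε hG, ← integral_const_mul, ← integral_add (i2.const_mul 4) i3]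
  refine integral_mono_ae i1 ((i2.const_mul 4).add i3) ?_
  filter_upwards [ae_good H.hd1] with p hp
  have hk := kerB_nonneg (γ := γ) H.bd hε (v := p.1) (w := p.2.1) hp.2
  exact point hk (mul_pos (hG.pos _) (hG.pos _)) (mul_pos (hG.pos _) (hG.pos _)) (h0 p) (h1 p)

end Pool.Agent.H87.PF
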