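import Pool.Agent.H87.PF.CutC
import Pool.Agent.H87.PF.SFin
import Pool.Agent.H87.PE.Tra

/-!
# Module ErrC: the collision operator tested with a cusp function

As `err_hold` in H87/PE/Hold.lean. `K₂` of `cusp_cut`, `K₃` of `sing_G`. `G = g + δ gau` (`gd_reg`). `tra` with the constant `A₁(d+1)` (`cu_lin`): `|∫ Q_ε(g)ψ| ≤ 2|∫ Q_ε(G)ψ| + η'`. `cusp_cut` with `lam = ε`. For small cut-off `Pc ≤ Dn + η'` (`Pc_lim`),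
`XN(G) ≤ XN(g) + η'` (`XN_reg`), `SS(G) ≤ K₃ (Dn + XN(g)) + η'` (`sing_G`, for `V = 1` and `V = max V₁ R₁`). The limit of the cut-off: `boltz_weak_tendsto`. So, with `q = R₁^2 om β V₁ R₁ ^ 2` (`om² ≤ om ≤ 1`), `J = A₁ + A₁²`:
`|∫ Q(g)ψ| ≤ [1/ε + 1 + ε K₂ A₁² q K₃ + K₂ J K₃] Dn + ε K₂ A₁² q (1+K₃) XN_1(g) + K₂ J (1+K₃) XN_max(g) + (sum) η'`. `K = K₂ J (1+K₃)`, `K₁ = 2 + K₂A₁²R₁^2 K₃ + K₂ J K₃ + K₂A₁²R₁^2(1+K₃)`: the bracket is `≤ K₁/ε`;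
replacing it costs `(K₁/ε)·η'` since `Dn ≥ -η'` (`Dn_ge`, or the first part of `Pc_lim`). `η'` small depending on `K₁, ε, K, η` (not on `V₁`).
-/

set_option autoImplicit false

open MeasureTheory Set Filter Topology Pool.Agent.H25.Kin Pool.Agent.H48.PL
open Pool.Agent.H82.CM
open Pool.Agent.H15.AV (gau UNice)
open Pool.Agent.H48.PI (om Dn)
open Pool.Agent.H48.PW (sP Cusp CuspB)
open Pool.Agent.H87.PE

namespace Pool.Agent.H87.PF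

variable {d : ℕ} {s a β C Ca cb : ℝ} {b : ℝ → ℝ}

private lemma erc_arith {u e K₃ L J T Rp o D X1 Xm S1 Sm P x1 xm Q η' : ℝ} (hu : 1 ≤ u)
    (he : 0 ≤ e) (he1 : e ≤ 1) (hK₃ : 0 ≤ K₃) (hL : 0 ≤ L) (hJ : 0 ≤ J) (hT : 0 ≤ T)
    (hTR : T ≤ Rp) (hTo : T ≤ Rp * o) (hR : 0 ≤ Rp) (ho : 0 ≤ o) (hη : 0 ≤ η') (hD : -η' ≤ D)
    (hx1 : 0 ≤ x1)
    (hQ : Q ≤ (u + 1) * P + e * L * T * (X1 + S1) + J * (Xm + Sm) + η')
    (hP : P ≤ D + η') (h1 : X1 ≤ x1 + η') (h2 : Xm ≤ xm + η')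
    (h3 : S1 ≤ K₃ * (D + x1) + η') (h4 : Sm ≤ K₃ * (D + xm) + η') :
    Q ≤ (2 + L * Rp * K₃ + J * K₃ + L * Rp * (1 + K₃)) * u * D +
      e * (2 + L * Rp * K₃ + J * K₃ + L * Rp * (1 + K₃)) * o * x1 + J * (1 + K₃) * xm +
      ((2 + L * Rp * K₃ + J * K₃ + L * Rp * (1 + K₃)) * u + (u + 1) + 2 * (L * Rp) + 2 * J + 1) *
        η' := by
  have hLR : 0 ≤ L * Rp := mul_nonneg hL hR
  have hLK : 0 ≤ L * Rp * K₃ := mul_nonneg hLR hK₃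
  have hJK : 0 ≤ J * K₃ := mul_nonneg hJ hK₃
  have hLL : 0 ≤ L * Rp * (1 + K₃) := mul_nonneg hLR (by linarith)
  have heLT : 0 ≤ e * L * T := by positivity
  have hLT : L * T ≤ L * Rp := mul_le_mul_of_nonneg_left hTR hL
  have hLT0 : 0 ≤ L * T := mul_nonneg hL hT
  have heLT' : e * L * T ≤ L * Rp := by
    have c1 : e * (L * T) ≤ 1 * (L * T) := mul_le_mul_of_nonneg_right he1 hLT0
    calc e * L * T = e * (L * T) := by ring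
      _ ≤ 1 * (L * T) := c1
      _ = L * T := one_mul _
      _ ≤ L * Rp := hLT
  have a1 : (u + 1) * P ≤ (u + 1) * (D + η') := mul_le_mul_of_nonneg_left hP (by linarith)
  have a2 : e * L * T * (X1 + S1) ≤ e * L * T * ((1 + K₃) * x1 + K₃ * D + 2 * η') :=
    mul_le_mul_of_nonneg_left (by linarith) heLT
  have a3 : J * (Xm + Sm) ≤ J * ((1 + K₃) * xm + K₃ * D + 2 * η') :=
    mul_le_mul_of_nonneg_left (by linarith) hJ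
  have a4 : e * L * T * K₃ ≤ L * Rp * K₃ := mul_le_mul_of_nonneg_right heLT' hK₃
  have a5 : L * Rp * K₃ ≤ L * Rp * K₃ * u := le_mul_of_one_le_right hLK hu
  have a6 : J * K₃ ≤ J * K₃ * u := le_mul_of_one_le_right hJK hu
  have a7 : 0 ≤ L * Rp * (1 + K₃) * u := mul_nonneg hLL (by linarith)
  have a8 : 0 ≤ ((2 + L * Rp * K₃ + J * K₃ + L * Rp * (1 + K₃)) * u -
      ((u + 1) + e * L * T * K₃ + J * K₃)) * (D + η') := by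
    refine mul_nonneg ?_ (by linarith)
    have : (2 + L * Rp * K₃ + J * K₃ + L * Rp * (1 + K₃)) * u = 2 * u + L * Rp * K₃ * u +
      J * K₃ * u + L * Rp * (1 + K₃) * u := by ring
    linarith
  have a9 : 0 ≤ ((u + 1) + e * L * T * K₃ + J * K₃) * η' := by positivity
  have b1 : L * T * (1 + K₃) ≤ (2 + L * Rp * K₃ + J * K₃ + L * Rp * (1 + K₃)) * o := by
    have c1 : L * T ≤ L * (Rp * o) := mul_le_mul_of_nonneg_left hTo hL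
    have c2 := mul_le_mul_of_nonneg_right c1 (by linarith : (0 : ℝ) ≤ 1 + K₃)
    have c3 : 0 ≤ (2 + L * Rp * K₃ + J * K₃) * o := by positivity
    have c4 : (2 + L * Rp * K₃ + J * K₃ + L * Rp * (1 + K₃)) * o =
      (2 + L * Rp * K₃ + J * K₃) * o + L * (Rp * o) * (1 + K₃) := by ring
    linarith
  have b2 := mul_le_mul_of_nonneg_right b1 (mul_nonneg he hx1)
  have b3 := mul_le_mul_of_nonneg_right heLT' (by positivity : (0 : ℝ) ≤ 2 * η')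
  nlinarith [a1, a2, a3, a8, a9, b2, b3]

theorem err_c (HL : HypL d (1 + a) s b C Ca cb) (E : EP s a β) (A₁ : ℝ) (hA₁ : 0 ≤ A₁) :
    ∃ K : ℝ, 0 ≤ K ∧ ∀ R₁ : ℝ, 1 ≤ R₁ → ∃ K₁ : ℝ, 0 ≤ K₁ ∧ ∀ ε : ℝ, 0 < ε → ε ≤ 1 →
      ∀ (Cl : ℕ → ℝ) (η : ℝ), 0 < η → ∃ δ₀ > 0, ∀ δ ∈ Ioc (0 : ℝ) δ₀, ∀ g : Vec d → ℝ,
      UNice Cl g → ∀ (v₀ : Vec d) (V₁ : ℝ), 1 ≤ V₁ → ∀ ψ : Vec d → ℝ, Cusp s a β v₀ V₁ A₁ ψ →
      |∫ w, boltzQ (1 + a) b g w * ψ w| ≤ K₁ / ε * Dn (1 + a) b δ g +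
        ε * K₁ * om β V₁ R₁ * XN a β 1 g + K * XN a β (max V₁ R₁) g + η := by
  have H := HL.H
  have hβ1 : β ≤ 1 := E.hβ1.le
  obtain ⟨K₂, hK₂, hcut⟩ := cusp_cut H E
  obtain ⟨K₃, hK₃, hsing⟩ := sing_G HL E
  have hL : 0 ≤ K₂ * A₁ ^ 2 := by positivity
  have hJ : 0 ≤ K₂ * (A₁ + A₁ ^ 2) := by positivity
  refine ⟨K₂ * (A₁ + A₁ ^ 2) * (1 + K₃), by positivity, fun R₁ hR₁ => ?_⟩
  have hR0 : 0 ≤ R₁ ^ 2 := by positivity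
  set K₁ : ℝ := 2 + K₂ * A₁ ^ 2 * R₁ ^ 2 * K₃ + K₂ * (A₁ + A₁ ^ 2) * K₃ +
    K₂ * A₁ ^ 2 * R₁ ^ 2 * (1 + K₃) with hK₁
  have hK₁0 : 0 ≤ K₁ := by positivity
  refine ⟨K₁, hK₁0, fun ε hε hε1 Cl η hη => ?_⟩
  have hu : 1 ≤ 1 / ε := by
    rw [le_div_iff₀ hε]
    linarith
  have hu0 : 0 ≤ 1 / ε := by linarith
  set B : ℝ := K₁ * (1 / ε) + (1 / ε + 1) + 2 * (K₂ * A₁ ^ 2 * R₁ ^ 2) +
    2 * (K₂ * (A₁ + A₁ ^ 2)) + 1 with hB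
  have hB0 : 0 < B := by positivity
  set η' : ℝ := η / B with hη'
  have hη'0 : 0 < η' := div_pos hη hB0
  have hηB : B * η' = η := by
    rw [hη']
    field_simp
  obtain ⟨δa, hδa, hδah, htra⟩ := tra H Cl (A₁ * ((d : ℝ) + 1)) hη'0
  obtain ⟨δb, hδb, hδbh, hPc⟩ := Pc_lim H Cl hη'0
  obtain ⟨δc, hδc, hXN⟩ := XN_reg (d := d) E Cl hη'0
  obtain ⟨δe, hδe, hSS⟩ := hsing Cl η' hη'0
  refine ⟨min (min δa δb) (min δc δe), lt_min (lt_min hδa hδb) (lt_min hδc hδe), ?_⟩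
  intro δ hδ g hg v₀ V₁ hV₁ ψ hψ
  have hd0 : 0 < δ := hδ.1
  have hda : δ ≤ δa := hδ.2.trans ((min_le_left _ _).trans (min_le_left _ _))
  have hdb : δ ≤ δb := hδ.2.trans ((min_le_left _ _).trans (min_le_right _ _))
  have hdc : δ ≤ δc := hδ.2.trans ((min_le_right _ _).trans (min_le_left _ _))
  have hde : δ ≤ δe := hδ.2.trans ((min_le_right _ _).trans (min_le_right _ _))
  have hd1 : δ ≤ 1 := by linarith
  have hVm : 1 ≤ max V₁ R₁ := hV₁.trans (le_max_left _ _)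
  have hPG := cu_PG E hV₁ hA₁ hψ
  have hG := gd_reg hg hd0 hd1
  obtain ⟨hDn, hev⟩ := hPc δ ⟨hd0, hdb⟩ g hg
  have hx1 := hXN δ ⟨hd0, hdc⟩ g hg 1 le_rfl
  have hx2 := hXN δ ⟨hd0, hdc⟩ g hg (max V₁ R₁) hVm
  have hs1 := hSS δ ⟨hd0, hde⟩ g hg 1 le_rfl v₀
  have hs2 := hSS δ ⟨hd0, hde⟩ g hg (max V₁ R₁) hVm v₀
  have hX0 : 0 ≤ XN a β 1 g := XN_nonneg hg.nonneg le_rfl
  have hlim := (boltz_weak_tendsto H hg.nice hPG hψ.meas).abs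
  refine le_of_tendsto hlim ?_
  filter_upwards [hev, self_mem_nhdsWithin] with e hPe he
  have he0 : 0 < e := he
  have t1 := htra δ ⟨hd0, hda⟩ g hg ψ hψ.meas (cu_lin E hV₁ hA₁ hψ) e he0
  have t2 := hcut R₁ hR₁ ε hε _ hG e he0 V₁ hV₁ A₁ hA₁ v₀ ψ hψ
  have ho : 0 ≤ om β V₁ R₁ := om_nn hV₁ (by linarith)
  have ho1 : om β V₁ R₁ ≤ 1 := om_le1 hβ1 hV₁ (by linarith)
  have hoo : om β V₁ R₁ ^ 2 ≤ om β V₁ R₁ := by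
    rw [sq]
    exact mul_le_of_le_one_left ho ho1
  have hT0 : 0 ≤ R₁ ^ 2 * om β V₁ R₁ ^ 2 := by positivity
  have hTo : R₁ ^ 2 * om β V₁ R₁ ^ 2 ≤ R₁ ^ 2 * om β V₁ R₁ := mul_le_mul_of_nonneg_left hoo hR0
  have hTR : R₁ ^ 2 * om β V₁ R₁ ^ 2 ≤ R₁ ^ 2 := hTo.trans (mul_le_of_le_one_right hR0 ho1)
  have hQ : |∫ v, boltzCut (1 + a) b e g v * ψ v| ≤
      (1 / ε + 1) * Pc (1 + a) b e (fun v => g v + δ * gau v) +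
      ε * (K₂ * A₁ ^ 2) * (R₁ ^ 2 * om β V₁ R₁ ^ 2) *
        (XN a β 1 (fun v => g v + δ * gau v) + SS s a β 1 v₀ (fun v => g v + δ * gau v)) +
      K₂ * (A₁ + A₁ ^ 2) * (XN a β (max V₁ R₁) (fun v => g v + δ * gau v) +
        SS s a β (max V₁ R₁) v₀ (fun v => g v + δ * gau v)) + η' := by
    have t3 : ε * (K₂ * A₁ ^ 2) * (R₁ ^ 2 * om β V₁ R₁ ^ 2) = ε * K₂ * A₁ ^ 2 *
      (R₁ ^ 2 * om β V₁ R₁ ^ 2) := by ring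
    rw [t3]
    linarith
  have fin := erc_arith hu hε.le hε1 hK₃ hL hJ hT0 hTR hTo hR0 ho hη'0.le hDn hX0 hQ hPe
    hx1 hx2 hs1 hs2
  rw [← hK₁, ← hB, hηB] at fin
  have f1 : K₁ / ε = K₁ * (1 / ε) := by ring
  rw [f1]
  exact fin

end Pool.Agent.H87.PF
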