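import Pool.Agent.H87.PF.Base

/-!
# Module Geo: the swapped annulus

`v' = post v w σ`, `w' = post' v w σ`, `ρ = len (v - v₀)`, `ρ' = len (v' - v₀)`, `L = len (v - w)`, `y = 1 - cosTh v w σ`. `coll (v,w,σ) = (v', w', dirk v w)`, so `AnnS` says (`len_post`/`nsq_coll`, `cosTh_coll`):
`0 < ρ' ≤ 1`, `12Λρ' ≤ L`, `tL² ≤ 2Λ²ρ'²`, `2Λ²ρ'² ≤ L²y ≤ 64Λ²ρ'²`. By `nsq_post_sub` `D = len (v' - v)` has `D² = L²y/2`, so `D ≥ Λρ'`.
Triangle (`len_add_le`, `len_le_add_sub`): `ρ ≥ D - ρ' ≥ (Λ-1)ρ' ≥ (Λ/2)ρ' > 0`: so `ρ > 0`, `ρ' ≤ (2/Λ)ρ`, `tL² ≤ 2Λ²ρ'² ≤ 8ρ² ≤ 2Λ²ρ²`.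
`D ≥ ρ - ρ' ≥ ρ/2` (`Λ ≥ 4`), so `y = 2D²/L² ≥ ρ²/(2L²)`. Last: `v' - v₀ = (L/2)(σ - c)` with `c = (2/L)(v₀ - (v+w)/2)` (coordinates), so `nsq (σ - c) = 4ρ'²/L² ≤ (4ρ/(ΛL))²`.
-/

set_option autoImplicit false

open MeasureTheory Set Filter Topology Pool.Agent.H25.Kin Pool.Agent.H48.PL

namespace Pool.Agent.H87.PF

variable {d : ℕ}

theorem geo {Λ t : ℝ} (hΛ : 4 ≤ Λ) {v₀ v w σ : Vec d} (hvw : v ≠ w) (hσ : nsq σ = 1)
    (h : coll (v, w, σ) ∈ AnnS Λ t v₀) :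
    (v, w) ∈ PrS Λ t v₀ ∧ len (post v w σ - v₀) ≤ 2 / Λ * len (v - v₀) ∧
      nsq (v - v₀) / (2 * nsq (v - w)) ≤ 1 - cosTh v w σ ∧
      nsq (σ - (2 / len (v - w)) • (v₀ - (1 / 2 : ℝ) • (v + w))) ≤
        (4 * len (v - v₀) / (Λ * len (v - w))) ^ 2 := by
  have hL0 : 0 < len (v - w) := len_pos (sub_ne_zero.2 hvw)
  have hN0 : 0 < nsq (v - w) := by
    rw [← len_sq]
    positivity
  obtain ⟨h1, -, -, h4, h5, -⟩ := h
  rw [nsq_coll hσ] at h4 h5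
  rw [cosTh_coll hvw hσ] at h5
  have e1 : (coll (v, w, σ)).1 = post v w σ := rfl
  rw [e1] at h1 h4 h5
  set r' := len (post v w σ - v₀) with hr'
  set r := len (v - v₀) with hr
  set D := len (post v w σ - v) with hD
  have hr0 : 0 ≤ r := len_nonneg _
  have hD0 : 0 ≤ D := len_nonneg _
  have hrsq : nsq (v - v₀) = r ^ 2 := (len_sq _).symm
  have hr'sq : nsq (post v w σ - v₀) = r' ^ 2 := (len_sq _).symm
  have hDsq : D ^ 2 = nsq (v - w) * ((1 - cosTh v w σ) / 2) := by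
    rw [hD, len_sq, nsq_post_sub hvw hσ]
  rw [hr'sq] at h4 h5
  have hD1 : Λ * r' ≤ D := by
    have : (Λ * r') ^ 2 ≤ D ^ 2 := by
      rw [hDsq]
      nlinarith
    exact le_of_sq_le_sq this hD0
  have hD2 : D ≤ r' + r := by
    have h6 := len_add_le (post v w σ - v₀) (v₀ - v)
    rw [sub_add_sub_cancel, len_comm v₀ v] at h6
    exact h6
  have hr2 : r ≤ r' + D := by
    have h6 := len_add_le (post v w σ - v₀) (v - post v w σ)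
    rw [add_comm, sub_add_sub_cancel, len_comm v (post v w σ)] at h6
    exact h6
  have hΛ0 : 0 < Λ := by linarith
  have h7 : Λ * r' ≤ 2 * r := by nlinarith
  have h8 : r' ≤ 2 / Λ * r := by
    rw [div_mul_eq_mul_div, le_div_iff₀ hΛ0]
    linarith
  have h9 : 4 * r' ≤ Λ * r' := by nlinarith
  have h10 : 0 < r := by nlinarith
  have h11 : r / 2 ≤ D := by linarith
  refine ⟨⟨h10, ?_⟩, h8, ?_, ?_⟩
  · show t * nsq (v - w) ≤ 2 * Λ ^ 2 * nsq (v - v₀)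
    rw [hrsq]
    have h12 : r' ^ 2 ≤ r ^ 2 := pow_le_pow_left₀ h1.le (by linarith) 2
    have : 2 * Λ ^ 2 * r' ^ 2 ≤ 2 * Λ ^ 2 * r ^ 2 := mul_le_mul_of_nonneg_left h12 (by positivity)
    linarith
  · rw [hrsq, div_le_iff₀ (by positivity)]
    have : (r / 2) ^ 2 ≤ D ^ 2 := pow_le_pow_left₀ (by linarith) h11 2
    nlinarith
  · have e2 : σ - (2 / len (v - w)) • (v₀ - (1 / 2 : ℝ) • (v + w)) =
        (2 / len (v - w)) • (post v w σ - v₀) := by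
      funext i
      simp only [post, Pi.sub_apply, Pi.smul_apply, Pi.add_apply, smul_eq_mul]
      field_simp
      ring
    rw [e2, nsq_smul, hr'sq]
    have h12 : r' ^ 2 ≤ (2 / Λ * r) ^ 2 := pow_le_pow_left₀ h1.le h8 2
    calc (2 / len (v - w)) ^ 2 * r' ^ 2 ≤ (2 / len (v - w)) ^ 2 * (2 / Λ * r) ^ 2 :=
          mul_le_mul_of_nonneg_left h12 (by positivity)
      _ = (4 * r / (Λ * len (v - w))) ^ 2 := by
          field_simp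
          ring

end Pool.Agent.H87.PF
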