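import Pool.Agent.H87.PF.Base

/-!
# Module WInt: integrability and regularisation

`wN ≤ 16 RR² ≤ 64 (jb v * jb w)²` (`len_le_RR`, `1+a+β ≤ 2`... `len^(1+a) ≤ (2RR)^(1+a) ≤ 4RR²`, and `len^(1+a+β) ≤ (2RR)^3 = 8 RR³`; `om ≤ 1`; `RR ≤ jb v + jb w ≤ 2 jb v jb w`), see `dens_integrable` (H48/PL/XB.lean).
`wS_int`: `len (v-w)^(1+a+2s) ≤ (2RR)^3 ≤ 64 (jb v jb w)^3`, and `len (v-v₀)^(-(2s-a)) ≤ ‖v-v₀‖^(-(2s-a))`; `v ↦ |G v| jb v^3 ‖v-v₀‖^(-b')` is integrable by `int_norm_rpow hd (-2 < -b' ≤ 0)` and the decay of `G jb³`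
(as `Real_term2` in H82/BK/Real.lean, copy); times the integrable `|G w| jb w^3` (`Integrable.mul_prod`). Measurability: `wN_meas`, `wS_meas`.
`XN_reg`: `G = g + δ gau`: `G G_* - g g_* = δ (g gau_* + gau g_*) + δ² gau gau_*`, `0 ≤ wN ≤ 64·…(jb v jb w)^3`, `0 ≤ g ≤ Cl`-decay (`UNice`: `hg` gives `g v ≤ K(Cl) wt`-type bounds, see `XS_reg` in H48/PL/EntB.lean and `XW_reg` in H87/PE/Tra.lean),
so the difference is `≤ δ K(Cl)` uniformly in `V ≥ 1`. `XN_le`: `wN ≤ 2 len^(1+a) ≤ 2·[weight of Xn]` if `len ≤ 1`, and `≤ 2 len^(1+a+β) = 2 len^(1+β) len^a ≤ 4 len^(1+β) RR^a` if `len > 1` (weight of `Xb`);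
`dens β g p * wb = g g_* len^(1+β) RR^a om`, `dens a g p * wn = g g_* len^(1+a) [len ≤ 1] om` (`RR > 0`). `XN_mono`: `om` monotone. `SS_mono`: `g ≤ G`.
-/

set_option autoImplicit false

open MeasureTheory Set Filter Topology Pool.Agent.H25.Kin Pool.Agent.H48.PL
open Pool.Agent.H15.AV (gau UNice)
open Pool.Agent.H48.PI (om)
open Pool.Agent.H48.PW (sP)

namespace Pool.Agent.H87.PF

variable {d : ℕ} {s a β : ℝ}

private lemma wint_RR3 (v w : Vec d) :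
    RR v w ^ 3 ≤ (2 * ((d : ℝ) + 1) ^ 2) ^ 3 * ((1 + ‖v‖) ^ 3 * (1 + ‖w‖) ^ 3) := by
  have hR1 := one_le_RR v w
  have hd0 : (0 : ℝ) ≤ d := Nat.cast_nonneg d
  have hwv := w_pos v
  have hww := w_pos w
  have h4 : RR v w ≤ 2 * ((d : ℝ) + 1) ^ 2 * ((1 + ‖v‖) * (1 + ‖w‖)) := by
    have q1 := RR_le v w
    have q2 := jb_le_w v
    have q3 := jb_le_w w
    have q4 := one_le_w v
    have q5 := one_le_w w
    have q6 : 1 + ‖v‖ ≤ (1 + ‖v‖) * (1 + ‖w‖) := le_mul_of_one_le_right hwv.le q5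
    have q7 : 1 + ‖w‖ ≤ (1 + ‖v‖) * (1 + ‖w‖) := le_mul_of_one_le_left hww.le q4
    have q8 : (d : ℝ) + 1 ≤ ((d : ℝ) + 1) ^ 2 := by nlinarith
    have q9 : 0 ≤ (1 + ‖v‖) * (1 + ‖w‖) := by positivity
    have q10 : ((d : ℝ) + 1) * (1 + ‖v‖) ≤ ((d : ℝ) + 1) ^ 2 * ((1 + ‖v‖) * (1 + ‖w‖)) :=
      mul_le_mul q8 q6 hwv.le (by positivity)
    have q11 : ((d : ℝ) + 1) * (1 + ‖w‖) ≤ ((d : ℝ) + 1) ^ 2 * ((1 + ‖v‖) * (1 + ‖w‖)) :=
      mul_le_mul q8 q7 hww.le (by positivity)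
    linarith
  have h5 : RR v w ^ 3 ≤ (2 * ((d : ℝ) + 1) ^ 2 * ((1 + ‖v‖) * (1 + ‖w‖))) ^ 3 :=
    pow_le_pow_left₀ (by linarith) h4 3
  calc RR v w ^ 3 ≤ (2 * ((d : ℝ) + 1) ^ 2 * ((1 + ‖v‖) * (1 + ‖w‖))) ^ 3 := h5
    _ = (2 * ((d : ℝ) + 1) ^ 2) ^ 3 * ((1 + ‖v‖) ^ 3 * (1 + ‖w‖) ^ 3) := by ring

private lemma wint_len {e : ℝ} (h0 : 0 ≤ e) {n : ℕ} (he : e ≤ n) (v w : Vec d) :
    len (v - w) ^ e ≤ (2 * RR v w) ^ n := by
  have hR1 := one_le_RR v w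
  calc len (v - w) ^ e ≤ (2 * RR v w) ^ e := Real.rpow_le_rpow (len_nonneg _) (len_le_RR v w) h0
    _ ≤ (2 * RR v w) ^ (n : ℝ) := Real.rpow_le_rpow_of_exponent_le (by linarith) he
    _ = (2 * RR v w) ^ n := Real.rpow_natCast _ _

lemma wN_nonneg {V : ℝ} (hV : 1 ≤ V) (q : Vec d × Vec d) : 0 ≤ wN a β V q := by
  unfold wN
  have h1 : 0 ≤ len (q.1 - q.2) ^ (1 + a) := Real.rpow_nonneg (len_nonneg _) _
  have h2 : 0 ≤ len (q.1 - q.2) ^ β := Real.rpow_nonneg (len_nonneg _) _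
  exact mul_nonneg (mul_nonneg h1 (by linarith)) (om_nn hV (RR_pos _ _).le)

lemma wS_nonneg {V : ℝ} (hV : 1 ≤ V) (v₀ : Vec d) (q : Vec d × Vec d) :
    0 ≤ wS s a β V v₀ q := by
  unfold wS
  have h1 : 0 ≤ len (q.1 - q.2) ^ (1 + a + 2 * s) := Real.rpow_nonneg (len_nonneg _) _
  have h2 : 0 ≤ len (q.1 - v₀) ^ (2 * (a - sP s a)) := Real.rpow_nonneg (len_nonneg _) _
  exact mul_nonneg (mul_nonneg h1 h2) (om_nn hV (RR_pos _ _).le)

private noncomputable def wintW (d : ℕ) : ℝ := 16 * (2 * ((d : ℝ) + 1) ^ 2) ^ 3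

private lemma wintW_nonneg (d : ℕ) : 0 ≤ wintW d := by
  unfold wintW
  positivity

private lemma wint_wN_le (E : EP s a β) {V : ℝ} (hV : 1 ≤ V) (v w : Vec d) :
    wN a β V (v, w) ≤ wintW d * ((1 + ‖v‖) ^ 3 * (1 + ‖w‖) ^ 3) := by
  have hR1 := one_le_RR v w
  obtain ⟨o0, o1⟩ := om_RR (β := β) E.hβ1.le hV v w
  have h1 : len (v - w) ^ (1 + a) ≤ (2 * RR v w) ^ 2 :=
    wint_len (by linarith [E.ha]) (by push_cast; linarith [E.a1]) v w
  have h2 : len (v - w) ^ β ≤ (2 * RR v w) ^ 1 :=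
    wint_len E.β0.le (by push_cast; linarith [E.hβ1]) v w
  have n1 : 0 ≤ len (v - w) ^ (1 + a) := Real.rpow_nonneg (len_nonneg _) _
  have n2 : 0 ≤ len (v - w) ^ β := Real.rpow_nonneg (len_nonneg _) _
  have h3 : len (v - w) ^ (1 + a) * (1 + len (v - w) ^ β) ≤ (2 * RR v w) ^ 2 * (4 * RR v w) := by
    refine mul_le_mul h1 ?_ (by linarith) (by positivity)
    rw [pow_one] at h2
    linarith
  have h4 : (len (v - w) ^ (1 + a) * (1 + len (v - w) ^ β)) * om β V (RR v w) ≤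
      (2 * RR v w) ^ 2 * (4 * RR v w) := by
    refine le_trans (mul_le_of_le_one_right (mul_nonneg n1 (by linarith)) o1) h3
  have h5 := wint_RR3 v w
  show len (v - w) ^ (1 + a) * (1 + len (v - w) ^ β) * om β V (RR v w) ≤ _
  calc len (v - w) ^ (1 + a) * (1 + len (v - w) ^ β) * om β V (RR v w)
      ≤ (2 * RR v w) ^ 2 * (4 * RR v w) := h4
    _ = 16 * RR v w ^ 3 := by ring
    _ ≤ 16 * ((2 * ((d : ℝ) + 1) ^ 2) ^ 3 * ((1 + ‖v‖) ^ 3 * (1 + ‖w‖) ^ 3)) := by linarith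
    _ = wintW d * ((1 + ‖v‖) ^ 3 * (1 + ‖w‖) ^ 3) := by unfold wintW; ring

private lemma wint_b {h : ℝ} {v : Vec d} {M : ℝ} {n : ℕ}
    (hb : (1 + ‖v‖) ^ (n + 3) * h ≤ M) : h * (1 + ‖v‖) ^ 3 ≤ M * ((1 + ‖v‖) ^ n)⁻¹ := by
  have hw := w_pos v
  rw [← div_eq_mul_inv, le_div_iff₀ (pow_pos hw _)]
  calc h * (1 + ‖v‖) ^ 3 * (1 + ‖v‖) ^ n = (1 + ‖v‖) ^ (n + 3) * h := by ring
    _ ≤ M := hb

private lemma wint_rd {G : Vec d → ℝ} (hG : RD G) (n : ℕ) :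
    ∃ K, 0 ≤ K ∧ ∀ v, ‖G v‖ * (1 + ‖v‖) ^ 3 ≤ K * ((1 + ‖v‖) ^ n)⁻¹ := by
  obtain ⟨K, hK⟩ := hG (n + 3)
  refine ⟨K, ?_, fun v => wint_b (hK v)⟩
  exact le_trans (by positivity) (hK 0)

theorem wN_int (E : EP s a β) {G : Vec d → ℝ} (hG : RD G) (hGc : Continuous G) {V : ℝ}
    (hV : 1 ≤ V) : Integrable fun q : Vec d × Vec d => G q.1 * G q.2 * wN a β V q := by
  obtain ⟨K, hK0, hK⟩ := wint_rd hG (d + 1)
  have iw : Integrable fun p : Vec d × Vec d => wt d p.1 * wt d p.2 :=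
    (integrable_wt (d := d)).mul_prod integrable_wt
  have hm : Measurable fun q : Vec d × Vec d => G q.1 * G q.2 * wN a β V q :=
    ((hGc.measurable.comp measurable_fst).mul (hGc.measurable.comp measurable_snd)).mul
      (wN_meas E.hβ1.le a V)
  refine (iw.const_mul (wintW d * (K * K))).mono' hm.aestronglyMeasurable
    (Eventually.of_forall fun q => ?_)
  obtain ⟨v, w⟩ := q
  have h1 := wint_wN_le E hV v w
  have h0 := wN_nonneg (a := a) (β := β) hV (v, w)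
  have e1 : ‖G v‖ * (1 + ‖v‖) ^ 3 ≤ K * wt d v := hK v
  have e2 : ‖G w‖ * (1 + ‖w‖) ^ 3 ≤ K * wt d w := hK w
  have hv := w_pos v
  have hw := w_pos w
  rw [norm_mul, norm_mul, Real.norm_eq_abs (wN a β V (v, w)), abs_of_nonneg h0]
  calc ‖G v‖ * ‖G w‖ * wN a β V (v, w)
      ≤ ‖G v‖ * ‖G w‖ * (wintW d * ((1 + ‖v‖) ^ 3 * (1 + ‖w‖) ^ 3)) :=
        mul_le_mul_of_nonneg_left h1 (by positivity)
    _ = wintW d * ((‖G v‖ * (1 + ‖v‖) ^ 3) * (‖G w‖ * (1 + ‖w‖) ^ 3)) := by ring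
    _ ≤ wintW d * ((K * wt d v) * (K * wt d w)) := by
        refine mul_le_mul_of_nonneg_left ?_ (wintW_nonneg d)
        exact mul_le_mul e1 e2 (by positivity) (mul_nonneg hK0 (wt_nonneg v))
    _ = wintW d * (K * K) * (wt d v * wt d w) := by ring

private lemma wint_len_rpow_le {μ : ℝ} (hμ : μ ≤ 0) (z : Vec d) : len z ^ μ ≤ ‖z‖ ^ μ := by
  by_cases hz : z = 0
  · rw [hz, len_zero, norm_zero]
  · exact Real.rpow_le_rpow_of_nonpos (norm_pos_iff.2 hz) (norm_le_len z) hμ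

private lemma wint_sing (hd : 2 ≤ d) {G : Vec d → ℝ} (hG : RD G) (hGc : Continuous G) {μ : ℝ}
    (h1 : -2 < μ) (h2 : μ ≤ 0) (v₀ : Vec d) :
    Integrable fun z : Vec d => ‖G z‖ * (1 + ‖z‖) ^ 3 * len (z - v₀) ^ μ := by
  obtain ⟨K, hK0, hK⟩ := wint_rd hG (d + 3)
  have i1 := ((int_norm_rpow hd h1 h2).comp_sub_right v₀).const_mul (K * (1 + ‖v₀‖) ^ (d + 3))
  have hm : Measurable fun z : Vec d => ‖G z‖ * (1 + ‖z‖) ^ 3 * len (z - v₀) ^ μ := by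
    have c1 : Continuous fun z : Vec d => ‖G z‖ * (1 + ‖z‖) ^ 3 := by fun_prop
    exact c1.measurable.mul
      ((continuous_len.comp (continuous_id.sub continuous_const)).measurable.pow_const μ)
  refine i1.mono' hm.aestronglyMeasurable (Eventually.of_forall fun z => ?_)
  have hl := Real.rpow_nonneg (len_nonneg (z - v₀)) μ
  have hnn := Real.rpow_nonneg (norm_nonneg (z - v₀)) μ
  have hw := w_pos (z - v₀)
  have hv := w_pos v₀
  have hz := w_pos z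
  rw [Real.norm_eq_abs, abs_of_nonneg (by positivity)]
  have e1 : ((1 + ‖z‖) ^ (d + 3))⁻¹ ≤ (1 + ‖v₀‖) ^ (d + 3) * ((1 + ‖z - v₀‖) ^ (d + 3))⁻¹ := by
    have e2 : (1 + ‖z - v₀‖) ^ (d + 3) ≤ (1 + ‖v₀‖) ^ (d + 3) * (1 + ‖z‖) ^ (d + 3) := by
      rw [← mul_pow]
      refine pow_le_pow_left₀ hw.le ?_ _
      have := norm_sub_le z v₀
      nlinarith [norm_nonneg z, norm_nonneg v₀, mul_nonneg (norm_nonneg v₀) (norm_nonneg z)]
    rw [inv_eq_one_div, div_le_iff₀ (pow_pos hz _), mul_assoc,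
      mul_comm ((1 + ‖z - v₀‖) ^ (d + 3))⁻¹,
      ← mul_assoc, ← div_eq_mul_inv, le_div_iff₀ (pow_pos hw _), one_mul]
    exact e2
  calc ‖G z‖ * (1 + ‖z‖) ^ 3 * len (z - v₀) ^ μ
      ≤ (K * ((1 + ‖z‖) ^ (d + 3))⁻¹) * ‖z - v₀‖ ^ μ :=
        mul_le_mul (hK z) (wint_len_rpow_le h2 _) hl
          (mul_nonneg hK0 (inv_nonneg.2 (pow_nonneg hz.le _)))
    _ ≤ (K * ((1 + ‖v₀‖) ^ (d + 3) * ((1 + ‖z - v₀‖) ^ (d + 3))⁻¹)) * ‖z - v₀‖ ^ μ := by
        gcongr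
    _ = K * (1 + ‖v₀‖) ^ (d + 3) * (‖z - v₀‖ ^ μ * ((1 + ‖z - v₀‖) ^ (d + 3))⁻¹) := by ring

theorem wS_int (hd : 2 ≤ d) (E : EP s a β) {G : Vec d → ℝ} (hG : RD G) (hGc : Continuous G)
    {V : ℝ} (hV : 1 ≤ V) (v₀ : Vec d) :
    Integrable fun q : Vec d × Vec d => G q.1 * G q.2 * wS s a β V v₀ q := by
  have b0 := E.b0
  have b1 := E.b1
  have i1 := wint_sing hd hG hGc (μ := 2 * (a - sP s a)) (by linarith) (by linarith) v₀
  have i2 : Integrable fun z : Vec d => ‖G z‖ * (1 + ‖z‖) ^ 3 := by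
    obtain ⟨K, hK0, hK⟩ := wint_rd hG (d + 1)
    have c1 : Continuous fun z : Vec d => ‖G z‖ * (1 + ‖z‖) ^ 3 := by fun_prop
    refine ((integrable_wt (d := d)).const_mul K).mono' c1.aestronglyMeasurable
      (Eventually.of_forall fun z => ?_)
    have hz := w_pos z
    rw [Real.norm_eq_abs, abs_of_nonneg (by positivity)]
    exact hK z
  have i3 := (i1.mul_prod i2).const_mul (wintW d)
  have hm : Measurable fun q : Vec d × Vec d => G q.1 * G q.2 * wS s a β V v₀ q :=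
    ((hGc.measurable.comp measurable_fst).mul (hGc.measurable.comp measurable_snd)).mul
      (wS_meas E.hβ1.le s a V v₀)
  refine i3.mono' hm.aestronglyMeasurable (Eventually.of_forall fun q => ?_)
  obtain ⟨v, w⟩ := q
  have h0 := wS_nonneg (s := s) (a := a) (β := β) hV v₀ (v, w)
  have hR1 := one_le_RR v w
  obtain ⟨o0, o1⟩ := om_RR (β := β) E.hβ1.le hV v w
  have h1 : len (v - w) ^ (1 + a + 2 * s) ≤ (2 * RR v w) ^ 3 :=
    wint_len (by linarith [E.ha, E.hs]) (by push_cast; linarith [E.a1, E.hβ, E.hβ1]) v w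
  have n1 : 0 ≤ len (v - w) ^ (1 + a + 2 * s) := Real.rpow_nonneg (len_nonneg _) _
  have n2 : 0 ≤ len (v - v₀) ^ (2 * (a - sP s a)) := Real.rpow_nonneg (len_nonneg _) _
  have h5 := wint_RR3 v w
  have hv := w_pos v
  have hw := w_pos w
  have h6 : (2 * RR v w) ^ 3 ≤ wintW d * ((1 + ‖v‖) ^ 3 * (1 + ‖w‖) ^ 3) := by
    have h7 : 0 ≤ (2 * ((d : ℝ) + 1) ^ 2) ^ 3 * ((1 + ‖v‖) ^ 3 * (1 + ‖w‖) ^ 3) := by positivity
    calc (2 * RR v w) ^ 3 = 8 * RR v w ^ 3 := by ring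
      _ ≤ 8 * ((2 * ((d : ℝ) + 1) ^ 2) ^ 3 * ((1 + ‖v‖) ^ 3 * (1 + ‖w‖) ^ 3)) := by linarith
      _ ≤ 16 * ((2 * ((d : ℝ) + 1) ^ 2) ^ 3 * ((1 + ‖v‖) ^ 3 * (1 + ‖w‖) ^ 3)) := by linarith
      _ = wintW d * ((1 + ‖v‖) ^ 3 * (1 + ‖w‖) ^ 3) := by unfold wintW; ring
  have h8 : wS s a β V v₀ (v, w) ≤
      wintW d * ((1 + ‖v‖) ^ 3 * (1 + ‖w‖) ^ 3) * len (v - v₀) ^ (2 * (a - sP s a)) := by
    show len (v - w) ^ (1 + a + 2 * s) * len (v - v₀) ^ (2 * (a - sP s a)) * om β V (RR v w) ≤ _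
    refine le_trans (mul_le_of_le_one_right (mul_nonneg n1 n2) o1) ?_
    exact mul_le_mul_of_nonneg_right (h1.trans h6) n2
  rw [norm_mul, norm_mul, Real.norm_eq_abs (wS s a β V v₀ (v, w)), abs_of_nonneg h0]
  calc ‖G v‖ * ‖G w‖ * wS s a β V v₀ (v, w)
      ≤ ‖G v‖ * ‖G w‖ * (wintW d * ((1 + ‖v‖) ^ 3 * (1 + ‖w‖) ^ 3) *
          len (v - v₀) ^ (2 * (a - sP s a))) := mul_le_mul_of_nonneg_left h8 (by positivity)
    _ = wintW d * ((‖G v‖ * (1 + ‖v‖) ^ 3 * len (v - v₀) ^ (2 * (a - sP s a))) *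
          (‖G w‖ * (1 + ‖w‖) ^ 3)) := by ring

private theorem wint_gau_pos (v : Vec d) : 0 < gau v := Real.exp_pos _

theorem XN_reg (E : EP s a β) (Cl : ℕ → ℝ) {η : ℝ} (hη : 0 < η) :
    ∃ δ₀ > 0, ∀ δ ∈ Ioc (0 : ℝ) δ₀, ∀ g : Vec d → ℝ, UNice Cl g → ∀ V : ℝ, 1 ≤ V →
      XN a β V (fun v => g v + δ * gau v) ≤ XN a β V g + η := by
  obtain ⟨cg, hcg⟩ : ∃ c, ∀ v : Vec d, (1 + ‖v‖) ^ (d + 4) * ‖gau v‖ ≤ c :=
    (Pool.Agent.H15.AV.nice_gau (d := d)).rd (d + 4)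
  set M : ℝ := max (max (Cl (d + 4)) cg) 0 with hM
  have hM0 : 0 ≤ M := le_max_right _ _
  have hMC : Cl (d + 4) ≤ M := (le_max_left _ _).trans (le_max_left _ _)
  have hMg : cg ≤ M := (le_max_right _ _).trans (le_max_left _ _)
  have hW0 : 0 ≤ wintW d := wintW_nonneg d
  set I : ℝ := (∫ z, wt d z) * ∫ z, wt d z with hI
  have hI1 : 0 ≤ ∫ z, wt d z := integral_nonneg fun z => wt_nonneg z
  have hI0 : 0 ≤ I := mul_nonneg hI1 hI1
  set K : ℝ := 3 * (M * M) * wintW d with hK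
  have hK0 : 0 ≤ K := by positivity
  have hKI : 0 ≤ K * I := mul_nonneg hK0 hI0
  refine ⟨min 1 (η / (K * I + 1)), lt_min one_pos (div_pos hη (by linarith)),
    fun δ hδ g hg V hV => ?_⟩
  have hδ0 : 0 < δ := hδ.1
  have hδ1 : δ ≤ 1 := hδ.2.trans (min_le_left _ _)
  have hδ2 : δ * (K * I) ≤ η := by
    have h1 : δ ≤ η / (K * I + 1) := hδ.2.trans (min_le_right _ _)
    rw [le_div_iff₀ (by linarith)] at h1
    have h2 : δ * (K * I) ≤ δ * (K * I + 1) := mul_le_mul_of_nonneg_left (by linarith) hδ0.le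
    linarith
  obtain ⟨hGrd, hGc, hGpos, -⟩ := reg_props hg hδ0 hδ1
  have iG := wN_int (V := V) E hGrd hGc hV
  have ig := wN_int (V := V) E hg.nice.rd hg.nice.cont hV
  have iw : Integrable fun p : Vec d × Vec d => wt d p.1 * wt d p.2 :=
    (integrable_wt (d := d)).mul_prod integrable_wt
  have bg : ∀ v, g v * (1 + ‖v‖) ^ 3 ≤ M * wt d v := fun v => wint_b (n := d + 1) (by
    have h1 := hg.le (d + 4) v
    have h2 : 0 ≤ (1 + ‖v‖) ^ (d + 4) := pow_nonneg (w_pos v).le _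
    have h3 : (1 + ‖v‖) ^ (d + 4) * g v ≤
        (1 + ‖v‖) ^ (d + 4) * (g v + ‖fderiv ℝ g v‖ + ‖fderiv ℝ (fderiv ℝ g) v‖) :=
      mul_le_mul_of_nonneg_left (by
        have := norm_nonneg (fderiv ℝ g v)
        have := norm_nonneg (fderiv ℝ (fderiv ℝ g) v)
        linarith) h2
    show (1 + ‖v‖) ^ (d + 4) * g v ≤ M
    linarith)
  have bm : ∀ v, gau v * (1 + ‖v‖) ^ 3 ≤ M * wt d v := fun v => wint_b (n := d + 1) (by
    have h1 := hcg v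
    rw [Real.norm_eq_abs, abs_of_pos (wint_gau_pos v)] at h1
    show (1 + ‖v‖) ^ (d + 4) * gau v ≤ M
    linarith)
  have key : ∀ p : Vec d × Vec d,
      (g p.1 + δ * gau p.1) * (g p.2 + δ * gau p.2) * wN a β V p ≤
      g p.1 * g p.2 * wN a β V p + δ * K * (wt d p.1 * wt d p.2) := by
    rintro ⟨v, w⟩
    have hwv := w_pos v
    have hww := w_pos w
    have gv := hg.nonneg v
    have gw := hg.nonneg w
    have mv := (wint_gau_pos v).le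
    have mw := (wint_gau_pos w).le
    have hwt0 := wN_nonneg (a := a) (β := β) hV (v, w)
    have hwt := wint_wN_le E hV v w
    have hS0 : 0 ≤ g v * gau w + gau v * g w + gau v * gau w := by positivity
    have hprod : (g v + δ * gau v) * (g w + δ * gau w) ≤
        g v * g w + δ * (g v * gau w + gau v * g w + gau v * gau w) := by
      have h1 : δ * δ * (gau v * gau w) ≤ δ * (gau v * gau w) := by
        refine mul_le_mul_of_nonneg_right ?_ (mul_nonneg mv mw)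
        nlinarith
      nlinarith
    have hterm : ∀ x y : ℝ, 0 ≤ x → 0 ≤ y → x * (1 + ‖v‖) ^ 3 ≤ M * wt d v →
        y * (1 + ‖w‖) ^ 3 ≤ M * wt d w →
        x * y * ((1 + ‖v‖) ^ 3 * (1 + ‖w‖) ^ 3) ≤ M * M * (wt d v * wt d w) := by
      intro x y hx hy h1 h2
      have h3 : 0 ≤ M * wt d v := mul_nonneg hM0 (wt_nonneg v)
      have := mul_le_mul h1 h2 (mul_nonneg hy (pow_nonneg hww.le _)) h3
      calc x * y * ((1 + ‖v‖) ^ 3 * (1 + ‖w‖) ^ 3)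
          = x * (1 + ‖v‖) ^ 3 * (y * (1 + ‖w‖) ^ 3) := by ring
        _ ≤ M * wt d v * (M * wt d w) := this
        _ = M * M * (wt d v * wt d w) := by ring
    have t1 := hterm (g v) (gau w) gv mw (bg v) (bm w)
    have t2 := hterm (gau v) (g w) mv gw (bm v) (bg w)
    have t3 := hterm (gau v) (gau w) mv mw (bm v) (bm w)
    have hsum : (g v * gau w + gau v * g w + gau v * gau w) * wN a β V (v, w) ≤
        K * (wt d v * wt d w) := by
      have h1 := mul_le_mul_of_nonneg_left hwt hS0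
      have h2 : (g v * gau w + gau v * g w + gau v * gau w) *
          ((1 + ‖v‖) ^ 3 * (1 + ‖w‖) ^ 3) ≤ 3 * (M * M * (wt d v * wt d w)) := by linarith
      have h3 := mul_le_mul_of_nonneg_left h2 hW0
      calc (g v * gau w + gau v * g w + gau v * gau w) * wN a β V (v, w)
          ≤ (g v * gau w + gau v * g w + gau v * gau w) *
            (wintW d * ((1 + ‖v‖) ^ 3 * (1 + ‖w‖) ^ 3)) := h1
        _ = wintW d * ((g v * gau w + gau v * g w + gau v * gau w) *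
            ((1 + ‖v‖) ^ 3 * (1 + ‖w‖) ^ 3)) := by ring
        _ ≤ wintW d * (3 * (M * M * (wt d v * wt d w))) := h3
        _ = K * (wt d v * wt d w) := by rw [hK]; ring
    have h1 := mul_le_mul_of_nonneg_right hprod hwt0
    have h2 := mul_le_mul_of_nonneg_left hsum hδ0.le
    simp only
    calc (g v + δ * gau v) * (g w + δ * gau w) * wN a β V (v, w)
        ≤ (g v * g w + δ * (g v * gau w + gau v * g w + gau v * gau w)) * wN a β V (v, w) := h1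
      _ = g v * g w * wN a β V (v, w) +
          δ * ((g v * gau w + gau v * g w + gau v * gau w) * wN a β V (v, w)) := by ring
      _ ≤ g v * g w * wN a β V (v, w) + δ * K * (wt d v * wt d w) := by
          linarith
  have hmono : XN a β V (fun v => g v + δ * gau v) ≤
      ∫ p : Vec d × Vec d, (g p.1 * g p.2 * wN a β V p + δ * K * (wt d p.1 * wt d p.2)) := by
    unfold XN
    exact integral_mono iG (ig.add (iw.const_mul _)) key
  have hsplit : ∫ p : Vec d × Vec d, (g p.1 * g p.2 * wN a β V p +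
      δ * K * (wt d p.1 * wt d p.2)) = XN a β V g + δ * K * I := by
    unfold XN
    rw [integral_add ig (iw.const_mul _), integral_const_mul, hI]
    congr 2
    exact integral_prod_mul (wt d) (wt d)
  have h4 : δ * K * I = δ * (K * I) := by ring
  linarith

lemma XN_nonneg {G : Vec d → ℝ} (h0 : ∀ v, 0 ≤ G v) {V : ℝ} (hV : 1 ≤ V) : 0 ≤ XN a β V G :=
  integral_nonneg fun q => mul_nonneg (mul_nonneg (h0 _) (h0 _)) (wN_nonneg hV q)

lemma SS_nonneg {G : Vec d → ℝ} (h0 : ∀ v, 0 ≤ G v) {V : ℝ} (hV : 1 ≤ V) (v₀ : Vec d) :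
    0 ≤ SS s a β V v₀ G :=
  integral_nonneg fun q => mul_nonneg (mul_nonneg (h0 _) (h0 _)) (wS_nonneg hV v₀ q)

lemma SS_mono (hd : 2 ≤ d) (E : EP s a β) {g G : Vec d → ℝ} (hg : RD g) (hgc : Continuous g)
    (hG : RD G) (hGc : Continuous G) (h0 : ∀ v, 0 ≤ g v) (h1 : ∀ v, g v ≤ G v) {V : ℝ}
    (hV : 1 ≤ V) (v₀ : Vec d) : SS s a β V v₀ g ≤ SS s a β V v₀ G := by
  unfold SS
  refine integral_mono (wS_int hd E hg hgc hV v₀) (wS_int hd E hG hGc hV v₀) fun q => ?_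
  exact mul_le_mul_of_nonneg_right
    (mul_le_mul (h1 _) (h1 _) (h0 _) ((h0 _).trans (h1 _))) (wS_nonneg hV v₀ q)

end Pool.Agent.H87.PF
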