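import Pool.Agent.H87.PF.AngC
import Pool.Agent.H87.PF.WInt

/-!
# Module IntC: the increments of a cusp function against `B G G_*`

`maj` (Base) for `X = dX ψ ^ 2`, `|dX ψ|`, `(ψ v' - ψ v)²`, `1` (measurable, `PB`: `cu_cont`/`h.meas`, `cu_PG`, `dX_meas`, `dX_PB`, `PB_mul`; see H87/PE/IntH.lean, the proofs of `int_far`, `int_near`, `int_inc`, `int_neg`).
With `P = len^(1+a+2s)(1 + ρ^(-b') + ρ₂^(-b'))`: `len^(1+a+2s) om ≤ wN` (`len^(2s) ≤ 1 + len^β`), `len^(1+a+2s) ρ^(-b') om = wS q`, `len^(1+a+2s) ρ₂^(-b') om = wS (q.2, q.1)` (`RR_comm`, `len` symmetric), and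
`∫ G G_* wS (q.2,q.1) = SS` (`integral_prod_swap` / `Measure.prod` swap; `measurePreserving_swap`), so `∫ GG_* P om = XN + 2 SS` at most.
* `int_nr`: on `Sn`: `om β V₁ (RR)² ≤ om β V₁ R₁²` (`om_mono'`), `len^(2(s'-s)) ≤ (2 R₁)^(2(s'-s)) ≤ (2 R₁)^2 = 4 R₁²` (`EP.d0`, `EP.d2`, `len_le_RR`), and `1 = om β 1 (RR)` (`om_one`, `one_le_RR`); outside of `Sn` the inner integral is over the empty set.
* `int_md`: `{σ : (v,w,σ) ∈ Sm} = {N y < 1}` if `R₁ < RR`, empty else; `om β V₁ (RR)² ≤ om β V₁ (RR) ≤ om β (max V₁ R₁) (RR)` (`om_max'`).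
* `int_dr`: `|∫ kx dX| ≤ ∫ kx |dX|`, `ang_dir`, `len^(1+a+β) ≤ len^(1+a)(1+len^β)`. * `int_cb`: `ang_cb`, `om β 1 (RR) = 1`. * `int_ng`: `ang_ng`, `len^(1+a) ≤ wN` (`om_one`).
* `GG_le'`: `len^(1+a) ≤ wN a β 1`.
-/

set_option autoImplicit false

open MeasureTheory Set Filter Topology Pool.Agent.H25.Kin Pool.Agent.H48.PL
open Pool.Agent.H48.PI (om)
open Pool.Agent.H48.PW (sP Cusp CuspB)
open Pool.Agent.H87.PE

namespace Pool.Agent.H87.PF

variable {d : ℕ} {s a β C Ca : ℝ} {b : ℝ → ℝ}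

/-! ### the majorant -/

private noncomputable def Pw (s a : ℝ) (v₀ v w : Vec d) : ℝ :=
  len (v - w) ^ (1 + a + 2 * s) *
    (1 + len (v - v₀) ^ (2 * (a - sP s a)) + len (w - v₀) ^ (2 * (a - sP s a)))

private noncomputable def MM (s a β V : ℝ) (v₀ : Vec d) (G : Vec d → ℝ) (q : Vec d × Vec d) : ℝ :=
  G q.1 * G q.2 * wN a β V q + G q.1 * G q.2 * wS s a β V v₀ q +
    G q.2 * G q.1 * wS s a β V v₀ (q.2, q.1)

private lemma Pw_nonneg (v₀ v w : Vec d) : 0 ≤ Pw s a v₀ v w := by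
  unfold Pw
  have h1 : 0 ≤ len (v - v₀) ^ (2 * (a - sP s a)) := Real.rpow_nonneg (len_nonneg _) _
  have h2 : 0 ≤ len (w - v₀) ^ (2 * (a - sP s a)) := Real.rpow_nonneg (len_nonneg _) _
  exact mul_nonneg (Real.rpow_nonneg (len_nonneg _) _) (by linarith)

private lemma MM_integrable (hd : 2 ≤ d) (E : EP s a β) {G : Vec d → ℝ} (hG : RD G)
    (hGc : Continuous G) {V : ℝ} (hV : 1 ≤ V) (v₀ : Vec d) : Integrable (MM s a β V v₀ G) := by
  have i1 := wN_int E hG hGc hV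
  have i2 := wS_int hd E hG hGc hV v₀
  have i3 : Integrable fun q : Vec d × Vec d => G q.2 * G q.1 * wS s a β V v₀ (q.2, q.1) :=
    i2.swap
  exact (i1.add i2).add i3

private lemma MM_integral (hd : 2 ≤ d) (E : EP s a β) {G : Vec d → ℝ} (hG : RD G)
    (hGc : Continuous G) {V : ℝ} (hV : 1 ≤ V) (v₀ : Vec d) :
    ∫ q, MM s a β V v₀ G q = XN a β V G + 2 * SS s a β V v₀ G := by
  have i1 := wN_int E hG hGc hV
  have i2 := wS_int hd E hG hGc hV v₀
  have i3 : Integrable fun q : Vec d × Vec d => G q.2 * G q.1 * wS s a β V v₀ (q.2, q.1) :=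
    i2.swap
  have e3 : ∫ q : Vec d × Vec d, G q.2 * G q.1 * wS s a β V v₀ (q.2, q.1) = SS s a β V v₀ G :=
    integral_prod_swap (μ := (volume : Measure (Vec d))) (ν := (volume : Measure (Vec d)))
      (fun q : Vec d × Vec d => G q.1 * G q.2 * wS s a β V v₀ q)
  have e1 : ∫ q, MM s a β V v₀ G q =
      (∫ q : Vec d × Vec d, (G q.1 * G q.2 * wN a β V q + G q.1 * G q.2 * wS s a β V v₀ q)) +
        ∫ q : Vec d × Vec d, G q.2 * G q.1 * wS s a β V v₀ (q.2, q.1) :=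
    integral_add (i1.add i2) i3
  have e2 : ∫ q : Vec d × Vec d, (G q.1 * G q.2 * wN a β V q + G q.1 * G q.2 * wS s a β V v₀ q) =
      XN a β V G + SS s a β V v₀ G := integral_add i1 i2
  rw [e1, e2, e3]
  ring

private lemma len_pow_le (E : EP s a β) (v w : Vec d) :
    len (v - w) ^ (1 + a + 2 * s) ≤ len (v - w) ^ (1 + a) * (1 + len (v - w) ^ β) := by
  have hL := len_nonneg (v - w)
  rw [Real.rpow_add_of_nonneg hL (by linarith [E.ha]) (by linarith [E.hs])]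
  refine mul_le_mul_of_nonneg_left ?_ (Real.rpow_nonneg hL _)
  rcases le_total (len (v - w)) 1 with h | h
  · have h1 : len (v - w) ^ (2 * s) ≤ 1 := Real.rpow_le_one hL h (by linarith [E.hs])
    have h2 : 0 ≤ len (v - w) ^ β := Real.rpow_nonneg hL _
    linarith
  · have h1 : len (v - w) ^ (2 * s) ≤ len (v - w) ^ β :=
      Real.rpow_le_rpow_of_exponent_le h E.hβ.le
    linarith

private lemma Pw_le (E : EP s a β) {V : ℝ} (hV : 1 ≤ V) (v₀ v w : Vec d) :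
    Pw s a v₀ v w * om β V (RR v w) ≤
      wN a β V (v, w) + wS s a β V v₀ (v, w) + wS s a β V v₀ (w, v) := by
  have h0 := om_nn (β := β) hV (RR_pos v w).le
  have h1 := mul_le_mul_of_nonneg_right (len_pow_le E v w) h0
  have e1 : wN a β V (v, w) =
      len (v - w) ^ (1 + a) * (1 + len (v - w) ^ β) * om β V (RR v w) := rfl
  have e2 : wS s a β V v₀ (v, w) = len (v - w) ^ (1 + a + 2 * s) *
      len (v - v₀) ^ (2 * (a - sP s a)) * om β V (RR v w) := rfl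
  have e3 : wS s a β V v₀ (w, v) = len (v - w) ^ (1 + a + 2 * s) *
      len (w - v₀) ^ (2 * (a - sP s a)) * om β V (RR v w) := by
    show len (w - v) ^ (1 + a + 2 * s) *
      len (w - v₀) ^ (2 * (a - sP s a)) * om β V (RR w v) = _
    rw [len_comm w v, RR_comm w v]
  rw [e1, e2, e3]
  unfold Pw
  calc len (v - w) ^ (1 + a + 2 * s) *
        (1 + len (v - v₀) ^ (2 * (a - sP s a)) + len (w - v₀) ^ (2 * (a - sP s a))) *
        om β V (RR v w)
      = len (v - w) ^ (1 + a + 2 * s) * om β V (RR v w) +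
        len (v - w) ^ (1 + a + 2 * s) * len (v - v₀) ^ (2 * (a - sP s a)) * om β V (RR v w) +
        len (v - w) ^ (1 + a + 2 * s) * len (w - v₀) ^ (2 * (a - sP s a)) * om β V (RR v w) := by
        ring
    _ ≤ _ := by linarith

private lemma MM_ge (E : EP s a β) {V : ℝ} (hV : 1 ≤ V) {G : Vec d → ℝ} (h0 : ∀ v, 0 ≤ G v)
    (v₀ v w : Vec d) :
    G v * G w * (Pw s a v₀ v w * om β V (RR v w)) ≤ MM s a β V v₀ G (v, w) := by
  have h1 := mul_le_mul_of_nonneg_left (Pw_le E hV v₀ v w) (mul_nonneg (h0 v) (h0 w))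
  refine h1.trans (le_of_eq ?_)
  show _ = G v * G w * wN a β V (v, w) + G v * G w * wS s a β V v₀ (v, w) +
    G w * G v * wS s a β V v₀ (w, v)
  ring

private lemma MM_nonneg {V : ℝ} (hV : 1 ≤ V) {G : Vec d → ℝ} (h0 : ∀ v, 0 ≤ G v)
    (v₀ : Vec d) (q : Vec d × Vec d) : 0 ≤ MM s a β V v₀ G q := by
  unfold MM
  have h1 := mul_nonneg (mul_nonneg (h0 q.1) (h0 q.2)) (wN_nonneg (a := a) (β := β) hV q)
  have h2 := mul_nonneg (mul_nonneg (h0 q.1) (h0 q.2))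
    (wS_nonneg (s := s) (a := a) (β := β) hV v₀ q)
  have h3 := mul_nonneg (mul_nonneg (h0 q.2) (h0 q.1))
    (wS_nonneg (s := s) (a := a) (β := β) hV v₀ (q.2, q.1))
  linarith

/-- `maj` with the majorant `c MM` -/
private lemma majM (H : Hyp d (1 + a) s b C Ca) (E : EP s a β) {ε : ℝ} (hε : 0 < ε)
    {G : Vec d → ℝ} (hG : RD G) (hGc : Continuous G) (h0 : ∀ v, 0 ≤ G v)
    {X : Vec d × Vec d × Vec d → ℝ} (hX : Measurable X)
    (hB : PB X) {S : Set (Vec d × Vec d × Vec d)} (hS : MeasurableSet S) (v₀ : Vec d) {V : ℝ}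
    (hV : 1 ≤ V) {c : ℝ} (hc : 0 ≤ c) (hle : ∀ v w : Vec d, v ≠ w → v ≠ v₀ → w ≠ v₀ →
      ∫ σ in {σ : Vec d | (v, w, σ) ∈ S}, kerB (1 + a) b ε v w σ * X (v, w, σ) ∂(surf d) ≤
        c * (Pw s a v₀ v w * om β V (RR v w))) :
    ∫ p in S, kx (1 + a) b ε G p * X p ∂(mu3 d) ≤
      2 * c * (XN a β V G + SS s a β V v₀ G) := by
  have hi := MM_integrable H.hd E hG hGc hV v₀
  have e2 := maj H hε hG hGc hX hB hS v₀ (M := fun q => c * MM s a β V v₀ G q)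
    (hi.const_mul c) ?_
  · refine e2.trans ?_
    rw [integral_const_mul, MM_integral H.hd E hG hGc hV v₀]
    have h1 := mul_nonneg hc (XN_nonneg (a := a) (β := β) h0 hV)
    calc c * (XN a β V G + 2 * SS s a β V v₀ G)
        = 2 * c * (XN a β V G + SS s a β V v₀ G) - c * XN a β V G := by ring
      _ ≤ _ := by linarith
  · intro v w h1 h2 h3
    have h4 := mul_le_mul_of_nonneg_left (hle v w h1 h2 h3) (mul_nonneg (h0 v) (h0 w))
    have h5 := mul_le_mul_of_nonneg_left (MM_ge E hV h0 v₀ v w) hc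
    refine h4.trans (le_trans (le_of_eq ?_) h5)
    ring

private lemma dX_pair {ψ : Vec d → ℝ} (hm : Measurable ψ) (hp : PG ψ) :
    Measurable (fun p : Vec d × Vec d × Vec d => dX ψ p ^ 2) ∧
      PB (fun p : Vec d × Vec d × Vec d => dX ψ p ^ 2) := by
  have hXm : Measurable (dX ψ) := dX_meas hm
  have hXB : PB (dX ψ) := dX_PB hp
  refine ⟨hXm.pow_const 2, ?_⟩
  have := PB_mul hXB hXB
  simpa only [sq] using this

theorem int_nr (H : Hyp d (1 + a) s b C Ca) (E : EP s a β) : ∃ K : ℝ, 0 ≤ K ∧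
    ∀ G : Vec d → ℝ, RD G → Continuous G → (∀ v, 0 ≤ G v) → ∀ ε : ℝ, 0 < ε → ∀ V₁ : ℝ, 1 ≤ V₁ →
    ∀ R₁ : ℝ, 1 ≤ R₁ → ∀ A : ℝ, 0 ≤ A → ∀ (v₀ : Vec d) (ψ : Vec d → ℝ), Cusp s a β v₀ V₁ A ψ →
    ∫ p in Sn d R₁, kx (1 + a) b ε G p * dX ψ p ^ 2 ∂(mu3 d) ≤
      K * A ^ 2 * (R₁ ^ 2 * om β V₁ R₁ ^ 2) * (XN a β 1 G + SS s a β 1 v₀ G) := by
  obtain ⟨K, hK0, hK⟩ := ang_near H E
  refine ⟨8 * K, by positivity, fun G hG hGc h0 ε hε V₁ hV₁ R₁ hR₁ A hA v₀ ψ hψ => ?_⟩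
  obtain ⟨hXm, hXB⟩ := dX_pair hψ.meas (cu_PG E hV₁ hA hψ)
  have hc : 0 ≤ 4 * K * A ^ 2 * (R₁ ^ 2 * om β V₁ R₁ ^ 2) := by positivity
  have e := majM H E hε hG hGc h0 hXm hXB (Sn_meas R₁) v₀ le_rfl hc ?_
  · refine e.trans (le_of_eq ?_)
    ring
  · intro v w hvw hv hw
    have hR0 := RR_pos v w
    by_cases hR : RR v w ≤ R₁
    · have hset : {σ : Vec d | (v, w, σ) ∈ Sn d R₁} = univ := by
        ext σ
        simp only [mem_ofPred_eq, mem_univ, iff_true]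
        exact hR
      rw [hset, Measure.restrict_univ]
      have h5 := hK v₀ V₁ hV₁ A hA ψ hψ ε hε v w hvw hv hw
      have h6 : om β V₁ (RR v w) ^ 2 ≤ om β V₁ R₁ ^ 2 :=
        pow_le_pow_left₀ (om_nn hV₁ hR0.le) (om_mono' E.hβ1.le hV₁ hR0.le hR) 2
      have h7 : len (v - w) ^ (2 * (sP s a - s)) ≤ 4 * R₁ ^ 2 := by
        calc len (v - w) ^ (2 * (sP s a - s))
            ≤ (2 * R₁) ^ (2 * (sP s a - s)) :=
              Real.rpow_le_rpow (len_nonneg _) ((len_le_two v w).trans (by linarith)) E.d0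
          _ ≤ (2 * R₁) ^ (2 : ℝ) := Real.rpow_le_rpow_of_exponent_le (by linarith) E.d2
          _ = 4 * R₁ ^ 2 := by
              rw [show (2 : ℝ) = ((2 : ℕ) : ℝ) by norm_num, Real.rpow_natCast]
              push_cast
              ring
      have h8 := Pw_nonneg (s := s) (a := a) v₀ v w
      rw [om_one (one_le_RR v w), mul_one]
      calc ∫ σ, kerB (1 + a) b ε v w σ * dX ψ (v, w, σ) ^ 2 ∂(surf d)
          ≤ K * A ^ 2 * om β V₁ (RR v w) ^ 2 * (len (v - w) ^ (1 + a + 2 * s) *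
              len (v - w) ^ (2 * (sP s a - s)) * (1 + len (v - v₀) ^ (2 * (a - sP s a)) +
              len (w - v₀) ^ (2 * (a - sP s a)))) := h5
        _ = K * A ^ 2 * (om β V₁ (RR v w) ^ 2 * len (v - w) ^ (2 * (sP s a - s))) *
              Pw s a v₀ v w := by
            unfold Pw
            ring
        _ ≤ K * A ^ 2 * (om β V₁ R₁ ^ 2 * (4 * R₁ ^ 2)) * Pw s a v₀ v w := by
            refine mul_le_mul_of_nonneg_right (mul_le_mul_of_nonneg_left ?_ (by positivity)) h8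
            exact mul_le_mul h6 h7 (Real.rpow_nonneg (len_nonneg _) _) (sq_nonneg _)
        _ = 4 * K * A ^ 2 * (R₁ ^ 2 * om β V₁ R₁ ^ 2) * Pw s a v₀ v w := by ring
    · have hset : {σ : Vec d | (v, w, σ) ∈ Sn d R₁} = ∅ := by
        ext σ
        simp only [mem_ofPred_eq, mem_empty_iff_false, iff_false]
        exact hR
      rw [hset, setIntegral_empty]
      exact mul_nonneg hc (mul_nonneg (Pw_nonneg v₀ v w) (om_nn le_rfl hR0.le))

theorem int_md (H : Hyp d (1 + a) s b C Ca) (E : EP s a β) : ∃ K : ℝ, 0 ≤ K ∧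
    ∀ G : Vec d → ℝ, RD G → Continuous G → (∀ v, 0 ≤ G v) → ∀ ε : ℝ, 0 < ε → ∀ V₁ : ℝ, 1 ≤ V₁ →
    ∀ R₁ : ℝ, 1 ≤ R₁ → ∀ A : ℝ, 0 ≤ A → ∀ (v₀ : Vec d) (ψ : Vec d → ℝ), Cusp s a β v₀ V₁ A ψ →
    ∫ p in Sm d R₁, kx (1 + a) b ε G p * dX ψ p ^ 2 ∂(mu3 d) ≤
      K * A ^ 2 * (XN a β (max V₁ R₁) G + SS s a β (max V₁ R₁) v₀ G) := by
  obtain ⟨K, hK0, hK⟩ := ang_mid H E
  refine ⟨2 * K, by positivity, fun G hG hGc h0 ε hε V₁ hV₁ R₁ hR₁ A hA v₀ ψ hψ => ?_⟩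
  obtain ⟨hXm, hXB⟩ := dX_pair hψ.meas (cu_PG E hV₁ hA hψ)
  have hmx : 1 ≤ max V₁ R₁ := hV₁.trans (le_max_left _ _)
  have hc : 0 ≤ K * A ^ 2 := by positivity
  have e := majM H E hε hG hGc h0 hXm hXB (Sm_meas R₁) v₀ hmx hc ?_
  · refine e.trans (le_of_eq ?_)
    ring
  · intro v w hvw hv hw
    have hR0 := RR_pos v w
    by_cases hR : R₁ < RR v w
    · have hset : {σ : Vec d | (v, w, σ) ∈ Sm d R₁} =
          {σ : Vec d | nsq (v - w) * (1 - cosTh v w σ) < 1} := by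
        ext σ
        exact ⟨fun h => h.2, fun h => ⟨hR, h⟩⟩
      rw [hset]
      have h5 := hK v₀ V₁ hV₁ A hA ψ hψ ε hε v w hvw hv hw
      have o0 := om_nn (β := β) hV₁ hR0.le
      have o1 := om_le1 (β := β) E.hβ1.le hV₁ hR0.le
      have o2 := om_max' (β := β) E.hβ1.le hV₁ hR₁ hR
      have h6 : om β V₁ (RR v w) ^ 2 ≤ om β (max V₁ R₁) (RR v w) := by nlinarith
      have h8 := Pw_nonneg (s := s) (a := a) v₀ v w
      calc ∫ σ in {σ : Vec d | nsq (v - w) * (1 - cosTh v w σ) < 1},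
              kerB (1 + a) b ε v w σ * dX ψ (v, w, σ) ^ 2 ∂(surf d)
          ≤ K * A ^ 2 * om β V₁ (RR v w) ^ 2 * Pw s a v₀ v w := h5
        _ ≤ K * A ^ 2 * om β (max V₁ R₁) (RR v w) * Pw s a v₀ v w :=
            mul_le_mul_of_nonneg_right (mul_le_mul_of_nonneg_left h6 hc) h8
        _ = K * A ^ 2 * (Pw s a v₀ v w * om β (max V₁ R₁) (RR v w)) := by ring
    · have hset : {σ : Vec d | (v, w, σ) ∈ Sm d R₁} = ∅ := by
        ext σ
        simp only [mem_ofPred_eq, mem_empty_iff_false, iff_false]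
        exact fun h => hR h.1
      rw [hset, setIntegral_empty]
      exact mul_nonneg hc (mul_nonneg (Pw_nonneg v₀ v w) (om_nn hmx hR0.le))

theorem int_dr (H : Hyp d (1 + a) s b C Ca) (E : EP s a β) : ∃ K : ℝ, 0 ≤ K ∧
    ∀ G : Vec d → ℝ, RD G → Continuous G → (∀ v, 0 ≤ G v) → ∀ ε : ℝ, 0 < ε → ∀ V₁ : ℝ, 1 ≤ V₁ →
    ∀ R₁ : ℝ, 1 ≤ R₁ → ∀ A : ℝ, 0 ≤ A → ∀ (v₀ : Vec d) (ψ : Vec d → ℝ), Cusp s a β v₀ V₁ A ψ →
    |∫ p in Sd d R₁, kx (1 + a) b ε G p * dX ψ p ∂(mu3 d)| ≤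
      K * A * XN a β (max V₁ R₁) G := by
  obtain ⟨K, hK0, hK⟩ := ang_dir H E
  refine ⟨K, hK0, fun G hG hGc h0 ε hε V₁ hV₁ R₁ hR₁ A hA v₀ ψ hψ => ?_⟩
  have hXm : Measurable (dX ψ) := dX_meas hψ.meas
  have hXB : PB (dX ψ) := dX_PB (cu_PG E hV₁ hA hψ)
  have hXm' : Measurable fun p => |dX ψ p| := hXm.abs
  have hXB' : PB fun p => |dX ψ p| := by
    obtain ⟨N, B, hB0, hB⟩ := hXB
    refine ⟨N, B, hB0, fun v w σ hσ => ?_⟩
    rw [abs_abs]
    exact hB v w σ hσ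
  have hmx : 1 ≤ max V₁ R₁ := hV₁.trans (le_max_left _ _)
  have hKA : 0 ≤ K * A := mul_nonneg hK0 hA
  have e1 : |∫ p in Sd d R₁, kx (1 + a) b ε G p * dX ψ p ∂(mu3 d)| ≤
      ∫ p in Sd d R₁, kx (1 + a) b ε G p * |dX ψ p| ∂(mu3 d) := by
    rw [← Real.norm_eq_abs]
    refine (norm_integral_le_integral_norm _).trans (le_of_eq ?_)
    refine integral_congr_ae ?_
    refine ae_restrict_of_ae ?_
    filter_upwards [kx_nonneg H hε h0] with p hp
    rw [norm_mul, Real.norm_eq_abs, Real.norm_eq_abs, abs_of_nonneg hp]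
  refine e1.trans ?_
  have e2 := maj H hε hG hGc hXm' hXB' (Sd_meas R₁) v₀
    (M := fun q => K * A * (G q.1 * G q.2 * wN a β (max V₁ R₁) q))
    ((wN_int E hG hGc hmx).const_mul (K * A)) ?_
  · refine e2.trans (le_of_eq ?_)
    rw [integral_const_mul]
    rfl
  · intro v w hvw _ _
    have hGG : 0 ≤ G v * G w := mul_nonneg (h0 v) (h0 w)
    have hR0 := RR_pos v w
    by_cases hR : R₁ < RR v w
    · have hset : {σ : Vec d | (v, w, σ) ∈ Sd d R₁} =
          {σ : Vec d | 1 ≤ nsq (v - w) * (1 - cosTh v w σ)} := by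
        ext σ
        exact ⟨fun h => h.2, fun h => ⟨hR, h⟩⟩
      rw [hset]
      have h5 := hK v₀ V₁ hV₁ A hA ψ hψ ε hε v w hvw
      have o0 := om_nn (β := β) hmx hR0.le
      have o2 := om_max' (β := β) E.hβ1.le hV₁ hR₁ hR
      have hL := len_nonneg (v - w)
      have hL1 : 0 ≤ len (v - w) ^ (1 + a) := Real.rpow_nonneg hL _
      have h6 : len (v - w) ^ (1 + a + β) ≤ len (v - w) ^ (1 + a) * (1 + len (v - w) ^ β) := by
        rw [Real.rpow_add_of_nonneg hL (by linarith [E.ha]) E.β0.le]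
        nlinarith
      have h7 : om β V₁ (RR v w) * len (v - w) ^ (1 + a + β) ≤ wN a β (max V₁ R₁) (v, w) := by
        calc om β V₁ (RR v w) * len (v - w) ^ (1 + a + β)
            ≤ om β (max V₁ R₁) (RR v w) * (len (v - w) ^ (1 + a) * (1 + len (v - w) ^ β)) :=
              mul_le_mul o2 h6 (Real.rpow_nonneg hL _) o0
          _ = wN a β (max V₁ R₁) (v, w) := by
              unfold wN
              ring
      have h8 := mul_le_mul_of_nonneg_left h7 hKA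
      have h9 : ∫ σ in {σ : Vec d | 1 ≤ nsq (v - w) * (1 - cosTh v w σ)},
          kerB (1 + a) b ε v w σ * |dX ψ (v, w, σ)| ∂(surf d) ≤
          K * A * wN a β (max V₁ R₁) (v, w) := by
        refine h5.trans (le_trans (le_of_eq ?_) h8)
        ring
      refine (mul_le_mul_of_nonneg_left h9 hGG).trans (le_of_eq ?_)
      ring
    · have hset : {σ : Vec d | (v, w, σ) ∈ Sd d R₁} = ∅ := by
        ext σ
        simp only [mem_ofPred_eq, mem_empty_iff_false, iff_false]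
        exact fun h => hR h.1
      rw [hset, setIntegral_empty, mul_zero]
      exact mul_nonneg hKA (mul_nonneg hGG (wN_nonneg hmx _))

theorem int_cb (H : Hyp d (1 + a) s b C Ca) (E : EP s a β) : ∃ K : ℝ, 0 ≤ K ∧
    ∀ G : Vec d → ℝ, RD G → Continuous G → (∀ v, 0 ≤ G v) → ∀ ε : ℝ, 0 < ε →
    ∀ A : ℝ, 0 ≤ A → ∀ (v₀ : Vec d) (ψ : Vec d → ℝ), CuspB s a v₀ A ψ →
    ∫ p, kx (1 + a) b ε G p * (ψ (post p.1 p.2.1 p.2.2) - ψ p.1) ^ 2 ∂(mu3 d) ≤
      K * A ^ 2 * (XN a β 1 G + SS s a β 1 v₀ G) := by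
  obtain ⟨K, hK0, hK⟩ := ang_cb H E
  refine ⟨2 * K, by positivity, fun G hG hGc h0 ε hε A hA v₀ ψ hψ => ?_⟩
  have hXm : Measurable fun p : Vec d × Vec d × Vec d =>
      (ψ (post p.1 p.2.1 p.2.2) - ψ p.1) ^ 2 := by
    have hp : Measurable fun p : Vec d × Vec d × Vec d => post p.1 p.2.1 p.2.2 :=
      continuous_post.measurable
    exact ((hψ.meas.comp hp).sub (hψ.meas.comp measurable_fst)).pow_const 2
  have hXB : PB fun p : Vec d × Vec d × Vec d => (ψ (post p.1 p.2.1 p.2.2) - ψ p.1) ^ 2 := by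
    refine ⟨0, (2 * A) ^ 2, sq_nonneg _, fun v w σ _ => ?_⟩
    rw [pow_zero, mul_one, abs_of_nonneg (sq_nonneg _)]
    have h4 := abs_le.1 (hψ.h0 (post v w σ))
    have h5 := abs_le.1 (hψ.h0 v)
    exact sq_le_sq' (by linarith) (by linarith)
  have hc : 0 ≤ K * A ^ 2 := by positivity
  have e := majM H E hε hG hGc h0 hXm hXB MeasurableSet.univ v₀ le_rfl hc ?_
  · rw [Measure.restrict_univ] at e
    refine e.trans (le_of_eq ?_)
    ring
  · intro v w hvw hv hw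
    have hset : {σ : Vec d | (v, w, σ) ∈ (univ : Set (Vec d × Vec d × Vec d))} = univ := by
      ext σ
      simp
    rw [hset, Measure.restrict_univ, om_one (one_le_RR v w), mul_one]
    refine (hK v₀ A hA ψ hψ ε hε v w hvw hv).trans (mul_le_mul_of_nonneg_left ?_ hc)
    unfold Pw
    refine mul_le_mul_of_nonneg_left ?_ (Real.rpow_nonneg (len_nonneg _) _)
    have h2 : 0 ≤ len (w - v₀) ^ (2 * (a - sP s a)) := Real.rpow_nonneg (len_nonneg _) _
    linarith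

private lemma len_le_wN (v w : Vec d) : len (v - w) ^ (1 + a) ≤ wN a β 1 (v, w) := by
  have hL := len_nonneg (v - w)
  have h1 : 0 ≤ len (v - w) ^ (1 + a) := Real.rpow_nonneg hL _
  have h2 : 0 ≤ len (v - w) ^ β := Real.rpow_nonneg hL _
  show _ ≤ len (v - w) ^ (1 + a) * (1 + len (v - w) ^ β) * om β 1 (RR v w)
  rw [om_one (one_le_RR v w), mul_one]
  nlinarith

theorem int_ng (H : Hyp d (1 + a) s b C Ca) (E : EP s a β) : ∃ K : ℝ, 0 ≤ K ∧
    ∀ G : Vec d → ℝ, RD G → Continuous G → (∀ v, 0 ≤ G v) → ∀ ε : ℝ, 0 < ε →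
    ∫ p in (Hf d)ᶜ, kx (1 + a) b ε G p ∂(mu3 d) ≤ K * XN a β 1 G := by
  obtain ⟨K, hK0, hK⟩ := ang_ng H
  refine ⟨K, hK0, fun G hG hGc hG0 ε hε => ?_⟩
  have hXB : PB fun _ : Vec d × Vec d × Vec d => (1 : ℝ) :=
    ⟨0, 1, zero_le_one, fun v w σ _ => by simp⟩
  have e2 := maj H hε hG hGc (X := fun _ => (1 : ℝ)) measurable_const hXB (Hf_meas (d := d)).compl
    0 (M := fun q => K * (G q.1 * G q.2 * wN a β 1 q)) ((wN_int E hG hGc le_rfl).const_mul _) ?_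
  · simp only [mul_one] at e2
    refine e2.trans (le_of_eq ?_)
    rw [integral_const_mul]
    rfl
  · intro v w hvw _ _
    have hGG : 0 ≤ G v * G w := mul_nonneg (hG0 v) (hG0 w)
    have hset : {σ : Vec d | (v, w, σ) ∈ (Hf d)ᶜ} = {σ : Vec d | cosTh v w σ < 0} := by
      ext σ
      show ¬ (0 ≤ cosTh v w σ) ↔ cosTh v w σ < 0
      exact not_le
    rw [hset]
    simp only [mul_one]
    have h4 := mul_le_mul_of_nonneg_left (len_le_wN (a := a) (β := β) v w) hK0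
    have h5 := mul_le_mul_of_nonneg_left ((hK ε hε v w hvw).trans h4) hGG
    refine h5.trans (le_of_eq ?_)
    ring

theorem GG_le' (E : EP s a β) {G : Vec d → ℝ} (hG : RD G) (hGc : Continuous G)
    (h0 : ∀ v, 0 ≤ G v) : GG (1 + a) G ≤ XN a β 1 G := by
  unfold GG XN
  refine integral_mono_of_nonneg (Eventually.of_forall fun q => ?_) (wN_int E hG hGc le_rfl)
    (Eventually.of_forall fun q => ?_)
  · exact mul_nonneg (mul_nonneg (h0 _) (h0 _)) (Real.rpow_nonneg (len_nonneg _) _)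
  · exact mul_le_mul_of_nonneg_left (len_le_wN q.1 q.2) (mul_nonneg (h0 _) (h0 _))

end Pool.Agent.H87.PF
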