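import Pool.Agent.H87.PF.Base

/-!
# Module KerA: two angular integrals

`ker_full`: as `full` in H87/PE/AngH.lean (copy): `ker_small` with `u = 2`, `{1 - cosTh ≤ 2}` is a.e. everything (`abs_cosTh_le`).
`ker_min`: `y = 1 - cosTh v w σ ≥ 0`, `N = nsq (v - w) > 0`, `u = 1/N`. On `{y ≤ u}`: `min (N y) 1 = N y`, `(N y)^τ = N^τ y^τ` (`Real.mul_rpow`), so `ker_small` gives integrability and
`∫_{y ≤ u} kerB (N y)^τ ≤ N^τ A₁ len^γ u^(τ-s) = A₁ len^γ N^s`. On `{y ≤ u}ᶜ ⊆ {u ≤ y}`: the factor is `≤ 1`, `ker_large`: `≤ A₂ len^γ u^(-s) = A₂ len^γ N^s`.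
`N^s = len^(2s)` (`len_sq`, `Real.rpow_mul`), `len^γ len^(2s) = len^(γ+2s)` (`Real.rpow_add`). `K = A₁ + A₂`. Integrability: `integrableOn_univ`, `IntegrableOn.union`, `Integrable.mono'`
(`kerB ≥ 0` a.e.: `kerB_nonneg`, `surf_ae`; measurability: `measurable_kerB'`, `measurable_cosTh'`).
-/

set_option autoImplicit false

open MeasureTheory Set Filter Topology Pool.Agent.H25.Kin Pool.Agent.H48.PL

namespace Pool.Agent.H87.PF

variable {d : ℕ} {γ s C Ca : ℝ} {b : ℝ → ℝ}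

theorem ker_full (H : Hyp d γ s b C Ca) {τ : ℝ} (hτ : s < τ) (hτ1 : τ ≤ 1) :
    ∃ K : ℝ, 0 ≤ K ∧ ∀ ε : ℝ, 0 < ε → ∀ v w : Vec d, v ≠ w →
      Integrable (fun σ => kerB γ b ε v w σ * (1 - cosTh v w σ) ^ τ) (surf d) ∧
      ∫ σ, kerB γ b ε v w σ * (1 - cosTh v w σ) ^ τ ∂(surf d) ≤ K * len (v - w) ^ γ := by
  obtain ⟨A1, hA1, hk⟩ := ker_small H hτ hτ1
  refine ⟨A1 * 2 ^ (τ - s), by positivity, fun ε hε v w hvw => ?_⟩
  obtain ⟨hi, hb⟩ := hk ε hε v w hvw 2 two_pos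
  have hS : (surf d).restrict {σ : Vec d | 1 - cosTh v w σ ≤ 2} = surf d := by
    refine Measure.restrict_eq_self_of_ae_mem ?_
    filter_upwards [surf_ae] with σ hσ
    have h4 := (abs_le.1 (abs_cosTh_le (v := v) (w := w) hσ)).1
    show 1 - cosTh v w σ ≤ 2
    linarith
  unfold IntegrableOn at hi
  rw [hS] at hi hb
  exact ⟨hi, hb.trans (le_of_eq (by ring))⟩

theorem ker_min (H : Hyp d γ s b C Ca) {τ : ℝ} (hτ : s < τ) (hτ1 : τ ≤ 1) :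
    ∃ K : ℝ, 0 ≤ K ∧ ∀ ε : ℝ, 0 < ε → ∀ v w : Vec d, v ≠ w →
      Integrable (fun σ => kerB γ b ε v w σ *
        min (nsq (v - w) * (1 - cosTh v w σ)) 1 ^ τ) (surf d) ∧
      ∫ σ, kerB γ b ε v w σ * min (nsq (v - w) * (1 - cosTh v w σ)) 1 ^ τ ∂(surf d) ≤
        K * len (v - w) ^ (γ + 2 * s) := by
  obtain ⟨A1, hA1, hk1⟩ := ker_small H hτ hτ1
  obtain ⟨A2, hA2, hk2⟩ := ker_large H
  have hs := H.hs
  refine ⟨A1 + A2, by positivity, fun ε hε v w hvw => ?_⟩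
  have hlen : 0 < len (v - w) := len_sub_pos.2 hvw
  obtain ⟨N, hN⟩ : ∃ N : ℝ, N = nsq (v - w) := ⟨_, rfl⟩
  have hN0 : 0 < N := by
    rw [hN, ← len_sq]
    positivity
  have hu : 0 < N⁻¹ := inv_pos.2 hN0
  obtain ⟨hi1, hb1⟩ := hk1 ε hε v w hvw N⁻¹ hu
  obtain ⟨hi2, hb2⟩ := hk2 ε hε v w hvw N⁻¹ hu
  have hmy : Measurable fun σ : Vec d => 1 - cosTh v w σ :=
    measurable_const.sub (measurable_cosTh' v w)
  have hmk := measurable_kerB' γ H.bm ε v w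
  have hSm : MeasurableSet {σ : Vec d | 1 - cosTh v w σ ≤ N⁻¹} := measurableSet_le hmy measurable_const
  have hTm : MeasurableSet {σ : Vec d | 1 - cosTh v w σ ≤ N⁻¹}ᶜ := hSm.compl
  have hsub : {σ : Vec d | 1 - cosTh v w σ ≤ N⁻¹}ᶜ ⊆ {σ : Vec d | N⁻¹ ≤ 1 - cosTh v w σ} := by
    intro σ hσ
    have : ¬ (1 - cosTh v w σ ≤ N⁻¹) := hσ
    exact (not_le.1 this).le
  -- on the small set
  have hF1 : ∀ᵐ σ ∂((surf d).restrict {σ : Vec d | 1 - cosTh v w σ ≤ N⁻¹}),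
      kerB γ b ε v w σ * min (N * (1 - cosTh v w σ)) 1 ^ τ =
        N ^ τ * (kerB γ b ε v w σ * (1 - cosTh v w σ) ^ τ) := by
    filter_upwards [ae_restrict_mem hSm, ae_restrict_of_ae surf_ae] with σ hσ hσ1
    have hy : 0 ≤ 1 - cosTh v w σ := one_sub_cosTh_nonneg hσ1
    have hσ' : 1 - cosTh v w σ ≤ N⁻¹ := hσ
    have h1 : N * (1 - cosTh v w σ) ≤ 1 := by
      calc N * (1 - cosTh v w σ) ≤ N * N⁻¹ := mul_le_mul_of_nonneg_left hσ' hN0.le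
        _ = 1 := mul_inv_cancel₀ hN0.ne'
    rw [min_eq_left h1, Real.mul_rpow hN0.le hy]
    ring
  have hJ1 : IntegrableOn (fun σ => kerB γ b ε v w σ * min (N * (1 - cosTh v w σ)) 1 ^ τ)
      {σ : Vec d | 1 - cosTh v w σ ≤ N⁻¹} (surf d) := by
    refine Integrable.congr (hi1.const_mul (N ^ τ)) ?_
    filter_upwards [hF1] with σ hσ
    exact hσ.symm
  have hI1 : ∫ σ in {σ : Vec d | 1 - cosTh v w σ ≤ N⁻¹},
      kerB γ b ε v w σ * min (N * (1 - cosTh v w σ)) 1 ^ τ ∂(surf d) ≤ A1 * len (v - w) ^ γ * N ^ s := by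
    rw [integral_congr_ae hF1, integral_const_mul]
    calc N ^ τ * ∫ σ in {σ : Vec d | 1 - cosTh v w σ ≤ N⁻¹}, kerB γ b ε v w σ * (1 - cosTh v w σ) ^ τ ∂(surf d)
        ≤ N ^ τ * (A1 * len (v - w) ^ γ * N⁻¹ ^ (τ - s)) :=
          mul_le_mul_of_nonneg_left hb1 (Real.rpow_nonneg hN0.le _)
      _ = A1 * len (v - w) ^ γ * N ^ s := by
        have : N ^ τ * N⁻¹ ^ (τ - s) = N ^ s := by
          rw [Real.inv_rpow hN0.le, ← Real.rpow_neg hN0.le, ← Real.rpow_add hN0]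
          congr 1
          ring
        calc N ^ τ * (A1 * len (v - w) ^ γ * N⁻¹ ^ (τ - s))
            = A1 * len (v - w) ^ γ * (N ^ τ * N⁻¹ ^ (τ - s)) := by ring
          _ = _ := by rw [this]
  -- on the large set
  have hbd : ∀ᵐ σ ∂(surf d), 0 ≤ kerB γ b ε v w σ * min (N * (1 - cosTh v w σ)) 1 ^ τ ∧
      kerB γ b ε v w σ * min (N * (1 - cosTh v w σ)) 1 ^ τ ≤ kerB γ b ε v w σ ∧ 0 ≤ kerB γ b ε v w σ := by
    filter_upwards [surf_ae] with σ hσ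
    have hy : 0 ≤ 1 - cosTh v w σ := one_sub_cosTh_nonneg hσ
    have hk : 0 ≤ kerB γ b ε v w σ := kerB_nonneg H.bd hε hσ
    have hm0 : 0 ≤ min (N * (1 - cosTh v w σ)) 1 := le_min (by positivity) zero_le_one
    have hm1 : min (N * (1 - cosTh v w σ)) 1 ^ τ ≤ 1 :=
      Real.rpow_le_one hm0 (min_le_right _ _) (by linarith)
    exact ⟨mul_nonneg hk (Real.rpow_nonneg hm0 _), mul_le_of_le_one_right hk hm1, hk⟩
  have hmF : Measurable fun σ : Vec d => kerB γ b ε v w σ * min (N * (1 - cosTh v w σ)) 1 ^ τ :=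
    hmk.mul (((hmy.const_mul N).min measurable_const).pow_const τ)
  have hi2' : IntegrableOn (fun σ => kerB γ b ε v w σ) {σ : Vec d | 1 - cosTh v w σ ≤ N⁻¹}ᶜ (surf d) :=
    hi2.mono_set hsub
  have hJ2 : IntegrableOn (fun σ => kerB γ b ε v w σ * min (N * (1 - cosTh v w σ)) 1 ^ τ)
      {σ : Vec d | 1 - cosTh v w σ ≤ N⁻¹}ᶜ (surf d) := by
    refine Integrable.mono' hi2' hmF.aestronglyMeasurable ?_
    filter_upwards [ae_restrict_of_ae hbd] with σ hσ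
    rw [Real.norm_eq_abs, abs_of_nonneg hσ.1]
    exact hσ.2.1
  have hI2 : ∫ σ in {σ : Vec d | 1 - cosTh v w σ ≤ N⁻¹}ᶜ,
      kerB γ b ε v w σ * min (N * (1 - cosTh v w σ)) 1 ^ τ ∂(surf d) ≤ A2 * len (v - w) ^ γ * N ^ s := by
    calc ∫ σ in {σ : Vec d | 1 - cosTh v w σ ≤ N⁻¹}ᶜ,
        kerB γ b ε v w σ * min (N * (1 - cosTh v w σ)) 1 ^ τ ∂(surf d)
        ≤ ∫ σ in {σ : Vec d | 1 - cosTh v w σ ≤ N⁻¹}ᶜ, kerB γ b ε v w σ ∂(surf d) := by
          refine integral_mono_ae hJ2 hi2' ?_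
          filter_upwards [ae_restrict_of_ae hbd] with σ hσ
          exact hσ.2.1
      _ ≤ ∫ σ in {σ : Vec d | N⁻¹ ≤ 1 - cosTh v w σ}, kerB γ b ε v w σ ∂(surf d) := by
          refine setIntegral_mono_set hi2 ?_ (Filter.Eventually.of_forall hsub)
          filter_upwards [ae_restrict_of_ae hbd] with σ hσ
          exact hσ.2.2
      _ ≤ A2 * len (v - w) ^ γ * N⁻¹ ^ (-s) := hb2
      _ = A2 * len (v - w) ^ γ * N ^ s := by
        rw [Real.inv_rpow hN0.le, ← Real.rpow_neg hN0.le, neg_neg]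
  have hall : Integrable (fun σ => kerB γ b ε v w σ * min (N * (1 - cosTh v w σ)) 1 ^ τ) (surf d) := by
    rw [← integrableOn_univ, ← union_compl_self {σ : Vec d | 1 - cosTh v w σ ≤ N⁻¹}]
    exact hJ1.union hJ2
  rw [← hN]
  refine ⟨hall, ?_⟩
  rw [← integral_add_compl hSm hall]
  have hNs : len (v - w) ^ γ * N ^ s = len (v - w) ^ (γ + 2 * s) := by
    rw [Real.rpow_add hlen, hN, ← len_sq, ← Real.rpow_natCast (len (v - w)) 2, ← Real.rpow_mul hlen.le]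
    norm_num
  calc _ ≤ A1 * len (v - w) ^ γ * N ^ s + A2 * len (v - w) ^ γ * N ^ s := add_le_add hI1 hI2
    _ = (A1 + A2) * (len (v - w) ^ γ * N ^ s) := by ring
    _ = _ := by rw [hNs]

end Pool.Agent.H87.PF
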