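import Pool.Agent.H87.PF.Base
import Pool.Agent.H82.CM.Shell

/-!
# Module KerB: lower bound of the kernel on an annulus

`y = 1 - cosTh v w σ = 1 - dot (dirk v w) σ` (`cosTh_eq`, `dot_comm`), `k = dirk v w` a unit vector (`v ≠ w`; `dirk v w = (len (v-w))⁻¹ • (v-w)`, see BGeo.lean). On `S = {u ≤ y ≤ 32u}`, `0 < u ≤ 1/64`:
`x = cosTh = 1 - y ∈ [1/2, 1)`, `x ≤ 1 - u ≤ 1 - ε`, so `kerB = len^γ b(x)`, `b(x) ≥ cb y^(-B) ≥ cb (32u)^(-B)`, `B = (d-1)/2 + s` (`HL.lo.2`, `Real.rpow_le_rpow_of_nonpos`).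
`shell_low` (H82/CM/Shell.lean) : `surf S ≥ c u^((d-1)/2)`. So `∫_S kerB ≥ len^γ cb 32^(-B) u^(-B) c u^((d-1)/2) = c' len^γ u^(-s)`: `setIntegral_ge_of_const_le` or
`setIntegral_const` + `setIntegral_mono_on`; `(surf d).real S ≥ c u^((d-1)/2)` from `ENNReal.ofReal_le_iff_le_toReal` (`surf d` finite). Integrability: `ker_large` (H48/PL/Ang.lean), `IntegrableOn.mono_set`.
(As in `loss_low`, `slack_low` of H82/CM/LowK.lean and `rot_low` of H48/PL/Rot.lean.)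
-/

set_option autoImplicit false

open MeasureTheory Set Filter Topology Pool.Agent.H25.Kin Pool.Agent.H48.PL
open Pool.Agent.H82.CM

namespace Pool.Agent.H87.PF

variable {d : ℕ} {γ s C Ca cb : ℝ} {b : ℝ → ℝ}

theorem ker_ann (HL : HypL d γ s b C Ca cb) : ∃ c : ℝ, 0 < c ∧
    ∀ u : ℝ, 0 < u → u ≤ 1 / 64 → ∀ ε : ℝ, 0 < ε → ε ≤ u → ∀ v w : Vec d, v ≠ w →
      IntegrableOn (fun σ => kerB γ b ε v w σ)
        {σ | u ≤ 1 - cosTh v w σ ∧ 1 - cosTh v w σ ≤ 32 * u} (surf d) ∧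
      c * (len (v - w) ^ γ * u ^ (-s)) ≤
        ∫ σ in {σ : Vec d | u ≤ 1 - cosTh v w σ ∧ 1 - cosTh v w σ ≤ 32 * u},
          kerB γ b ε v w σ ∂(surf d) := by
  obtain ⟨c, hc, hsh⟩ := shell_low HL.H.hd
  obtain ⟨A2, hA2, hk2⟩ := ker_large HL.H
  have hcb := HL.lo.1
  have hβ := HL.H.β0
  obtain ⟨D, hD⟩ : ∃ D : ℝ, D = ((d : ℝ) - 1) / 2 := ⟨_, rfl⟩
  obtain ⟨B, hB⟩ : ∃ B : ℝ, B = D + s := ⟨_, rfl⟩
  refine ⟨cb * 32 ^ (-B) * c, by positivity, fun u hu hu1 ε hε hεu v w hvw => ?_⟩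
  have hlen : 0 < len (v - w) := len_sub_pos.2 hvw
  have hmy : Measurable fun σ : Vec d => 1 - cosTh v w σ :=
    measurable_const.sub (measurable_cosTh' v w)
  obtain ⟨hi2, -⟩ := hk2 ε hε v w hvw u hu
  obtain ⟨S, hS⟩ : ∃ S : Set (Vec d), S = {σ : Vec d | u ≤ 1 - cosTh v w σ ∧ 1 - cosTh v w σ ≤ 32 * u} :=
    ⟨_, rfl⟩
  have hSm : MeasurableSet S := by
    rw [hS]
    exact (measurableSet_le measurable_const hmy).inter (measurableSet_le hmy measurable_const)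
  have hi : IntegrableOn (fun σ => kerB γ b ε v w σ) S (surf d) := by
    refine hi2.mono_set ?_
    rw [hS]
    intro σ hσ
    exact hσ.1
  have hSeq : S = {σ : Vec d | u ≤ 1 - dot (dirk v w) σ ∧ 1 - dot (dirk v w) σ ≤ 32 * u} := by
    rw [hS]
    ext σ
    rw [mem_setOf_eq, mem_setOf_eq, cosTh_eq, dot_comm]
  have h1 := hsh (dirk v w) (nsq_dirk hvw) u hu hu1
  rw [← hSeq, ← hD] at h1
  have hfin : surf d S ≠ ⊤ := measure_ne_top _ _
  have hreal : c * u ^ D ≤ (surf d).real S := by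
    rw [Measure.real]
    exact (ENNReal.ofReal_le_iff_le_toReal hfin).1 h1
  obtain ⟨m, hm⟩ : ∃ m : ℝ, m = len (v - w) ^ γ * (cb * (32 * u) ^ (-B)) := ⟨_, rfl⟩
  have hlow : ∀ σ ∈ S, m ≤ kerB γ b ε v w σ := by
    intro σ hσ
    rw [hS] at hσ
    obtain ⟨h2, h3⟩ := hσ
    obtain ⟨x, hx⟩ : ∃ x : ℝ, x = cosTh v w σ := ⟨_, rfl⟩
    rw [← hx] at h2 h3
    have h4 : 0 ≤ x := by linarith
    have h5 : x < 1 := by linarith
    have h6 := HL.lo.2 x h4 h5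
    rw [← hD, ← hB] at h6
    have h7 : (32 * u) ^ (-B) ≤ (1 - x) ^ (-B) := by
      refine Real.rpow_le_rpow_of_nonpos (by linarith) h3 ?_
      rw [hB, hD]
      linarith
    unfold kerB
    rw [← hx, if_pos (by linarith), hm]
    refine mul_le_mul_of_nonneg_left ?_ (Real.rpow_nonneg hlen.le _)
    exact (mul_le_mul_of_nonneg_left h7 hcb.le).trans h6
  have hm0 : 0 ≤ m := by
    rw [hm]
    positivity
  have hint : m * (surf d).real S ≤ ∫ σ in S, kerB γ b ε v w σ ∂(surf d) := by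
    have h8 : ∫ _σ in S, m ∂(surf d) ≤ ∫ σ in S, kerB γ b ε v w σ ∂(surf d) :=
      setIntegral_mono_on (integrableOn_const hfin) hi hSm hlow
    rw [setIntegral_const, smul_eq_mul] at h8
    linarith
  rw [← hS]
  refine ⟨hi, le_trans ?_ hint⟩
  calc cb * 32 ^ (-B) * c * (len (v - w) ^ γ * u ^ (-s)) = m * (c * u ^ D) := by
        rw [hm, Real.mul_rpow (by norm_num) hu.le]
        have : u ^ (-s) = u ^ (-B) * u ^ D := by
          rw [← Real.rpow_add hu, hB]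
          congr 1
          ring
        rw [this]
        ring
    _ ≤ m * (surf d).real S := mul_le_mul_of_nonneg_left hreal hm0

end Pool.Agent.H87.PF
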