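import Pool.Agent.H87.PF.Base
import Pool.Agent.H25.Kin.Cap2

/-!
# Module KerC: upper bound of the kernel on a small ball away from the direction of `v - w`

(1) `surf {σ : nsq (σ - c₀) ≤ r²} ≤ C₁ r^(d-1)` for all `c₀ ∈ Vec d`, `r > 0`: a.e. `σ` has `nsq σ = 1` (`surf_ae`). If no unit vector is in the ball the measure is `0`; otherwise let `σ₀` be
one, then for unit `σ` in the ball `len (σ - σ₀) ≤ 2r` and `nsq (σ - σ₀) = 2 (1 - dot σ₀ σ) ≤ 4r²` (`nsq_sub`), so the set is a.e. contained in the cap `{1 - dot σ₀ σ ≤ 2r²}`, `cap_bound` (H25/Kin/Cap.lean or Cap2.lean)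
with `u = 2r²`: `≤ C (2r²)^((d-1)/2) = C 2^((d-1)/2) r^(d-1)`.
(2) On `S = {t ≤ 1 - cosTh, nsq (σ - c₀) ≤ r²}`: `kerB ≤ len^γ C (1-cosTh)^(-B) ≤ len^γ C t^(-B)`, `B = (d-1)/2+s` (`H.bd` = `AngBound`: `0 ≤ b x ≤ C (1-x)^(-B)` for `-1 ≤ x < 1`; `kerB = 0` or `= len^γ b(cosTh)`;
`abs_cosTh_le`). `setIntegral_mono_on` with a constant; `H.bd` has `0 ≤ C`. Integrability: bounded on a finite measure (or `ker_large` and `IntegrableOn.mono_set`).
-/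

set_option autoImplicit false

open MeasureTheory Set Filter Topology Pool.Agent.H25.Kin Pool.Agent.H48.PL

namespace Pool.Agent.H87.PF

variable {d : ℕ} {γ s C Ca : ℝ} {b : ℝ → ℝ}

private lemma of_lint' {μ : Measure (Vec d)} {S : Set (Vec d)} {f : Vec d → ℝ} (hf : Measurable f)
    (h0 : ∀ᵐ σ ∂μ, 0 ≤ f σ) {B : ℝ} (hB : 0 ≤ B)
    (h : ∫⁻ σ in S, ENNReal.ofReal (f σ) ∂μ ≤ ENNReal.ofReal B) :
    IntegrableOn f S μ ∧ ∫ σ in S, f σ ∂μ ≤ B := by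
  have h1 : 0 ≤ᵐ[μ.restrict S] f := ae_restrict_of_ae h0
  refine ⟨⟨hf.aestronglyMeasurable, ?_⟩, ?_⟩
  · rw [hasFiniteIntegral_iff_ofReal h1]
    exact lt_of_le_of_lt h ENNReal.ofReal_lt_top
  · rw [integral_eq_lintegral_of_nonneg_ae h1 hf.aestronglyMeasurable]
    calc _ ≤ (ENNReal.ofReal B).toReal := ENNReal.toReal_mono ENNReal.ofReal_ne_top h
      _ = B := ENNReal.toReal_ofReal hB

/-- surface measure of a ball -/
private lemma surf_ball (hd : 1 ≤ d) : ∃ C₁ : ℝ, 0 ≤ C₁ ∧ ∀ c₀ : Vec d, ∀ r : ℝ, 0 < r →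
    surf d {σ : Vec d | nsq (σ - c₀) ≤ r ^ 2} ≤ ENNReal.ofReal (C₁ * r ^ ((d : ℝ) - 1)) := by
  obtain ⟨C, hC0, hC⟩ := cap_bound hd
  refine ⟨C * 2 ^ (((d : ℝ) - 1) / 2), by positivity, fun c₀ r hr => ?_⟩
  by_cases hx : ∃ σ₀ : Vec d, nsq σ₀ = 1 ∧ nsq (σ₀ - c₀) ≤ r ^ 2
  · obtain ⟨σ₀, h1, h2⟩ := hx
    have hu : (0 : ℝ) < 2 * r ^ 2 := by positivity
    have e : C * (2 * r ^ 2) ^ (((d : ℝ) - 1) / 2) = C * 2 ^ (((d : ℝ) - 1) / 2) * r ^ ((d : ℝ) - 1) := by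
      rw [Real.mul_rpow (by norm_num) (by positivity), ← Real.rpow_natCast r 2,
        ← Real.rpow_mul hr.le]
      have : ((2 : ℕ) : ℝ) * (((d : ℝ) - 1) / 2) = (d : ℝ) - 1 := by push_cast; ring
      rw [this]
      ring
    rw [← e]
    refine le_trans (measure_mono_ae ?_) (hC σ₀ h1 (2 * r ^ 2) hu)
    filter_upwards [surf_ae] with σ hσ hm
    change 1 - dot σ₀ σ ≤ 2 * r ^ 2
    have hm' : nsq (σ - c₀) ≤ r ^ 2 := hm
    have l1 : len (σ - c₀) ≤ r := Real.sqrt_le_iff.2 ⟨hr.le, hm'⟩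
    have l2 : len (σ₀ - c₀) ≤ r := Real.sqrt_le_iff.2 ⟨hr.le, h2⟩
    have l3 : len (σ - σ₀) ≤ 2 * r := by
      have h3 := len_sub_le (σ - c₀) (σ₀ - c₀)
      rw [sub_sub_sub_cancel_right] at h3
      linarith
    have l4 : nsq (σ - σ₀) ≤ 4 * r ^ 2 := by
      rw [← len_sq]
      have h4 := len_nonneg (σ - σ₀)
      nlinarith
    rw [nsq_sub, hσ, h1, dot_comm σ σ₀] at l4
    linarith
  · push Not at hx
    have h0 : surf d {σ : Vec d | nsq (σ - c₀) ≤ r ^ 2} = 0 := by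
      rw [← le_zero_iff]
      refine le_trans (measure_mono_ae (t := ∅) ?_) (by simp)
      filter_upwards [surf_ae] with σ hσ hm
      have hm' : nsq (σ - c₀) ≤ r ^ 2 := hm
      exact absurd hm' (not_le.2 (hx σ hσ))
    rw [h0]
    exact bot_le

theorem ker_ball (H : Hyp d γ s b C Ca) : ∃ K : ℝ, 0 ≤ K ∧
    ∀ ε : ℝ, 0 < ε → ∀ v w : Vec d, v ≠ w → ∀ c₀ : Vec d, ∀ r : ℝ, 0 < r → ∀ t : ℝ, 0 < t →
      IntegrableOn (fun σ => kerB γ b ε v w σ)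
        {σ | t ≤ 1 - cosTh v w σ ∧ nsq (σ - c₀) ≤ r ^ 2} (surf d) ∧
      ∫ σ in {σ : Vec d | t ≤ 1 - cosTh v w σ ∧ nsq (σ - c₀) ≤ r ^ 2},
          kerB γ b ε v w σ ∂(surf d) ≤
        K * (len (v - w) ^ γ * t ^ (-(((d : ℝ) - 1) / 2 + s)) * r ^ ((d : ℝ) - 1)) := by
  obtain ⟨C₁, hC₁, hb⟩ := surf_ball (d := d) H.hd1
  have hC := H.bd.1
  refine ⟨C * C₁, by positivity, fun ε hε v w hvw c₀ r hr t ht => ?_⟩
  have hlen : 0 ≤ len (v - w) ^ γ := Real.rpow_nonneg (len_nonneg _) _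
  have htp : 0 ≤ t ^ (-(((d : ℝ) - 1) / 2 + s)) := Real.rpow_nonneg ht.le _
  have hrp : 0 ≤ r ^ ((d : ℝ) - 1) := Real.rpow_nonneg hr.le _
  refine of_lint' (measurable_kerB' γ H.bm ε v w) ?_ (by positivity) ?_
  · filter_upwards [surf_ae] with σ hσ
    exact kerB_nonneg H.bd hε hσ
  have hS : MeasurableSet {σ : Vec d | t ≤ 1 - cosTh v w σ ∧ nsq (σ - c₀) ≤ r ^ 2} := by
    have m1 : MeasurableSet {σ : Vec d | t ≤ 1 - cosTh v w σ} :=
      measurableSet_le measurable_const (measurable_const.sub (measurable_cosTh' v w))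
    have m2 : Measurable fun σ : Vec d => nsq (σ - c₀) :=
      (continuous_sq.comp (by fun_prop : Continuous fun σ : Vec d => σ - c₀)).measurable
    have m3 : MeasurableSet {σ : Vec d | nsq (σ - c₀) ≤ r ^ 2} := measurableSet_le m2 measurable_const
    exact m1.inter m3
  calc ∫⁻ σ in {σ : Vec d | t ≤ 1 - cosTh v w σ ∧ nsq (σ - c₀) ≤ r ^ 2}, ENNReal.ofReal
        (kerB γ b ε v w σ) ∂(surf d)
      ≤ ∫⁻ _ in {σ : Vec d | t ≤ 1 - cosTh v w σ ∧ nsq (σ - c₀) ≤ r ^ 2},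
          ENNReal.ofReal (C * len (v - w) ^ γ * t ^ (-(((d : ℝ) - 1) / 2 + s))) ∂(surf d) := by
        refine lintegral_mono_ae ?_
        rw [ae_restrict_iff' hS]
        filter_upwards [surf_ae] with σ hσ hm
        refine ENNReal.ofReal_le_ofReal ?_
        have h2 := kerB_le_ang (γ := γ) H.bd hε (v := v) (w := w) hσ
        refine h2.trans (mul_le_mul_of_nonneg_left ?_ (mul_nonneg hC hlen))
        exact Real.rpow_le_rpow_of_nonpos ht hm.1 (by linarith [H.β0])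
    _ = ENNReal.ofReal (C * len (v - w) ^ γ * t ^ (-(((d : ℝ) - 1) / 2 + s))) *
          surf d {σ : Vec d | t ≤ 1 - cosTh v w σ ∧ nsq (σ - c₀) ≤ r ^ 2} := by
        rw [setLIntegral_const]
    _ ≤ ENNReal.ofReal (C * len (v - w) ^ γ * t ^ (-(((d : ℝ) - 1) / 2 + s))) *
          ENNReal.ofReal (C₁ * r ^ ((d : ℝ) - 1)) := by
        gcongr
        refine le_trans (measure_mono ?_) (hb c₀ r hr)
        exact fun σ h => h.2
    _ = _ := by
        rw [← ENNReal.ofReal_mul (by positivity)]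
        congr 1
        ring

end Pool.Agent.H87.PF
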