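import Pool.Agent.H87.PF.KerB
import Pool.Agent.H87.PF.WInt

/-!
# Module SLow: the lower bound of Lemma S

`W = (AnnS Λ t v₀).indicator (WA a β V v₀)` is measurable and bounded by `1` (on `AnnS`: `ρ ≤ 1`, `a > 0`, `om ≤ 1`), so `PB W`. `fub` with `S = univ`: the right side is `∫_q G(v)G(w) ∫_σ kerB W`.
For `q = (v,w) ∈ PrN`, `v ≠ w`: with `ρ = len (v-v₀) > 0`, `N = nsq (v-w) > 0`, `u = 2Λ²ρ²/N`: `12Λρ ≤ len (v-w)` gives `N ≥ 144Λ²ρ²`, `u ≤ 1/72 ≤ 1/64`; `tN ≤ 2Λ²ρ²` gives `ε ≤ t ≤ u`. The `σ` with `(v,w,σ) ∈ AnnS` are `{u ≤ 1-cosTh ≤ 32u}`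
(multiply by `N`), so `∫_σ kerB W = ρ^a om ∫_{annulus} kerB ≥ ρ^a om c len^(1+a) u^(-s)` (`ker_ann`), `u^(-s) = 2^(-s) Λ^(-2s) ρ^(-2s) len^(2s)`: `= c 2^(-s) Λ^(-2s) wS` (`ρ^a ρ^(-2s) = ρ^(-(2s-a))`, `ρ > 0`).
For `q ∉ PrN` the inner integral is `≥ 0`. Then `integral_indicator`, `integral_mono_ae` (`wS_int` for the left side, `fub` for the right side; `ae_off`). Constant `c 2^(-s)`.
-/

set_option autoImplicit false

open MeasureTheory Set Filter Topology Pool.Agent.H25.Kin Pool.Agent.H48.PL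
open Pool.Agent.H82.CM
open Pool.Agent.H87.PE
open Pool.Agent.H48.PI (om)

namespace Pool.Agent.H87.PF

variable {d : ℕ} {s a β C Ca cb : ℝ} {b : ℝ → ℝ}

private lemma pow_id {ρ L Λ : ℝ} (hρ : 0 < ρ) (hL : 0 < L) (hΛ : 0 < Λ) (s a o : ℝ) :
    2 ^ (-s) * Λ ^ (-(2 * s)) * (L ^ (1 + a + 2 * s) * ρ ^ (-(2 * s - a)) * o) =
      ρ ^ a * o * (L ^ (1 + a) * (2 * Λ ^ 2 * ρ ^ 2 / L ^ 2) ^ (-s)) := by
  have e1 : (2 * Λ ^ 2 * ρ ^ 2 / L ^ 2) ^ (-s) = 2 ^ (-s) * Λ ^ (-(2 * s)) * ρ ^ (-(2 * s)) * L ^ (2 * s) := by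
    have hsq : ∀ x : ℝ, 0 < x → (x ^ 2) ^ (-s) = x ^ (-(2 * s)) := by
      intro x hx
      rw [← Real.rpow_natCast, ← Real.rpow_mul hx.le]
      congr 1
      push_cast
      ring
    rw [div_eq_mul_inv, Real.mul_rpow (by positivity) (by positivity), Real.mul_rpow (by positivity) (by positivity),
      Real.mul_rpow (by positivity) (by positivity), Real.inv_rpow (by positivity), hsq Λ hΛ, hsq ρ hρ, hsq L hL,
      ← Real.rpow_neg hL.le, neg_neg]
  have e2 : L ^ (1 + a + 2 * s) = L ^ (1 + a) * L ^ (2 * s) := Real.rpow_add hL _ _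
  have e3 : ρ ^ (-(2 * s - a)) = ρ ^ a * ρ ^ (-(2 * s)) := by
    rw [← Real.rpow_add hρ]
    congr 1
    ring
  rw [e1, e2, e3]
  ring

theorem s_low (HL : HypL d (1 + a) s b C Ca cb) (E : EP s a β) (has : a ≤ 2 * s) : ∃ c : ℝ, 0 < c ∧
    ∀ Λ : ℝ, 4 ≤ Λ → ∀ G : Vec d → ℝ, RD G → Continuous G → (∀ v, 0 ≤ G v) →
    ∀ V : ℝ, 1 ≤ V → ∀ v₀ : Vec d, ∀ t : ℝ, 0 < t → ∀ ε : ℝ, 0 < ε → ε ≤ t →
      c * Λ ^ (-(2 * s)) * (∫ q in PrN Λ t v₀, G q.1 * G q.2 * wS s a β V v₀ q) ≤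
        ∫ p, kx (1 + a) b ε G p * (AnnS Λ t v₀).indicator (WA a β V v₀) p ∂(mu3 d) := by
  obtain ⟨c, hc, hann⟩ := ker_ann HL
  have hβ1 := E.hβ1.le
  refine ⟨c * 2 ^ (-s), by positivity, fun Λ hΛ G hG hGc hG0 V hV v₀ t ht ε hε hεt => ?_⟩
  have hΛ0 : 0 < Λ := by linarith
  set W : Vec d × Vec d × Vec d → ℝ := (AnnS Λ t v₀).indicator (WA a β V v₀) with hW
  have hWm : Measurable W := (WA_meas hβ1 a V v₀).indicator (AnnS_meas Λ t v₀)
  have hWA0 : ∀ p, 0 ≤ WA a β V v₀ p := fun p =>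
    mul_nonneg (Real.rpow_nonneg (len_nonneg _) _) (om_RR hβ1 hV _ _).1
  have hW0 : ∀ p, 0 ≤ W p := fun p => indicator_nonneg (fun x _ => hWA0 x) p
  have hPB : PB W := by
    refine ⟨0, 1, zero_le_one, fun v w σ _ => ?_⟩
    rw [pow_zero, mul_one, abs_of_nonneg (hW0 _)]
    by_cases hm : (v, w, σ) ∈ AnnS Λ t v₀
    · rw [hW, indicator_of_mem hm]
      have h1 : len (v - v₀) ^ a ≤ 1 := Real.rpow_le_one (len_nonneg _) hm.2.1 E.ha.le
      have h2 := om_RR hβ1 hV v w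
      exact mul_le_one₀ h1 h2.1 h2.2
    · rw [hW, indicator_of_notMem hm]
      exact zero_le_one
  obtain ⟨i1, e1⟩ := fub HL.H hε hG hGc hWm hPB MeasurableSet.univ
  rw [setIntegral_univ] at e1
  rw [e1]
  set P : Vec d × Vec d → ℝ := fun q => G q.1 * G q.2 * wS s a β V v₀ q with hP
  have hPi : Integrable P := wS_int HL.H.hd E hG hGc hV v₀
  have e2 : c * 2 ^ (-s) * Λ ^ (-(2 * s)) * ∫ q in PrN Λ t v₀, P q =
      ∫ q, (PrN Λ t v₀).indicator (fun q => c * 2 ^ (-s) * Λ ^ (-(2 * s)) * P q) q := by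
    rw [integral_indicator (PrN_meas Λ t v₀), integral_const_mul]
  rw [e2]
  refine integral_mono_ae ((hPi.const_mul _).indicator (PrN_meas Λ t v₀)) i1 ?_
  filter_upwards [ae_off HL.H.hd1 v₀] with q hq
  obtain ⟨v, w⟩ := q
  have hvw : v ≠ w := hq.1
  have hGG : 0 ≤ G v * G w := mul_nonneg (hG0 v) (hG0 w)
  have huniv : {σ : Vec d | (v, w, σ) ∈ (univ : Set (Vec d × Vec d × Vec d))} = univ := by
    ext σ
    simp
  show (PrN Λ t v₀).indicator (fun q => c * 2 ^ (-s) * Λ ^ (-(2 * s)) * P q) (v, w) ≤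
    G v * G w * ∫ σ in {σ : Vec d | (v, w, σ) ∈ (univ : Set (Vec d × Vec d × Vec d))},
      kerB (1 + a) b ε v w σ * W (v, w, σ) ∂(surf d)
  rw [huniv, setIntegral_univ]
  by_cases hm : (v, w) ∈ PrN Λ t v₀
  · rw [indicator_of_mem hm]
    have hρ : 0 < len (v - v₀) := hm.1
    have hL : 0 < len (v - w) := len_sub_pos.2 hvw
    have h12 : 12 * Λ * len (v - v₀) ≤ len (v - w) := hm.2.2.1
    have htN : t * nsq (v - w) ≤ 2 * Λ ^ 2 * nsq (v - v₀) := hm.2.2.2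
    rw [← len_sq, ← len_sq] at htN
    set ρ : ℝ := len (v - v₀) with hρd
    set L : ℝ := len (v - w) with hLd
    set u : ℝ := 2 * Λ ^ 2 * ρ ^ 2 / L ^ 2 with hu
    have hu0 : 0 < u := by positivity
    have hu1 : u ≤ 1 / 64 := by
      rw [hu, div_le_div_iff₀ (by positivity) (by norm_num)]
      have h3 : (12 * Λ * ρ) ^ 2 ≤ L ^ 2 := pow_le_pow_left₀ (by positivity) h12 2
      nlinarith [h3, mul_pos (pow_pos hΛ0 2) (pow_pos hρ 2)]
    have htu : t ≤ u := by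
      rw [hu, le_div_iff₀ (by positivity)]
      exact htN
    obtain ⟨j1, j2⟩ := hann u hu0 hu1 ε hε (hεt.trans htu) v w hvw
    set S : Set (Vec d) := {σ : Vec d | u ≤ 1 - cosTh v w σ ∧ 1 - cosTh v w σ ≤ 32 * u} with hS
    have hSm : MeasurableSet S :=
      (measurableSet_le measurable_const (measurable_const.sub (measurable_cosTh' v w))).inter
        (measurableSet_le (measurable_const.sub (measurable_cosTh' v w)) measurable_const)
    have hmem : ∀ σ : Vec d, (v, w, σ) ∈ AnnS Λ t v₀ ↔ σ ∈ S := by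
      intro σ
      have hL2 : 0 < L ^ 2 := by positivity
      have huL : u * L ^ 2 = 2 * Λ ^ 2 * ρ ^ 2 := by
        rw [hu]
        field_simp
      constructor
      · intro h
        have h5 : 2 * Λ ^ 2 * nsq (v - v₀) ≤ nsq (v - w) * (1 - cosTh v w σ) := h.2.2.2.2.1
        have h6 : nsq (v - w) * (1 - cosTh v w σ) ≤ 32 * (2 * Λ ^ 2 * nsq (v - v₀)) := h.2.2.2.2.2
        rw [← len_sq, ← len_sq, ← hρd, ← hLd, ← huL] at h5 h6
        refine ⟨?_, ?_⟩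
        · have : L ^ 2 * u ≤ L ^ 2 * (1 - cosTh v w σ) := by linarith
          exact le_of_mul_le_mul_left this hL2
        · have : L ^ 2 * (1 - cosTh v w σ) ≤ L ^ 2 * (32 * u) := by linarith
          exact le_of_mul_le_mul_left this hL2
      · intro h
        refine ⟨hm.1, hm.2.1, hm.2.2.1, hm.2.2.2, ?_, ?_⟩
        · show 2 * Λ ^ 2 * nsq (v - v₀) ≤ nsq (v - w) * (1 - cosTh v w σ)
          rw [← len_sq, ← len_sq, ← hρd, ← hLd, ← huL]
          have := mul_le_mul_of_nonneg_left h.1 hL2.le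
          linarith
        · show nsq (v - w) * (1 - cosTh v w σ) ≤ 32 * (2 * Λ ^ 2 * nsq (v - v₀))
          rw [← len_sq, ← len_sq, ← hρd, ← hLd, ← huL]
          have := mul_le_mul_of_nonneg_left h.2 hL2.le
          linarith
    have e3 : ∫ σ, kerB (1 + a) b ε v w σ * W (v, w, σ) ∂(surf d) =
        ρ ^ a * om β V (RR v w) * ∫ σ in S, kerB (1 + a) b ε v w σ ∂(surf d) := by
      rw [← integral_const_mul, ← integral_indicator hSm]
      refine integral_congr_ae (Eventually.of_forall fun σ => ?_)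
      show kerB (1 + a) b ε v w σ * W (v, w, σ) =
        S.indicator (fun σ => ρ ^ a * om β V (RR v w) * kerB (1 + a) b ε v w σ) σ
      by_cases hs : σ ∈ S
      · rw [indicator_of_mem hs, hW, indicator_of_mem ((hmem σ).2 hs)]
        show kerB (1 + a) b ε v w σ * (len (v - v₀) ^ a * om β V (RR v w)) = _
        ring
      · rw [indicator_of_notMem hs, hW, indicator_of_notMem (fun h => hs ((hmem σ).1 h)), mul_zero]
    have hρo : 0 ≤ ρ ^ a * om β V (RR v w) :=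
      mul_nonneg (Real.rpow_nonneg hρ.le _) (om_RR hβ1 hV v w).1
    have e4 : c * 2 ^ (-s) * Λ ^ (-(2 * s)) * wS s a β V v₀ (v, w) =
        ρ ^ a * om β V (RR v w) * (c * (L ^ (1 + a) * u ^ (-s))) := by
      have h7 := pow_id hρ hL hΛ0 s a (om β V (RR v w))
      unfold wS
      rw [sP_exp has]
      show c * 2 ^ (-s) * Λ ^ (-(2 * s)) *
        (L ^ (1 + a + 2 * s) * ρ ^ (-(2 * s - a)) * om β V (RR v w)) = _
      rw [hu]
      calc c * 2 ^ (-s) * Λ ^ (-(2 * s)) * (L ^ (1 + a + 2 * s) * ρ ^ (-(2 * s - a)) * om β V (RR v w))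
          = c * (2 ^ (-s) * Λ ^ (-(2 * s)) * (L ^ (1 + a + 2 * s) * ρ ^ (-(2 * s - a)) * om β V (RR v w))) := by ring
        _ = _ := by
          rw [h7]
          ring
    calc c * 2 ^ (-s) * Λ ^ (-(2 * s)) * P (v, w)
        = G v * G w * (c * 2 ^ (-s) * Λ ^ (-(2 * s)) * wS s a β V v₀ (v, w)) := by
          rw [hP]
          ring
      _ = G v * G w * (ρ ^ a * om β V (RR v w) * (c * (L ^ (1 + a) * u ^ (-s)))) := by rw [e4]
      _ ≤ G v * G w * (ρ ^ a * om β V (RR v w) * ∫ σ in S, kerB (1 + a) b ε v w σ ∂(surf d)) :=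
          mul_le_mul_of_nonneg_left (mul_le_mul_of_nonneg_left j2 hρo) hGG
      _ = _ := by rw [e3]
  · rw [indicator_of_notMem hm]
    refine mul_nonneg hGG (integral_nonneg_of_ae ?_)
    filter_upwards [surf_ae (d := d)] with σ hσ
    exact mul_nonneg (kerB_nonneg HL.H.bd hε hσ) (hW0 _)

end Pool.Agent.H87.PF
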