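import Pool.Agent.H87.PF.KerC
import Pool.Agent.H87.PF.Geo
import Pool.Agent.H87.PF.WInt

/-!
# Module SUp: the upper bound of the swapped term in Lemma S

`X p = (AnnS Λ t v₀).indicator (WA a β V v₀) (coll p)` is measurable (`coll_preserving.measurable`) and bounded by `1` (`|σ| = 1`), `PB X`. `maj` with `S = univ` and `M q = K' (PrS Λ t v₀).indicator (fun q => G G_* wS) q`, `K' = C' Λ^(-(d-1)-a)`:
for `v ≠ w`, `v ≠ v₀`: if `X (v,w,σ) ≠ 0` for a unit `σ`, then by `geo`: `(v,w) ∈ PrS`, `ρ' := len (v'-v₀) ≤ (2/Λ)ρ`, `1 - cosTh ≥ t' := ρ²/(2L²)`, `nsq (σ-c₀) ≤ r²`, `r = 4ρ/(ΛL)`, `L = len (v-w)`, and `X = ρ'^a om(RR v w) ≤ (2/Λ)^a ρ^a om` (`RR_coll`).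
So `∫_σ kerB X ≤ (2/Λ)^a ρ^a om ∫_{t' ≤ 1-cosTh, nsq (σ-c₀) ≤ r²} kerB ≤ (2/Λ)^a ρ^a om K L^(1+a) t'^(-((d-1)/2+s)) r^(d-1)` (`ker_ball`), and
`t'^(-((d-1)/2+s)) = 2^((d-1)/2+s) (ρ/L)^(-(d-1)-2s)`, `r^(d-1) = 4^(d-1) Λ^(-(d-1)) (ρ/L)^(d-1)`; the product is `C'' Λ^(-(d-1)-a) L^(1+a+2s) ρ^(a-2s) om = C'' Λ^(-(d-1)-a) wS`. If `(v,w) ∉ PrS` the inner integral is `0`.
`kerB ≥ 0` a.e. (`kerB_nonneg`, `surf_ae`), `setIntegral_mono_set`/`integral_mono_of_nonneg`. `M` is integrable by `wS_int`, `∫ M = K' ∫_{PrS} …` (`integral_indicator`, `PrS_meas`).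
-/

set_option autoImplicit false

open MeasureTheory Set Filter Topology Pool.Agent.H25.Kin Pool.Agent.H48.PL
open Pool.Agent.H87.PE
open Pool.Agent.H48.PI (om)

namespace Pool.Agent.H87.PF

variable {d : ℕ} {s a β C Ca : ℝ} {b : ℝ → ℝ}

/-- the powers -/
private lemma alg {a s D Λ L ρ K₀ o : ℝ} (hΛ : 0 < Λ) (hL : 0 < L) (hρ : 0 < ρ) :
    (2 / Λ * ρ) ^ a * o * (K₀ * (L ^ (1 + a) * (ρ ^ 2 / (2 * L ^ 2)) ^ (-(D / 2 + s)) *
      (4 * ρ / (Λ * L)) ^ D)) =
    ((2 : ℝ) ^ a * (2 : ℝ) ^ (D / 2 + s) * (4 : ℝ) ^ D * K₀) * Λ ^ (-D - a) *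
      (L ^ (1 + a + 2 * s) * ρ ^ (-(2 * s - a)) * o) := by
  have e1 : (2 / Λ * ρ) ^ a = 2 ^ a * Λ ^ (-a) * ρ ^ a := by
    rw [Real.mul_rpow (by positivity) hρ.le, Real.div_rpow (by norm_num) hΛ.le,
      Real.rpow_neg hΛ.le, div_eq_mul_inv]
  have e2 : (ρ ^ 2 / (2 * L ^ 2)) ^ (-(D / 2 + s)) =
      2 ^ (D / 2 + s) * ρ ^ (-(D + 2 * s)) * L ^ (D + 2 * s) := by
    have h1 : (ρ ^ 2) ^ (-(D / 2 + s)) = ρ ^ (-(D + 2 * s)) := by
      rw [← Real.rpow_natCast ρ 2, ← Real.rpow_mul hρ.le]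
      congr 1
      push_cast
      ring
    have h2 : (L ^ 2) ^ (-(D / 2 + s)) = L ^ (-(D + 2 * s)) := by
      rw [← Real.rpow_natCast L 2, ← Real.rpow_mul hL.le]
      congr 1
      push_cast
      ring
    rw [Real.div_rpow (by positivity) (by positivity), Real.mul_rpow (by norm_num) (by positivity),
      h1, h2, Real.rpow_neg (by norm_num : (0 : ℝ) ≤ 2), Real.rpow_neg hL.le]
    have h3 : (0 : ℝ) < 2 ^ (D / 2 + s) := Real.rpow_pos_of_pos (by norm_num) _
    have h4 : 0 < L ^ (D + 2 * s) := Real.rpow_pos_of_pos hL _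
    field_simp
  have e3 : (4 * ρ / (Λ * L)) ^ D = 4 ^ D * ρ ^ D * Λ ^ (-D) * L ^ (-D) := by
    rw [Real.div_rpow (by positivity) (by positivity), Real.mul_rpow (by norm_num) hρ.le,
      Real.mul_rpow hΛ.le hL.le, Real.rpow_neg hΛ.le, Real.rpow_neg hL.le]
    have h3 : 0 < Λ ^ D := Real.rpow_pos_of_pos hΛ _
    have h4 : 0 < L ^ D := Real.rpow_pos_of_pos hL _
    field_simp
  have f1 : Λ ^ (-D - a) = Λ ^ (-D) * Λ ^ (-a) := by
    rw [← Real.rpow_add hΛ]
    congr 1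
  have f2 : L ^ (1 + a + 2 * s) = L ^ (1 + a) * L ^ (D + 2 * s) * L ^ (-D) := by
    rw [← Real.rpow_add hL, ← Real.rpow_add hL]
    congr 1
    ring
  have f3 : ρ ^ (-(2 * s - a)) = ρ ^ a * ρ ^ (-(D + 2 * s)) * ρ ^ D := by
    rw [← Real.rpow_add hρ, ← Real.rpow_add hρ]
    congr 1
    ring
  rw [e1, e2, e3, f1, f2, f3]
  ring

theorem s_up (H : Hyp d (1 + a) s b C Ca) (E : EP s a β) (has : a ≤ 2 * s) : ∃ K : ℝ, 0 ≤ K ∧
    ∀ Λ : ℝ, 4 ≤ Λ → ∀ G : Vec d → ℝ, RD G → Continuous G → (∀ v, 0 ≤ G v) →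
    ∀ V : ℝ, 1 ≤ V → ∀ v₀ : Vec d, ∀ t : ℝ, 0 < t → ∀ ε : ℝ, 0 < ε →
      ∫ p, kx (1 + a) b ε G p * (AnnS Λ t v₀).indicator (WA a β V v₀) (coll p) ∂(mu3 d) ≤
        K * Λ ^ (-((d : ℝ) - 1) - a) *
          ∫ q in PrS Λ t v₀, G q.1 * G q.2 * wS s a β V v₀ q := by
  obtain ⟨K₀, hK₀, hK⟩ := ker_ball H
  refine ⟨(2 : ℝ) ^ a * (2 : ℝ) ^ (((d : ℝ) - 1) / 2 + s) * (4 : ℝ) ^ ((d : ℝ) - 1) * K₀,
    by positivity, ?_⟩
  intro Λ hΛ G hG hGc h0 V hV v₀ t ht ε hε
  have hΛ0 : 0 < Λ := by linarith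
  have hβ1 : β ≤ 1 := E.hβ1.le
  set K₁ : ℝ := (2 : ℝ) ^ a * (2 : ℝ) ^ (((d : ℝ) - 1) / 2 + s) * (4 : ℝ) ^ ((d : ℝ) - 1) * K₀
    with hK₁
  have hK₁0 : 0 ≤ K₁ := by positivity
  set X : Vec d × Vec d × Vec d → ℝ :=
    fun p => (AnnS Λ t v₀).indicator (WA a β V v₀) (coll p) with hX
  have mX : Measurable X :=
    ((WA_meas hβ1 a V v₀).indicator (AnnS_meas Λ t v₀)).comp (coll_preserving H.hd1).measurable
  have hXv : ∀ p, 0 ≤ X p ∧ X p ≤ 1 := by
    intro p
    simp only [hX]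
    by_cases hm : coll p ∈ AnnS Λ t v₀
    · rw [indicator_of_mem hm]
      have h1 : 0 ≤ len ((coll p).1 - v₀) ^ a := Real.rpow_nonneg (len_nonneg _) _
      have h2 : len ((coll p).1 - v₀) ^ a ≤ 1 :=
        Real.rpow_le_one (len_nonneg _) hm.2.1 E.ha.le
      have h3 := om_RR hβ1 hV (coll p).1 (coll p).2.1
      unfold WA
      exact ⟨mul_nonneg h1 h3.1, mul_le_one₀ h2 h3.1 h3.2⟩
    · rw [indicator_of_notMem hm]
      exact ⟨le_refl _, zero_le_one⟩
  have hPB : PB X := by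
    refine ⟨0, 1, zero_le_one, fun v w σ _ => ?_⟩
    rw [abs_of_nonneg (hXv _).1]
    simpa using (hXv (v, w, σ)).2
  set M : Vec d × Vec d → ℝ := fun q => (K₁ * Λ ^ (-((d : ℝ) - 1) - a)) *
    (PrS Λ t v₀).indicator (fun q => G q.1 * G q.2 * wS s a β V v₀ q) q with hM
  have iM : Integrable M :=
    ((wS_int H.hd E hG hGc hV v₀).indicator (PrS_meas Λ t v₀)).const_mul _
  have hle : ∀ v w : Vec d, v ≠ w → v ≠ v₀ → w ≠ v₀ → G v * G w *
      ∫ σ in {σ : Vec d | (v, w, σ) ∈ (univ : Set (Vec d × Vec d × Vec d))},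
        kerB (1 + a) b ε v w σ * X (v, w, σ) ∂(surf d) ≤ M (v, w) := by
    intro v w hvw hv₀ _
    have eU : {σ : Vec d | (v, w, σ) ∈ (univ : Set (Vec d × Vec d × Vec d))} = univ := by
      ext σ
      simp
    rw [eU, setIntegral_univ]
    have hL : 0 < len (v - w) := len_sub_pos.2 hvw
    have hρ : 0 < len (v - v₀) := len_sub_pos.2 hv₀
    have hΛL : 0 < Λ * len (v - w) := mul_pos hΛ0 hL
    have hfac : 0 ≤ K₁ * Λ ^ (-((d : ℝ) - 1) - a) :=
      mul_nonneg hK₁0 (Real.rpow_nonneg hΛ0.le _)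
    by_cases hP : (v, w) ∈ PrS Λ t v₀
    · -- the pair is in the set
      have eM : M (v, w) = K₁ * Λ ^ (-((d : ℝ) - 1) - a) *
          (G v * G w * wS s a β V v₀ (v, w)) := by
        simp only [hM]
        rw [indicator_of_mem hP]
      set c₀ : Vec d := (2 / len (v - w)) • (v₀ - (1 / 2 : ℝ) • (v + w)) with hc₀
      set r : ℝ := 4 * len (v - v₀) / (Λ * len (v - w)) with hr
      set t' : ℝ := nsq (v - v₀) / (2 * nsq (v - w)) with ht'
      have hr0 : 0 < r := by positivity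
      have ht'e : t' = len (v - v₀) ^ 2 / (2 * len (v - w) ^ 2) := by
        rw [ht', len_sq, len_sq]
      have ht'0 : 0 < t' := by rw [ht'e]; positivity
      obtain ⟨iB, bB⟩ := hK ε hε v w hvw c₀ r hr0 t' ht'0
      set B : Set (Vec d) := {σ | t' ≤ 1 - cosTh v w σ ∧ nsq (σ - c₀) ≤ r ^ 2} with hB
      have mB : MeasurableSet B := by
        have m1 : MeasurableSet {σ : Vec d | t' ≤ 1 - cosTh v w σ} :=
          measurableSet_le measurable_const (measurable_const.sub (measurable_cosTh' v w))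
        have m2 : MeasurableSet {σ : Vec d | nsq (σ - c₀) ≤ r ^ 2} :=
          measurableSet_le (continuous_sq.comp (by fun_prop : Continuous fun σ : Vec d =>
            σ - c₀)).measurable measurable_const
        exact m1.inter m2
      set W₀ : ℝ := (2 / Λ * len (v - v₀)) ^ a * om β V (RR v w) with hW₀
      have hom := om_RR hβ1 hV v w
      have hW₀0 : 0 ≤ W₀ := mul_nonneg (Real.rpow_nonneg (by positivity) _) hom.1
      have key : ∫ σ, kerB (1 + a) b ε v w σ * X (v, w, σ) ∂(surf d) ≤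
          ∫ σ, B.indicator (fun σ => kerB (1 + a) b ε v w σ * W₀) σ ∂(surf d) := by
        refine integral_mono_of_nonneg ?_ ((integrable_indicator_iff mB).2
          (iB.mul_const W₀)) ?_
        · filter_upwards [surf_ae (d := d)] with σ hσ
          exact mul_nonneg (kerB_nonneg H.bd hε hσ) (hXv _).1
        · filter_upwards [surf_ae (d := d)] with σ hσ
          have hk := kerB_nonneg (γ := 1 + a) H.bd hε (v := v) (w := w) hσ
          by_cases hm : coll (v, w, σ) ∈ AnnS Λ t v₀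
          · obtain ⟨_, g2, g3, g4⟩ := geo hΛ hvw hσ hm
            have hσB : σ ∈ B := ⟨g3, g4⟩
            change kerB (1 + a) b ε v w σ * X (v, w, σ) ≤
              B.indicator (fun σ => kerB (1 + a) b ε v w σ * W₀) σ
            rw [indicator_of_mem hσB]
            refine mul_le_mul_of_nonneg_left ?_ hk
            simp only [hX]
            rw [indicator_of_mem hm]
            unfold WA
            rw [RR_coll hσ, hW₀]
            refine mul_le_mul_of_nonneg_right ?_ hom.1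
            exact Real.rpow_le_rpow (len_nonneg _) g2 E.ha.le
          · change kerB (1 + a) b ε v w σ * X (v, w, σ) ≤
              B.indicator (fun σ => kerB (1 + a) b ε v w σ * W₀) σ
            have hX0 : X (v, w, σ) = 0 := by
              simp only [hX]
              rw [indicator_of_notMem hm]
            rw [hX0, mul_zero]
            refine indicator_apply_nonneg fun _ => mul_nonneg hk hW₀0
      have key2 : ∫ σ, B.indicator (fun σ => kerB (1 + a) b ε v w σ * W₀) σ ∂(surf d) =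
          (∫ σ in B, kerB (1 + a) b ε v w σ ∂(surf d)) * W₀ := by
        rw [integral_indicator mB, integral_mul_const]
      have key3 : W₀ * (K₀ * (len (v - w) ^ (1 + a) * t' ^ (-(((d : ℝ) - 1) / 2 + s)) *
          r ^ ((d : ℝ) - 1))) = K₁ * Λ ^ (-((d : ℝ) - 1) - a) * wS s a β V v₀ (v, w) := by
        unfold wS
        rw [hW₀, ht'e, hr, hK₁, sP_exp has]
        exact alg hΛ0 hL hρ
      have hGG : 0 ≤ G v * G w := mul_nonneg (h0 v) (h0 w)
      calc G v * G w * ∫ σ, kerB (1 + a) b ε v w σ * X (v, w, σ) ∂(surf d)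
          ≤ G v * G w * ((∫ σ in B, kerB (1 + a) b ε v w σ ∂(surf d)) * W₀) := by
            refine mul_le_mul_of_nonneg_left ?_ hGG
            rw [← key2]
            exact key
        _ ≤ G v * G w * ((K₀ * (len (v - w) ^ (1 + a) * t' ^ (-(((d : ℝ) - 1) / 2 + s)) *
              r ^ ((d : ℝ) - 1))) * W₀) := by
            refine mul_le_mul_of_nonneg_left ?_ hGG
            exact mul_le_mul_of_nonneg_right bB hW₀0
        _ = M (v, w) := by
            rw [mul_comm (K₀ * _) W₀, key3, eM]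
            ring
    · -- the pair is not in the set
      have eM : M (v, w) = 0 := by
        simp only [hM]
        rw [indicator_of_notMem hP, mul_zero]
      have e0 : ∫ σ, kerB (1 + a) b ε v w σ * X (v, w, σ) ∂(surf d) = 0 := by
        refine integral_eq_zero_of_ae ?_
        filter_upwards [surf_ae (d := d)] with σ hσ
        have hm : coll (v, w, σ) ∉ AnnS Λ t v₀ := fun hm => hP (geo hΛ hvw hσ hm).1
        have hX0 : X (v, w, σ) = 0 := by
          simp only [hX]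
          rw [indicator_of_notMem hm]
        rw [hX0, mul_zero]
        rfl
      rw [e0, eM, mul_zero]
  have fin := maj H hε hG hGc mX hPB MeasurableSet.univ v₀ iM hle
  rw [setIntegral_univ] at fin
  refine fin.trans (le_of_eq ?_)
  simp only [hM]
  rw [integral_const_mul, integral_indicator (PrS_meas Λ t v₀)]

end Pool.Agent.H87.PF
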