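import Pool.Agent.H87.PF.EntI
import Pool.Agent.H87.PF.SLow
import Pool.Agent.H87.PF.SUp

/-!
# Module SCut: Lemma S at the cut-off level

The exponent in `wS` is `-(2s-a)` (`sP_exp has`), `0 ≤ 2s-a < 1`. `I = ∫_{PrS} GG_* wS`, `I₁ = ∫_{PrN} GG_* wS` (finite: `wS_int`). On `PrS \ PrN`, `v ≠ w`: either `ρ > 1`: `ρ^(-(2s-a)) ≤ 1`, `wS ≤ len^(1+a+2s) om ≤ wN` (`len^(2s) ≤ 1 + len^β`);
or `len < 12Λρ`: `ρ^(-(2s-a)) ≤ (len/(12Λ))^(-(2s-a))`, `wS ≤ (12Λ)^(2s-a) len^(1+2a) om ≤ (12Λ)^(2s-a) wN` (`len^(1+a+2s) len^(-(2s-a)) = len^(1+a) len^a`, `len^a ≤ 1 + len^β`). So `I ≤ I₁ + K_Λ XN`, `K_Λ = 1 + (12Λ)^(2s-a)`.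
`ent_ineq` with `W = (AnnS).indicator WA` (`0 ≤ W ≤ 1`), `s_low` (constant `c`), `s_up` (constant `K`): `c Λ^(-2s) I₁ ≤ 4 K Λ^(-(d-1)-a) I + 4 Pc ≤ 4 K Λ^(-(d-1)-a) (I₁ + K_Λ XN) + 4 Pc`.
Choose `Λ ≥ 4` with `4 K Λ^(-(d-1)-a+2s) ≤ c/2` (`d - 1 + a - 2s > 0` as `d ≥ 2`, `2s - a < 1`: `tendsto_rpow_neg_atTop`). Then `(c/2) Λ^(-2s) I₁ ≤ 4KΛ^(-(d-1)-a) K_Λ XN + 4 Pc`, and `I ≤ I₁ + K_Λ XN`. (`Pc ≥ 0`: `Pc_nonneg`, `XN ≥ 0`.)
-/

set_option autoImplicit false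

open MeasureTheory Set Filter Topology Pool.Agent.H25.Kin Pool.Agent.H48.PL
open Pool.Agent.H82.CM
open Pool.Agent.H87.PE

namespace Pool.Agent.H87.PF

variable {d : ℕ} {s a β C Ca cb : ℝ} {b : ℝ → ℝ}

private lemma sc_one {L x y : ℝ} (hL : 0 < L) (hx : 0 ≤ x) (hxy : x ≤ y) : L ^ x ≤ 1 + L ^ y := by
  rcases le_total L 1 with h | h
  · have h1 : L ^ x ≤ 1 := Real.rpow_le_one hL.le h hx
    have h2 : 0 ≤ L ^ y := Real.rpow_nonneg hL.le _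
    linarith
  · have h1 : L ^ x ≤ L ^ y := Real.rpow_le_rpow_of_exponent_le h hxy
    linarith

private lemma sc_pt (E : EP s a β) (has : a ≤ 2 * s) {L ρ Λ : ℝ} (hL : 0 < L) (hρ : 0 < ρ)
    (hΛ : 4 ≤ Λ) (h : ρ ≤ 1 → L < 12 * Λ * ρ) :
    L ^ (1 + a + 2 * s) * ρ ^ (-(2 * s - a)) ≤
      (1 + (12 * Λ) ^ (2 * s - a)) * (L ^ (1 + a) * (1 + L ^ β)) := by
  have hΛ0 : 0 < 12 * Λ := by linarith
  have h0 : 0 ≤ (12 * Λ) ^ (2 * s - a) := Real.rpow_nonneg hΛ0.le _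
  have hL1 : 0 < L ^ (1 + a) := Real.rpow_pos_of_pos hL _
  have hLβ : 0 < L ^ β := Real.rpow_pos_of_pos hL _
  have hN : 0 < L ^ (1 + a) * (1 + L ^ β) := by positivity
  by_cases hρ1 : ρ ≤ 1
  · have h1 := h hρ1
    have h2 : L / (12 * Λ) ≤ ρ := by
      rw [div_le_iff₀ hΛ0]
      linarith
    have h3 : ρ ^ (-(2 * s - a)) ≤ (L / (12 * Λ)) ^ (-(2 * s - a)) :=
      Real.rpow_le_rpow_of_nonpos (div_pos hL hΛ0) h2 (by linarith)
    have h4 : (L / (12 * Λ)) ^ (-(2 * s - a)) = L ^ (-(2 * s - a)) * (12 * Λ) ^ (2 * s - a) := by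
      rw [Real.div_rpow hL.le hΛ0.le, Real.rpow_neg hΛ0.le, div_inv_eq_mul]
    have h5 : L ^ (1 + a + 2 * s) * L ^ (-(2 * s - a)) = L ^ (1 + a) * L ^ a := by
      rw [← Real.rpow_add hL, ← Real.rpow_add hL]
      congr 1
      ring
    have h6 := sc_one hL E.ha.le E.haβ
    calc L ^ (1 + a + 2 * s) * ρ ^ (-(2 * s - a))
        ≤ L ^ (1 + a + 2 * s) * (L ^ (-(2 * s - a)) * (12 * Λ) ^ (2 * s - a)) := by
          rw [← h4]
          exact mul_le_mul_of_nonneg_left h3 (Real.rpow_nonneg hL.le _)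
      _ = (12 * Λ) ^ (2 * s - a) * (L ^ (1 + a) * L ^ a) := by rw [← h5]; ring
      _ ≤ (12 * Λ) ^ (2 * s - a) * (L ^ (1 + a) * (1 + L ^ β)) := by gcongr
      _ ≤ _ := by
          rw [add_mul, one_mul]
          linarith
  · push Not at hρ1
    have h1 : ρ ^ (-(2 * s - a)) ≤ 1 :=
      Real.rpow_le_one_of_one_le_of_nonpos hρ1.le (by linarith)
    have h2 : L ^ (1 + a + 2 * s) = L ^ (1 + a) * L ^ (2 * s) := Real.rpow_add hL _ _
    have h3 := sc_one hL (by linarith [E.hs] : 0 ≤ 2 * s) E.hβ.le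
    calc L ^ (1 + a + 2 * s) * ρ ^ (-(2 * s - a)) ≤ L ^ (1 + a + 2 * s) * 1 :=
          mul_le_mul_of_nonneg_left h1 (Real.rpow_nonneg hL.le _)
      _ = L ^ (1 + a) * L ^ (2 * s) := by rw [mul_one, h2]
      _ ≤ L ^ (1 + a) * (1 + L ^ β) := by gcongr
      _ ≤ _ := by
          rw [add_mul, one_mul]
          have := mul_nonneg h0 hN.le
          linarith

theorem s_cut (HL : HypL d (1 + a) s b C Ca cb) (E : EP s a β) (has : a ≤ 2 * s) : ∃ Λ K : ℝ, 4 ≤ Λ ∧ 0 ≤ K ∧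
    ∀ G : Vec d → ℝ, Gd G → ∀ V : ℝ, 1 ≤ V → ∀ v₀ : Vec d, ∀ t : ℝ, 0 < t →
    ∀ ε : ℝ, 0 < ε → ε ≤ t →
      ∫ q in PrS Λ t v₀, G q.1 * G q.2 * wS s a β V v₀ q ≤
        K * (XN a β V G + Pc (1 + a) b ε G) := by
  obtain ⟨c, hc, hlow⟩ := s_low HL E has
  obtain ⟨K, hK, hup⟩ := s_up HL.H E has
  have hβ1 := E.hβ1.le
  have hd2 : (2 : ℝ) ≤ d := by exact_mod_cast HL.H.hd
  have he : 0 < (d : ℝ) - 1 + a - 2 * s := by linarith [E.ha, E.hβ, E.hβ1]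
  obtain ⟨Λ, hΛ4, hΛ⟩ : ∃ Λ : ℝ, 4 ≤ Λ ∧ 4 * K * Λ ^ (-((d : ℝ) - 1 + a - 2 * s)) ≤ c / 2 := by
    have h1 := tendsto_rpow_neg_atTop he
    have h2 : ∀ᶠ x : ℝ in atTop, x ^ (-((d : ℝ) - 1 + a - 2 * s)) < c / 2 / (4 * K + 1) :=
      h1.eventually (gt_mem_nhds (by positivity))
    obtain ⟨Λ, h3, h4⟩ := ((eventually_ge_atTop (4 : ℝ)).and h2).exists
    refine ⟨Λ, h3, ?_⟩
    rw [lt_div_iff₀ (by positivity)] at h4
    have h5 : 0 ≤ Λ ^ (-((d : ℝ) - 1 + a - 2 * s)) := Real.rpow_nonneg (by linarith) _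
    nlinarith
  have hΛ0 : 0 < Λ := by linarith
  set x : ℝ := Λ ^ (-(2 * s)) with hx
  have hx0 : 0 < x := Real.rpow_pos_of_pos hΛ0 _
  set KΛ : ℝ := 1 + (12 * Λ) ^ (2 * s - a) with hKΛ
  have hKΛ0 : 0 ≤ KΛ := by
    have : 0 ≤ (12 * Λ) ^ (2 * s - a) := Real.rpow_nonneg (by linarith) _
    linarith
  refine ⟨Λ, 2 * KΛ + 8 / (c * x), hΛ4, by positivity, fun G hG V hV v₀ t ht ε hε hεt => ?_⟩
  have hG0 : ∀ v, 0 ≤ G v := fun v => (hG.pos v).le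
  set W : Vec d × Vec d × Vec d → ℝ := (AnnS Λ t v₀).indicator (WA a β V v₀) with hW
  have hWm : Measurable W := (WA_meas hβ1 a V v₀).indicator (AnnS_meas Λ t v₀)
  have hWA0 : ∀ p, 0 ≤ WA a β V v₀ p := fun p =>
    mul_nonneg (Real.rpow_nonneg (len_nonneg _) _) (om_RR hβ1 hV _ _).1
  have hW0 : ∀ p, 0 ≤ W p := fun p => indicator_nonneg (fun x _ => hWA0 x) p
  have hW1 : ∀ p, W p ≤ 1 := by
    intro p
    by_cases hm : p ∈ AnnS Λ t v₀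
    · rw [hW, indicator_of_mem hm]
      have h1 : len (p.1 - v₀) ^ a ≤ 1 := Real.rpow_le_one (len_nonneg _) hm.2.1 E.ha.le
      have h2 := om_RR hβ1 hV p.1 p.2.1
      exact mul_le_one₀ h1 h2.1 h2.2
    · rw [hW, indicator_of_notMem hm]
      exact zero_le_one
  have hent := ent_ineq HL.H hε hG hWm hW0 hW1
  have hl := hlow Λ hΛ4 G hG.rd hG.cont hG0 V hV v₀ t ht ε hε hεt
  have hu := hup Λ hΛ4 G hG.rd hG.cont hG0 V hV v₀ t ht ε hε
  rw [← hW] at hl hu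
  set P : Vec d × Vec d → ℝ := fun q => G q.1 * G q.2 * wS s a β V v₀ q with hP
  have hPi : Integrable P := wS_int HL.H.hd E hG.rd hG.cont hV v₀
  have hNi := wN_int E hG.rd hG.cont hV
  set N : Vec d × Vec d → ℝ := fun q => G q.1 * G q.2 * wN a β V q with hN
  have hP0 : ∀ q, 0 ≤ P q := fun q => mul_nonneg (mul_nonneg (hG0 _) (hG0 _)) (wS_nonneg hV v₀ q)
  have hN0 : ∀ q, 0 ≤ N q := fun q => mul_nonneg (mul_nonneg (hG0 _) (hG0 _)) (wN_nonneg hV q)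
  set I : ℝ := ∫ q in PrS Λ t v₀, P q with hI
  set I₁ : ℝ := ∫ q in PrN Λ t v₀, P q with hI₁
  have hXN : XN a β V G = ∫ q, N q := rfl
  -- outside `PrN` the weight is bounded by `wN`
  have hA : I ≤ I₁ + KΛ * XN a β V G := by
    rw [hI, hI₁, ← integral_indicator (PrS_meas Λ t v₀), ← integral_indicator (PrN_meas Λ t v₀),
      hXN, ← integral_const_mul, ← integral_add (hPi.indicator (PrN_meas Λ t v₀))
        (hNi.const_mul KΛ)]
    refine integral_mono_ae (hPi.indicator (PrS_meas Λ t v₀))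
      ((hPi.indicator (PrN_meas Λ t v₀)).add (hNi.const_mul KΛ)) ?_
    filter_upwards [ae_off (by linarith [HL.H.hd] : 1 ≤ d) v₀] with q hq
    show (PrS Λ t v₀).indicator P q ≤ (PrN Λ t v₀).indicator P q + KΛ * N q
    by_cases hS : q ∈ PrS Λ t v₀
    · rw [indicator_of_mem hS]
      by_cases hPN : q ∈ PrN Λ t v₀
      · rw [indicator_of_mem hPN]
        have := mul_nonneg hKΛ0 (hN0 q)
        linarith
      · rw [indicator_of_notMem hPN, zero_add]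
        have hL : 0 < len (q.1 - q.2) := len_sub_pos.2 hq.1
        have h1 := sc_pt E has hL hS.1 hΛ4 (fun h => by
          by_contra hcon
          push Not at hcon
          exact hPN ⟨hS.1, h, hcon, hS.2⟩)
        have h2 := om_RR hβ1 hV q.1 q.2
        show G q.1 * G q.2 * wS s a β V v₀ q ≤ KΛ * (G q.1 * G q.2 * wN a β V q)
        have h3 : wS s a β V v₀ q ≤ KΛ * wN a β V q := by
          unfold wS wN
          rw [sP_exp has, ← mul_assoc]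
          exact mul_le_mul_of_nonneg_right h1 h2.1
        have h4 : 0 ≤ G q.1 * G q.2 := mul_nonneg (hG0 _) (hG0 _)
        calc G q.1 * G q.2 * wS s a β V v₀ q ≤ G q.1 * G q.2 * (KΛ * wN a β V q) := by gcongr
          _ = _ := by ring
    · rw [indicator_of_notMem hS]
      exact add_nonneg (indicator_nonneg (fun q _ => hP0 q) q) (mul_nonneg hKΛ0 (hN0 q))
  have hXN0 : 0 ≤ XN a β V G := XN_nonneg hG0 hV
  have hPc : 0 ≤ Pc (1 + a) b ε G := Pc_nonneg HL.H hε hG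
  have hI₁0 : 0 ≤ I₁ := setIntegral_nonneg (PrN_meas Λ t v₀) fun q _ => hP0 q
  have hy : 4 * (K * Λ ^ (-((d : ℝ) - 1) - a)) ≤ c / 2 * x := by
    have e1 : Λ ^ (-((d : ℝ) - 1) - a) = Λ ^ (-((d : ℝ) - 1 + a - 2 * s)) * x := by
      rw [hx, ← Real.rpow_add hΛ0]
      congr 1
      ring
    rw [e1]
    calc 4 * (K * (Λ ^ (-((d : ℝ) - 1 + a - 2 * s)) * x))
        = 4 * K * Λ ^ (-((d : ℝ) - 1 + a - 2 * s)) * x := by ring
      _ ≤ c / 2 * x := by gcongr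
  have hs0 : 0 ≤ I₁ + KΛ * XN a β V G := by positivity
  have h1 : c * x * I₁ ≤ c / 2 * x * (I₁ + KΛ * XN a β V G) + 4 * Pc (1 + a) b ε G := by
    have hy0 : 0 ≤ 4 * (K * Λ ^ (-((d : ℝ) - 1) - a)) := by positivity
    calc c * x * I₁ ≤ _ := hl
      _ ≤ _ := hent
      _ ≤ 4 * (K * Λ ^ (-((d : ℝ) - 1) - a) * I) + 4 * Pc (1 + a) b ε G := by linarith
      _ = 4 * (K * Λ ^ (-((d : ℝ) - 1) - a)) * I + 4 * Pc (1 + a) b ε G := by ring
      _ ≤ 4 * (K * Λ ^ (-((d : ℝ) - 1) - a)) * (I₁ + KΛ * XN a β V G) +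
          4 * Pc (1 + a) b ε G := by
          have := mul_le_mul_of_nonneg_left hA hy0
          linarith
      _ ≤ _ := by
          have := mul_le_mul_of_nonneg_right hy hs0
          linarith
  have h2 : I₁ ≤ KΛ * XN a β V G + 8 / (c * x) * Pc (1 + a) b ε G := by
    have hcx : 0 < c * x := by positivity
    have e1 : 8 / (c * x) * Pc (1 + a) b ε G * (c * x) = 8 * Pc (1 + a) b ε G := by
      field_simp
    have e2 : I₁ * (c * x) ≤ (KΛ * XN a β V G + 8 / (c * x) * Pc (1 + a) b ε G) * (c * x) := by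
      rw [add_mul, e1]
      nlinarith
    exact le_of_mul_le_mul_right e2 hcx
  have h3 : 0 ≤ 8 / (c * x) := by positivity
  have h4 := mul_nonneg h3 hXN0
  have h5 := mul_nonneg hKΛ0 hPc
  calc I ≤ I₁ + KΛ * XN a β V G := hA
    _ ≤ 2 * KΛ * XN a β V G + 8 / (c * x) * Pc (1 + a) b ε G := by linarith
    _ ≤ _ := by
        have : (2 * KΛ + 8 / (c * x)) * (XN a β V G + Pc (1 + a) b ε G) =
          2 * KΛ * XN a β V G + 8 / (c * x) * Pc (1 + a) b ε G +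
            (8 / (c * x) * XN a β V G + 2 * (KΛ * Pc (1 + a) b ε G)) := by ring
        rw [this]
        linarith

end Pool.Agent.H87.PF
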